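import Pool.Agent.Helper96.CM.Chain

/-!
# Project CM (MP_a499ba_nt). Assembly of the events
-/

set_option autoImplicit false

namespace Pool.Agent.Helper96.CM

open Finset Pool.Agent.Helper5.RM Pool.Agent.Helper96.AF

lemma XX_tau_congr {tau tau' : ℕ → ℝ} {S : Finset ℕ} (h : ∀ p ∈ S, tau p = tau' p) (c : ℕ → ℝ) (T : Finset ℕ) (t : ℝ) :
    XX c tau S T t = XX c tau' S T t := by
  unfold XX
  congr 1
  exact Finset.sum_congr rfl fun p hp => by rw [h p hp]

lemma FF_tau_congr {tau tau' : ℕ → ℝ} {S : Finset ℕ} (h : ∀ p ∈ S, tau p = tau' p) (c : ℕ → ℝ) (lam om a b : ℝ)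
    (w : ℝ → ℝ) (T : Finset ℕ) : FF c tau lam om a b w S T = FF c tau' lam om a b w S T := by
  unfold FF
  refine intervalIntegral.integral_congr fun t _ => ?_
  simp only [XX_tau_congr h]

/-- passing from the high levels to all levels -/
lemma low_det {c : ℕ → ℝ} (hc : Adm c) {a b h : ℝ} (hab : a ≤ b) (hh : 0 < h) (q : ℕ) {s K : ℕ} (hsK : s ≤ K)
    {w : ℝ → ℝ} (hw : Continuous w) (hw2 : ∀ t, 0 ≤ w t ∧ w t ≤ 2) (T : Finset ℕ) :
    h * ((∫ t in a..b, w t * RR c 1 (WB s K) T t) -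
      2 * h ^ q * ∫ t in a..b, RR c 1 (WB s K) T t / dc c (PP (Y s)) T t ^ q) ≤
      ∫ t in a..b, w t * dc c (PP (Y K)) T t := by
  have hP : ∀ p ∈ PP (Y s), 2 ≤ p := fun p hp => (mem_PP.1 hp).1.two_le
  have hW : ∀ p ∈ WB s K, 2 ≤ p := fun p hp => two_le_WB hp
  have c1 : Continuous (fun t => w t * RR c 1 (WB s K) T t) := hw.mul (continuous_RR c 1 _ T)
  have c2 : Continuous (fun t => RR c 1 (WB s K) T t / dc c (PP (Y s)) T t ^ q) :=
    (continuous_RR c 1 _ T).div ((continuous_dc c _ T).pow q) fun t => (pow_pos (dc_pos hc hP T t) q).ne'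
  have c3 : Continuous (fun t => 2 * h ^ q * (RR c 1 (WB s K) T t / dc c (PP (Y s)) T t ^ q)) := continuous_const.mul c2
  have c4 : Continuous (fun t => h * (w t * RR c 1 (WB s K) T t -
      2 * h ^ q * (RR c 1 (WB s K) T t / dc c (PP (Y s)) T t ^ q))) := continuous_const.mul (c1.sub c3)
  rw [← intervalIntegral.integral_const_mul, ← intervalIntegral.integral_sub (c1.intervalIntegrable a b)
    (c3.intervalIntegrable a b), ← intervalIntegral.integral_const_mul]
  refine intervalIntegral.integral_mono_on hab ?_ ?_ fun t _ => ?_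
  · exact c4.intervalIntegrable a b
  · exact (hw.mul (continuous_dc c _ T)).intervalIntegrable a b
  have hd := dc_pos hc hP T t
  have hR := RR_pos hc zero_le_one le_rfl hW T t
  obtain ⟨hw0, hw1⟩ := hw2 t
  have e : dc c (PP (Y K)) T t = dc c (PP (Y s)) T t * RR c 1 (WB s K) T t := by
    rw [PP_eq_union hsK, dc_union (PP_WB_disj s K), dc_eq_RR c (WB s K)]
  rw [e]
  set D := dc c (PP (Y s)) T t with hD
  set R := RR c 1 (WB s K) T t with hRR
  have hq : 0 < D ^ q := by positivity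
  have h1 : 0 ≤ h ^ q * (R / D ^ q) := by positivity
  rcases le_or_gt h D with h2 | h2
  · have h3 : h * (w t * R) ≤ w t * (D * R) := by
      have := mul_le_mul_of_nonneg_right h2 (mul_nonneg hw0 hR.le)
      linarith
    nlinarith
  · have h3 : 1 ≤ h ^ q / D ^ q := by
      rw [one_le_div hq]
      exact pow_le_pow_left₀ hd.le h2.le q
    have h4 : R ≤ h ^ q * (R / D ^ q) := by
      have : h ^ q * (R / D ^ q) = h ^ q / D ^ q * R := by ring
      rw [this]
      nlinarith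
    have h5 : w t * R - 2 * h ^ q * (R / D ^ q) ≤ 0 := by nlinarith
    have h6 : 0 ≤ w t * (D * R) := by positivity
    nlinarith

/-- the union of the exceptional events -/
theorem assemble {a b : ℝ} (hab : a ≤ b) {c : ℕ → ℝ} (hc : Adm c) {q s m K : ℕ} (hsm : s ≤ m) (hmK : m ≤ K)
    {gam om om1 c0 c1 Cd mu h H2 H5 rho p1 p2 p3 p4 p5 : ℝ} (hom : 0 < om) (hh : 0 < h) (U : Finset ℝ)
    (hU : ∀ u ∈ U, 0 < |u| ∧ c1 + rho / |u| ≤ om / om1 / Cd * (c0 - Real.exp (-(mu / gam)) * H2))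
    (hk : 0 ≤ om / om1 / Cd)
    (h1 : pr (WB s m) (fun T => FF c (fun _ => 1 - gam) (1 - gam) om1 a b (fun _ => 1) (WB s m) T < c0) ≤ p1)
    (hd : ∀ T : Finset ℕ,
      om / om1 / Cd * (FF c (fun _ => 1 - gam) (1 - gam) om1 a b (fun _ => 1) (WB s m) T -
        Real.exp (-(mu / gam)) * ∫ t in a..b, RR c (1 - gam) (WB s m) T t *
          Real.exp (mu * XX c (fun _ => 1 - gam) (WB s m) T t)) ≤
      FF c (fun _ => 1 - gam) 1 om a b (fun _ => 1) (WB s m) T)
    (h2 : pr (WB s m) (fun T => H2 ≤ ∫ t in a..b, RR c (1 - gam) (WB s m) T t *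
          Real.exp (mu * XX c (fun _ => 1 - gam) (WB s m) T t)) ≤ p2)
    (h3 : pr (WB s m) (fun T => ∃ u : ℝ, 0 < |u| ∧ rho / |u| <
      |∫ t in a..b, Real.cos (t * u) * (RR c 1 (WB s m) T t * Gf om (XX c (fun _ => 1 - gam) (WB s m) T t))|) ≤ p3)
    (h4 : ∀ u ∈ U, pr (WB s K) (fun T => c1 ≤ FF c (fun p => if p ≤ Y m then 1 - gam else 1) 1 om a b
        (fun t => 1 - Real.cos (t * u)) (WB s m) T ∧
      FF c (fun p => if p ≤ Y m then 1 - gam else 1) 1 om a b (fun t => 1 - Real.cos (t * u)) (WB s K) T < c1 / 16) ≤ p4)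
    (h5 : pr (PP (Y K)) (fun T => H5 ≤ ∫ t in a..b, RR c 1 (WB s K) T t / dc c (PP (Y s)) T t ^ q) ≤ p5) :
    pr (PP (Y K)) (fun T => ∃ u ∈ U, ∫ t in a..b, (1 - Real.cos (t * u)) * dc c (PP (Y K)) T t <
      h * (c1 / 16 - 2 * h ^ q * H5)) ≤ p1 + p2 + p3 + U.card * p4 + p5 := by
  have hWm : WB s m ⊆ PP (Y K) := (WB_sub_PP s m).trans (PP_Y_mono hmK)
  have hWK : WB s K ⊆ PP (Y K) := WB_sub_PP s K
  have hWmK : WB s m ⊆ WB s K := WB_mono hmK
  have hW : ∀ p ∈ WB s m, 2 ≤ p := fun p hp => two_le_WB hp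
  have hWk : ∀ p ∈ WB s K, 2 ≤ p := fun p hp => two_le_WB hp
  have hi : ∀ S : Finset ℕ, ∀ T : Finset ℕ, ∀ p ∈ S, (p ∈ T ↔ p ∈ T ∩ S) := fun S T p hp => by simp [hp]
  rw [← pr_restrict hWm _ (fun T => by rw [FF_congr (hi _ T)])] at h1
  rw [← pr_restrict hWm _ (fun T => by simp only [RR_congr (hi _ T), XX_congr (hi _ T)])] at h2
  rw [← pr_restrict hWm _ (fun T => by simp only [RR_congr (hi _ T), XX_congr (hi _ T)])] at h3
  have h4' : pr (PP (Y K)) (fun T => ∃ u ∈ U, c1 ≤ FF c (fun p => if p ≤ Y m then 1 - gam else 1) 1 om a b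
        (fun t => 1 - Real.cos (t * u)) (WB s m) T ∧
      FF c (fun p => if p ≤ Y m then 1 - gam else 1) 1 om a b (fun t => 1 - Real.cos (t * u)) (WB s K) T < c1 / 16) ≤
      U.card * p4 := by
    refine (pr_exists _ _ _).trans ?_
    rw [← nsmul_eq_mul]
    refine Finset.sum_le_card_nsmul _ _ _ fun u hu => ?_
    rw [pr_restrict hWK _ (fun T => by
      rw [FF_congr (hi (WB s K) T), FF_congr (S := WB s m) (T := T) (T' := T ∩ WB s K) (fun p hp => by simp [hWmK hp])])]
    exact h4 u hu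
  refine le_trans (pr_mono (Q := fun T => ((((FF c (fun _ => 1 - gam) (1 - gam) om1 a b (fun _ => 1) (WB s m) T < c0) ∨
    (H2 ≤ ∫ t in a..b, RR c (1 - gam) (WB s m) T t *
          Real.exp (mu * XX c (fun _ => 1 - gam) (WB s m) T t))) ∨
    (∃ u : ℝ, 0 < |u| ∧ rho / |u| <
      |∫ t in a..b, Real.cos (t * u) * (RR c 1 (WB s m) T t * Gf om (XX c (fun _ => 1 - gam) (WB s m) T t))|)) ∨
    (∃ u ∈ U, c1 ≤ FF c (fun p => if p ≤ Y m then 1 - gam else 1) 1 om a b
        (fun t => 1 - Real.cos (t * u)) (WB s m) T ∧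
      FF c (fun p => if p ≤ Y m then 1 - gam else 1) 1 om a b (fun t => 1 - Real.cos (t * u)) (WB s K) T < c1 / 16)) ∨
    (H5 ≤ ∫ t in a..b, RR c 1 (WB s K) T t / dc c (PP (Y s)) T t ^ q)) ?_) ?_
  · rintro T hT ⟨u, hu, hlt⟩
    by_contra hcon
    push Not at hcon
    obtain ⟨⟨⟨⟨g1, g2⟩, g3⟩, g4⟩, g5⟩ := hcon
    obtain ⟨hu0, hu1⟩ := hU u hu
    have wc : Continuous (fun t : ℝ => 1 - Real.cos (t * u)) := by fun_prop
    have w2 : ∀ t : ℝ, 0 ≤ 1 - Real.cos (t * u) ∧ 1 - Real.cos (t * u) ≤ 2 := fun t =>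
      ⟨by linarith [Real.cos_le_one (t * u)], by linarith [Real.neg_one_le_cos (t * u)]⟩
    have k1 := hd T
    have k2 : om / om1 / Cd * (c0 - Real.exp (-(mu / gam)) * H2) ≤
        FF c (fun _ => 1 - gam) 1 om a b (fun _ => 1) (WB s m) T := by
      refine le_trans (mul_le_mul_of_nonneg_left ?_ hk) k1
      have := mul_le_mul_of_nonneg_left g2.le (Real.exp_pos (-(mu / gam))).le
      linarith
    have k3 := g3 u hu0
    have cR : Continuous (fun t => RR c 1 (WB s m) T t * Gf om (XX c (fun _ => 1 - gam) (WB s m) T t)) :=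
      (continuous_RR c 1 _ T).mul ((continuous_Gf hom.le).comp (continuous_XX c _ _ T))
    have k4 : FF c (fun p => if p ≤ Y m then 1 - gam else 1) 1 om a b (fun t => 1 - Real.cos (t * u)) (WB s m) T =
        FF c (fun _ => 1 - gam) 1 om a b (fun _ => 1) (WB s m) T -
        ∫ t in a..b, Real.cos (t * u) * (RR c 1 (WB s m) T t * Gf om (XX c (fun _ => 1 - gam) (WB s m) T t)) := by
      rw [FF_tau_congr (tau' := fun _ => 1 - gam) (fun p hp => by rw [if_pos (mem_WB.1 hp).2.2])]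
      unfold FF
      rw [← intervalIntegral.integral_sub]
      · refine intervalIntegral.integral_congr fun t _ => ?_
        ring
      · exact (continuous_const.mul cR).intervalIntegrable a b
      · exact ((by fun_prop : Continuous (fun t : ℝ => Real.cos (t * u))).mul cR).intervalIntegrable a b
    have k5 : c1 ≤ FF c (fun p => if p ≤ Y m then 1 - gam else 1) 1 om a b (fun t => 1 - Real.cos (t * u)) (WB s m) T := by
      rw [k4]
      have := (abs_le.1 k3).2
      linarith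
    have k6 := g4 u hu k5
    have k7 : FF c (fun p => if p ≤ Y m then 1 - gam else 1) 1 om a b (fun t => 1 - Real.cos (t * u)) (WB s K) T ≤
        ∫ t in a..b, (1 - Real.cos (t * u)) * RR c 1 (WB s K) T t := by
      unfold FF
      refine intervalIntegral.integral_mono_on hab ?_ ?_ fun t _ => ?_
      · exact (wc.mul ((continuous_RR c 1 _ T).mul ((continuous_Gf hom.le).comp (continuous_XX c _ _ T)))).intervalIntegrable a b
      · exact (wc.mul (continuous_RR c 1 _ T)).intervalIntegrable a b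
      · refine mul_le_mul_of_nonneg_left ?_ (w2 t).1
        exact mul_le_of_le_one_right (RR_pos hc zero_le_one le_rfl hWk T t).le (Gf_le_one hom.le _)
    have k8 := low_det hc hab hh q (hsm.trans hmK) wc w2 T
    have k9 : 2 * h ^ q * (∫ t in a..b, RR c 1 (WB s K) T t / dc c (PP (Y s)) T t ^ q) ≤ 2 * h ^ q * H5 :=
      mul_le_mul_of_nonneg_left g5.le (by positivity)
    have k10 : h * (c1 / 16 - 2 * h ^ q * H5) ≤ h * ((∫ t in a..b, (1 - Real.cos (t * u)) * RR c 1 (WB s K) T t) -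
      2 * h ^ q * ∫ t in a..b, RR c 1 (WB s K) T t / dc c (PP (Y s)) T t ^ q) :=
      mul_le_mul_of_nonneg_left (by linarith) hh.le
    linarith
  · refine (pr_or _ _ _).trans (add_le_add ?_ h5)
    refine (pr_or _ _ _).trans (add_le_add ?_ h4')
    refine (pr_or _ _ _).trans (add_le_add ?_ h3)
    exact (pr_or _ _ _).trans (add_le_add h1 h2)

end Pool.Agent.Helper96.CM
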