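import Pool.Agent.Helper96.CM.Defs

/-!
# Project CM (MP_a499ba_nt). CM1: the truncation function
-/

set_option autoImplicit false

namespace Pool.Agent.Helper96.CM

open Finset Pool.Agent.Helper5.RM Pool.Agent.Helper96.AF

private lemma Lf_pos20 (x : ℝ) : 0 < Lf x := by
  unfold Lf
  have h := Real.exp_pos x
  exact Real.log_pos (by linarith)

private lemma Lf_le_exp20 (x : ℝ) : Lf x ≤ Real.exp x := by
  unfold Lf
  have h := Real.exp_pos x
  have h1 := Real.log_le_sub_one_of_pos (show 0 < 1 + Real.exp x by linarith)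
  linarith

private lemma sg_le_Lf20 (x : ℝ) : Real.exp x / (1 + Real.exp x) ≤ Lf x := by
  unfold Lf
  have h := Real.exp_pos x
  have h0 : 0 < 1 + Real.exp x := by linarith
  have h1 := Real.one_sub_inv_le_log_of_pos h0
  refine le_trans (le_of_eq ?_) h1
  field_simp
  ring

private lemma sg_pos20 (x : ℝ) : 0 < Real.exp x / (1 + Real.exp x) := by positivity

private lemma sg_lt_one20 (x : ℝ) : Real.exp x / (1 + Real.exp x) < 1 := by
  have h := Real.exp_pos x
  rw [div_lt_one (by linarith)]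
  linarith

/-- the rational form -/
private lemma gf_eq20 {u : ℝ} (hu : 0 ≤ u) : 1 - 1 / (1 + u + u ^ 2) = (u + u ^ 2) / (1 + u + u ^ 2) := by
  have h : 0 < 1 + u + u ^ 2 := by positivity
  field_simp
  ring

lemma Gf_pos {om : ℝ} (h : 0 < om) (x : ℝ) : 0 < Gf om x := by
  have h1 := Lf_pos20 x
  have h2 : 0 < om * Lf x := mul_pos h h1
  unfold Gf
  rw [gf_eq20 h2.le]
  positivity

lemma Gf_le_one {om : ℝ} (h : 0 ≤ om) (x : ℝ) : Gf om x ≤ 1 := by
  have h1 := Lf_pos20 x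
  have h2 : 0 ≤ om * Lf x := mul_nonneg h h1.le
  unfold Gf
  have h3 : 0 ≤ 1 / (1 + om * Lf x + (om * Lf x) ^ 2) := by positivity
  linarith

lemma Gf_le_exp {om lam : ℝ} (h : 0 < om) (h1 : om ≤ 1) (hl : 0 ≤ lam) (hl1 : lam ≤ 1) (x : ℝ) :
    Gf om x ≤ Real.exp (lam * x) := by
  rcases le_total 0 x with hx | hx
  · refine (Gf_le_one h.le x).trans ?_
    exact Real.one_le_exp (mul_nonneg hl hx)
  · have h2 : Real.exp x ≤ Real.exp (lam * x) := by
      refine Real.exp_le_exp.2 ?_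
      nlinarith
    refine le_trans ?_ h2
    have h3 := Lf_pos20 x
    have h4 := Lf_le_exp20 x
    have hu : 0 < om * Lf x := mul_pos h h3
    have h5 : om * Lf x ≤ Lf x := by nlinarith
    have h6 : Gf om x ≤ om * Lf x := by
      unfold Gf
      rw [gf_eq20 hu.le, div_le_iff₀ (by positivity)]
      have : 0 ≤ (om * Lf x) ^ 3 := by positivity
      nlinarith
    linarith

lemma Gf_zero {om : ℝ} (h : 0 < om) (h1 : om ≤ 1 / 4) : om / 2 ≤ Gf om 0 := by
  have e : Lf 0 = Real.log 2 := by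
    unfold Lf
    rw [Real.exp_zero]
    norm_num
  unfold Gf
  rw [e]
  obtain ⟨u, hu⟩ : ∃ u : ℝ, u = om * Real.log 2 := ⟨_, rfl⟩
  have l1 := Real.log_two_gt_d9
  have l2 := Real.log_two_lt_d9
  have hu0 : 0 < u := by
    rw [hu]
    positivity
  have hu1 : 69 / 100 * om ≤ u := by
    rw [hu]
    nlinarith
  have hu2 : u ≤ 1 / 5 := by
    rw [hu]
    nlinarith
  rw [← hu, gf_eq20 hu0.le, le_div_iff₀ (by positivity)]
  have h3 : om ≤ 100 / 69 * u := by linarith
  have h4 : 0 ≤ 1 + u + u ^ 2 := by positivity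
  have h5 : om / 2 * (1 + u + u ^ 2) ≤ 50 / 69 * u * (1 + u + u ^ 2) := mul_le_mul_of_nonneg_right (by linarith) h4
  refine h5.trans ?_
  have h6 : 0 ≤ u * (19 / 69 + 19 / 69 * u - 50 / 69 * u ^ 2) := by
    refine mul_nonneg hu0.le ?_
    nlinarith
  nlinarith

lemma Gf_scale {om om1 : ℝ} (h : 0 < om) (h1 : om ≤ om1) (x : ℝ) : om / om1 * Gf om1 x ≤ Gf om x := by
  have h2 := Lf_pos20 x
  have h0 : 0 < om1 := by linarith
  obtain ⟨L, hL⟩ : ∃ L : ℝ, L = Lf x := ⟨_, rfl⟩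
  have hu : 0 < om * L := by rw [hL]; exact mul_pos h h2
  have hv : 0 < om1 * L := by rw [hL]; exact mul_pos h0 h2
  rw [← hL] at h2
  unfold Gf
  rw [← hL, gf_eq20 hu.le, gf_eq20 hv.le]
  have e : om / om1 * ((om1 * L + (om1 * L) ^ 2) / (1 + om1 * L + (om1 * L) ^ 2)) =
      (om * L) * (1 + om1 * L) / (1 + om1 * L + (om1 * L) ^ 2) := by
    field_simp
  have e2 : (om * L + (om * L) ^ 2) = (om * L) * (1 + om * L) := by ring
  rw [e, e2, div_le_div_iff₀ (by positivity) (by positivity)]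
  obtain ⟨u, hu'⟩ : ∃ u : ℝ, u = om * L := ⟨_, rfl⟩
  obtain ⟨v, hv'⟩ : ∃ v : ℝ, v = om1 * L := ⟨_, rfl⟩
  have huv : u ≤ v := by
    rw [hu', hv']
    exact mul_le_mul_of_nonneg_right h1 h2.le
  rw [← hu', ← hv']
  rw [← hu'] at hu
  rw [← hv'] at hv
  have h5 : (1 + u) * (1 + v + v ^ 2) - (1 + v) * (1 + u + u ^ 2) = (v - u) * (v + u + u * v) := by ring
  have h6 : 0 ≤ (v - u) * (v + u + u * v) := mul_nonneg (by linarith) (by positivity)
  have h7 : 0 ≤ u * ((1 + u) * (1 + v + v ^ 2) - (1 + v) * (1 + u + u ^ 2)) := mul_nonneg hu.le (by rw [h5]; exact h6)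
  nlinarith

lemma Gd_nonneg {om : ℝ} (h : 0 < om) (x : ℝ) : 0 ≤ Gd om x := by
  have h1 := Lf_pos20 x
  unfold Gd
  positivity

lemma Gd_le {om : ℝ} (h : 0 < om) (x : ℝ) : Gd om x ≤ Gf om x := by
  have h1 := Lf_pos20 x
  have h2 := sg_le_Lf20 x
  have h3 := sg_pos20 x
  obtain ⟨L, hL⟩ : ∃ L : ℝ, L = Lf x := ⟨_, rfl⟩
  obtain ⟨s, hs⟩ : ∃ s : ℝ, s = Real.exp x / (1 + Real.exp x) := ⟨_, rfl⟩
  unfold Gd Gf
  rw [← hs, ← hL] at h2
  rw [← hs] at h3
  rw [← hL] at h1
  rw [← hs, ← hL]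
  obtain ⟨u, hu'⟩ : ∃ u : ℝ, u = om * L := ⟨_, rfl⟩
  have hu : 0 < u := by rw [hu']; positivity
  rw [← hu', gf_eq20 hu.le, div_le_div_iff₀ (by positivity) (by positivity)]
  have h4 : om * s ≤ u := by
    rw [hu']
    exact mul_le_mul_of_nonneg_left h2 h.le
  have h5 : om * s * (1 + 2 * u) ≤ u * (1 + 2 * u) := mul_le_mul_of_nonneg_right h4 (by linarith)
  have h6 : u * (1 + 2 * u) ≤ (u + u ^ 2) * (1 + u + u ^ 2) := by
    have : (u + u ^ 2) * (1 + u + u ^ 2) - u * (1 + 2 * u) = u ^ 3 * 2 + u ^ 4 := by ring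
    have h7 : 0 ≤ u ^ 3 * 2 + u ^ 4 := by positivity
    linarith
  have hD : 0 ≤ 1 + u + u ^ 2 := by positivity
  calc om * s * (1 + 2 * u) * (1 + u + u ^ 2) ≤ (u + u ^ 2) * (1 + u + u ^ 2) * (1 + u + u ^ 2) :=
        mul_le_mul_of_nonneg_right (h5.trans h6) hD
    _ = (u + u ^ 2) * (1 + u + u ^ 2) ^ 2 := by ring

private lemma hasDerivAt_Lf20 (x : ℝ) : HasDerivAt Lf (Real.exp x / (1 + Real.exp x)) x := by
  have h := Real.exp_pos x
  have h1 : HasDerivAt (fun y => 1 + Real.exp y) (Real.exp x) x := (Real.hasDerivAt_exp x).const_add 1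
  exact h1.log (by linarith)

lemma hasDerivAt_Gf {om : ℝ} (h : 0 < om) (x : ℝ) : HasDerivAt (Gf om) (Gd om x) x := by
  have h1 := Lf_pos20 x
  have hu : 0 < om * Lf x := mul_pos h h1
  have h2 : HasDerivAt (fun y => om * Lf y) (om * (Real.exp x / (1 + Real.exp x))) x := (hasDerivAt_Lf20 x).const_mul om
  have h3 : HasDerivAt (fun y => 1 + om * Lf y + (om * Lf y) ^ 2)
      (om * (Real.exp x / (1 + Real.exp x)) + 2 * (om * Lf x) * (om * (Real.exp x / (1 + Real.exp x)))) x := by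
    have h4 := (h2.const_add 1).add (h2.pow 2)
    refine h4.congr_deriv ?_
    push_cast
    ring
  have h5 := ((h3.inv (by positivity)).const_sub 1)
  unfold Gf Gd
  have e : (fun x => 1 - 1 / (1 + om * Lf x + (om * Lf x) ^ 2)) = fun x => 1 - (1 + om * Lf x + (om * Lf x) ^ 2)⁻¹ := by
    funext y
    rw [one_div]
  rw [e]
  refine h5.congr_deriv ?_
  ring

private lemma mono_Gf20 {om : ℝ} (h : 0 < om) : Monotone (Gf om) :=
  monotone_of_deriv_nonneg (fun x => (hasDerivAt_Gf h x).differentiableAt) fun x => by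
    rw [(hasDerivAt_Gf h x).deriv]
    exact Gd_nonneg h x

private lemma anti_Gf20 {om : ℝ} (h : 0 < om) : Antitone (fun x => Real.exp (-x) * Gf om x) := by
  have hd : ∀ x, HasDerivAt (fun x => Real.exp (-x) * Gf om x) (Real.exp (-x) * (Gd om x - Gf om x)) x := by
    intro x
    have h1 : HasDerivAt (fun x : ℝ => Real.exp (-x)) (-Real.exp (-x)) x := by
      have := (hasDerivAt_neg x).exp
      refine this.congr_deriv ?_
      ring
    refine (h1.mul (hasDerivAt_Gf h x)).congr_deriv ?_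
    ring
  refine antitone_of_deriv_nonpos (fun x => (hd x).differentiableAt) fun x => ?_
  rw [(hd x).deriv]
  have h1 := Gd_le h x
  exact mul_nonpos_of_nonneg_of_nonpos (Real.exp_pos _).le (by linarith)

lemma Gf_ratio {om : ℝ} (h : 0 < om) (x y : ℝ) : Gf om y ≤ Real.exp |y - x| * Gf om x := by
  have hx := Gf_pos h x
  rcases le_total y x with hxy | hxy
  · have h1 := mono_Gf20 h hxy
    have h2 : 1 ≤ Real.exp |y - x| := Real.one_le_exp (abs_nonneg _)
    nlinarith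
  · have h1 := anti_Gf20 h hxy
    rw [abs_of_nonneg (by linarith), Real.exp_sub]
    simp only [Real.exp_neg] at h1
    have h2 := Real.exp_pos x
    have h3 := Real.exp_pos y
    have h4 : Gf om y = Real.exp y * ((Real.exp y)⁻¹ * Gf om y) := by field_simp
    rw [h4]
    refine (mul_le_mul_of_nonneg_left h1 h3.le).trans (le_of_eq ?_)
    field_simp

/-- the second derivative -/
private noncomputable def Gdd20 (om x : ℝ) : ℝ :=
  Gd om x * (1 - Real.exp x / (1 + Real.exp x)) -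
    6 * om ^ 2 * (Real.exp x / (1 + Real.exp x)) ^ 2 * (om * Lf x + (om * Lf x) ^ 2) / (1 + om * Lf x + (om * Lf x) ^ 2) ^ 3

private lemma hasDerivAt_Gd20 {om : ℝ} (h : 0 < om) (x : ℝ) : HasDerivAt (Gd om) (Gdd20 om x) x := by
  have h1 := Lf_pos20 x
  have hu : 0 < om * Lf x := mul_pos h h1
  have he := Real.exp_pos x
  obtain ⟨s, hs⟩ : ∃ s : ℝ → ℝ, ∀ y, s y = Real.exp y / (1 + Real.exp y) := ⟨_, fun _ => rfl⟩
  have h2 : HasDerivAt (fun y => om * Lf y) (om * s x) x := by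
    rw [hs]
    exact (hasDerivAt_Lf20 x).const_mul om
  have hs1 : HasDerivAt s (s x * (1 - s x)) x := by
    have h3 : HasDerivAt (fun y => 1 + Real.exp y) (Real.exp x) x := (Real.hasDerivAt_exp x).const_add 1
    have h4 := (Real.hasDerivAt_exp x).div h3 (by positivity)
    have e : s = fun y => Real.exp y / (1 + Real.exp y) := funext hs
    rw [hs, e]
    refine h4.congr_deriv ?_
    field_simp
  have h3 : HasDerivAt (fun y => 1 + om * Lf y + (om * Lf y) ^ 2)
      (om * s x + 2 * (om * Lf x) * (om * s x)) x := by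
    have h4 := (h2.const_add 1).add (h2.pow 2)
    refine h4.congr_deriv ?_
    push_cast
    ring
  have h5 : HasDerivAt (fun y => (1 + om * Lf y + (om * Lf y) ^ 2) ^ 2)
      (2 * (1 + om * Lf x + (om * Lf x) ^ 2) * (om * s x + 2 * (om * Lf x) * (om * s x))) x := by
    refine (h3.pow 2).congr_deriv ?_
    push_cast
    ring
  have h6 : HasDerivAt (fun y => om * s y * (1 + 2 * (om * Lf y)))
      (om * (s x * (1 - s x)) * (1 + 2 * (om * Lf x)) + om * s x * (2 * (om * s x))) x :=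
    (hs1.const_mul om).mul ((h2.const_mul 2).const_add 1)
  have h7 := h6.div h5 (by positivity)
  have e : Gd om = fun y => om * s y * (1 + 2 * (om * Lf y)) / (1 + om * Lf y + (om * Lf y) ^ 2) ^ 2 := by
    funext y
    unfold Gd
    rw [hs]
  unfold Gdd20
  rw [e, ← hs x]
  refine h7.congr_deriv ?_
  beta_reduce
  obtain ⟨u, hu'⟩ : ∃ u : ℝ, u = om * Lf x := ⟨_, rfl⟩
  rw [← hu'] at hu ⊢
  have hD : 1 + u + u ^ 2 ≠ 0 := by positivity
  field_simp
  ring

private lemma taylor20 {f f' f'' : ℝ → ℝ} (h1 : ∀ x, HasDerivAt f (f' x) x) (h2 : ∀ x, HasDerivAt f' (f'' x) x) {x y M : ℝ}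
    (hM : ∀ s ∈ Set.Icc (0 : ℝ) 1, -(2 * M) ≤ f'' (x + s * (y - x)) * (y - x) ^ 2) :
    f x + f' x * (y - x) - M ≤ f y := by
  have hl : ∀ s : ℝ, HasDerivAt (fun s => x + s * (y - x)) (y - x) s := by
    intro s
    have := ((hasDerivAt_id s).mul_const (y - x)).const_add x
    refine this.congr_deriv ?_
    ring
  have hF' : ∀ s : ℝ, HasDerivAt (fun s => f' (x + s * (y - x)) * (y - x)) (f'' (x + s * (y - x)) * (y - x) ^ 2) s := by
    intro s
    have := ((h2 (x + s * (y - x))).comp s (hl s)).mul_const (y - x)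
    refine this.congr_deriv ?_
    ring
  have hF : ∀ s : ℝ, HasDerivAt (fun s => f (x + s * (y - x))) (f' (x + s * (y - x)) * (y - x)) s :=
    fun s => (h1 (x + s * (y - x))).comp s (hl s)
  -- first step
  have hA : ∀ s : ℝ, HasDerivAt (fun s => f' (x + s * (y - x)) * (y - x) + 2 * M * s)
      (f'' (x + s * (y - x)) * (y - x) ^ 2 + 2 * M) s := by
    intro s
    have := (hF' s).add ((hasDerivAt_id s).const_mul (2 * M))
    refine this.congr_deriv ?_
    ring
  have mA : MonotoneOn (fun s => f' (x + s * (y - x)) * (y - x) + 2 * M * s) (Set.Icc 0 1) := by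
    refine monotoneOn_of_deriv_nonneg (convex_Icc 0 1) (fun s _ => (hA s).continuousAt.continuousWithinAt)
      (fun s _ => (hA s).differentiableAt.differentiableWithinAt) fun s hs => ?_
    rw [(hA s).deriv]
    have := hM s (interior_subset hs)
    linarith
  have hB : ∀ s : ℝ, HasDerivAt (fun s => f (x + s * (y - x)) - f' x * (y - x) * s + M * s ^ 2)
      (f' (x + s * (y - x)) * (y - x) - f' x * (y - x) + 2 * M * s) s := by
    intro s
    have := ((hF s).sub ((hasDerivAt_id s).const_mul (f' x * (y - x)))).add (((hasDerivAt_id s).pow 2).const_mul M)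
    refine this.congr_deriv ?_
    simp only [id]
    push_cast
    ring
  have mB : MonotoneOn (fun s => f (x + s * (y - x)) - f' x * (y - x) * s + M * s ^ 2) (Set.Icc 0 1) := by
    refine monotoneOn_of_deriv_nonneg (convex_Icc 0 1) (fun s _ => (hB s).continuousAt.continuousWithinAt)
      (fun s _ => (hB s).differentiableAt.differentiableWithinAt) fun s hs => ?_
    rw [(hB s).deriv]
    have hs' := interior_subset hs
    have := mA (Set.left_mem_Icc.2 zero_le_one) hs' hs'.1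
    simp only [zero_mul, add_zero, mul_zero] at this
    linarith
  have := mB (Set.left_mem_Icc.2 zero_le_one) (Set.right_mem_Icc.2 zero_le_one) zero_le_one
  simp only [zero_mul, add_zero, mul_zero, one_mul, mul_one, sub_zero] at this
  have e : x + (y - x) = y := by ring
  rw [e] at this
  linarith

private lemma Gdd_lower20 {om : ℝ} (h : 0 < om) (x : ℝ) : -(6 * om ^ 2 * Gf om x) ≤ Gdd20 om x := by
  have h1 := Lf_pos20 x
  have h2 := sg_pos20 x
  have h3 := (sg_lt_one20 x).le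
  have hd := Gd_nonneg h x
  unfold Gdd20
  have h4 : 0 ≤ Gd om x * (1 - Real.exp x / (1 + Real.exp x)) := mul_nonneg hd (by linarith)
  obtain ⟨s, hs⟩ : ∃ s : ℝ, s = Real.exp x / (1 + Real.exp x) := ⟨_, rfl⟩
  rw [← hs] at h2 h3 h4
  rw [← hs]
  have h5 : 6 * om ^ 2 * s ^ 2 * (om * Lf x + (om * Lf x) ^ 2) / (1 + om * Lf x + (om * Lf x) ^ 2) ^ 3 ≤ 6 * om ^ 2 * Gf om x := by
    unfold Gf
    obtain ⟨u, hu'⟩ : ∃ u : ℝ, u = om * Lf x := ⟨_, rfl⟩
    have hu : 0 < u := by rw [hu']; positivity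
    rw [← hu', gf_eq20 hu.le, ← mul_div_assoc, div_le_div_iff₀ (by positivity) (by positivity)]
    have hs2 : s ^ 2 ≤ 1 := pow_le_one₀ h2.le h3
    have hD : 1 ≤ 1 + u + u ^ 2 := by
      have : 0 ≤ u ^ 2 := by positivity
      linarith
    have hD2 : 1 + u + u ^ 2 ≤ (1 + u + u ^ 2) ^ 3 := by
      calc 1 + u + u ^ 2 = (1 + u + u ^ 2) ^ 1 := by ring
        _ ≤ (1 + u + u ^ 2) ^ 3 := pow_le_pow_right₀ hD (by norm_num)
    have h6 : s ^ 2 * (1 + u + u ^ 2) ≤ 1 * (1 + u + u ^ 2) ^ 3 := mul_le_mul hs2 hD2 (by positivity) zero_le_one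
    have h7 : 0 ≤ 6 * om ^ 2 * (u + u ^ 2) := by positivity
    calc 6 * om ^ 2 * s ^ 2 * (u + u ^ 2) * (1 + u + u ^ 2) = 6 * om ^ 2 * (u + u ^ 2) * (s ^ 2 * (1 + u + u ^ 2)) := by ring
      _ ≤ 6 * om ^ 2 * (u + u ^ 2) * (1 * (1 + u + u ^ 2) ^ 3) := mul_le_mul_of_nonneg_left h6 h7
      _ = 6 * om ^ 2 * (u + u ^ 2) * (1 + u + u ^ 2) ^ 3 := by ring
  linarith

private lemma Gdd_upper20 {om : ℝ} (h : 0 < om) (x : ℝ) : Gdd20 om x ≤ Gf om x := by
  have h1 := Lf_pos20 x
  have h2 := sg_pos20 x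
  have hd := Gd_nonneg h x
  have hd2 := Gd_le h x
  unfold Gdd20
  have h4 : Gd om x * (1 - Real.exp x / (1 + Real.exp x)) ≤ Gd om x := mul_le_of_le_one_right hd (by linarith)
  have h5 : 0 ≤ 6 * om ^ 2 * (Real.exp x / (1 + Real.exp x)) ^ 2 * (om * Lf x + (om * Lf x) ^ 2) / (1 + om * Lf x + (om * Lf x) ^ 2) ^ 3 := by
    positivity
  linarith

private lemma Gf_near20 {om : ℝ} (h : 0 < om) (x y : ℝ) {s : ℝ} (hs : s ∈ Set.Icc (0 : ℝ) 1) :
    Gf om (x + s * (y - x)) ≤ Real.exp |y - x| * Gf om x := by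
  refine (Gf_ratio h x (x + s * (y - x))).trans ?_
  refine mul_le_mul_of_nonneg_right (Real.exp_le_exp.2 ?_) (Gf_pos h x).le
  have e : x + s * (y - x) - x = s * (y - x) := by ring
  rw [e, abs_mul, abs_of_nonneg hs.1]
  exact mul_le_of_le_one_left (abs_nonneg _) hs.2

lemma Gf_lower {om : ℝ} (h : 0 < om) (h1 : om ≤ 1 / 4) (x y : ℝ) :
    Gf om x + Gd om x * (y - x) - 3 * om ^ 2 * (Real.exp |y - x| * (y - x) ^ 2) * Gf om x ≤ Gf om y := by
  refine taylor20 (hasDerivAt_Gf h) (hasDerivAt_Gd20 h) fun s hs => ?_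
  have h2 := Gdd_lower20 h (x + s * (y - x))
  have h3 := Gf_near20 h x y hs
  have h4 : 6 * om ^ 2 * Gf om (x + s * (y - x)) ≤ 6 * om ^ 2 * (Real.exp |y - x| * Gf om x) :=
    mul_le_mul_of_nonneg_left h3 (by positivity)
  have h5 : -(6 * om ^ 2 * (Real.exp |y - x| * Gf om x)) ≤ Gdd20 om (x + s * (y - x)) := by linarith
  have h6 := mul_le_mul_of_nonneg_right h5 (sq_nonneg (y - x))
  refine le_trans (le_of_eq ?_) h6
  ring

lemma Gf_taylor {om : ℝ} (h : 0 < om) (h1 : om ≤ 1 / 4) (x y : ℝ) :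
    |Gf om y - Gf om x - Gd om x * (y - x)| ≤ Real.exp |y - x| * (y - x) ^ 2 * Gf om x := by
  have hx := Gf_pos h x
  have hE := Real.exp_pos |y - x|
  have hN : 0 ≤ Real.exp |y - x| * (y - x) ^ 2 * Gf om x := by positivity
  rw [abs_le]
  constructor
  · have h2 := Gf_lower h h1 x y
    have h3 : 3 * om ^ 2 ≤ 1 := by nlinarith
    have h4 : 3 * om ^ 2 * (Real.exp |y - x| * (y - x) ^ 2) * Gf om x ≤ Real.exp |y - x| * (y - x) ^ 2 * Gf om x := by
      calc 3 * om ^ 2 * (Real.exp |y - x| * (y - x) ^ 2) * Gf om x = 3 * om ^ 2 * (Real.exp |y - x| * (y - x) ^ 2 * Gf om x) := by ring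
        _ ≤ 1 * (Real.exp |y - x| * (y - x) ^ 2 * Gf om x) := mul_le_mul_of_nonneg_right h3 hN
        _ = _ := one_mul _
    linarith
  · have h2 := taylor20 (f := fun x => -Gf om x) (f' := fun x => -Gd om x) (f'' := fun x => -Gdd20 om x)
      (fun x => (hasDerivAt_Gf h x).neg) (fun x => (hasDerivAt_Gd20 h x).neg) (x := x) (y := y)
      (M := Real.exp |y - x| * (y - x) ^ 2 * Gf om x) fun s hs => by
        have h3 := Gdd_upper20 h (x + s * (y - x))
        have h4 := Gf_near20 h x y hs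
        have h5 : -(Real.exp |y - x| * Gf om x) ≤ -Gdd20 om (x + s * (y - x)) := by linarith
        have h6 := mul_le_mul_of_nonneg_right h5 (sq_nonneg (y - x))
        refine le_trans ?_ h6
        have h7 : -(Real.exp |y - x| * Gf om x) * (y - x) ^ 2 = -(Real.exp |y - x| * (y - x) ^ 2 * Gf om x) := by ring
        rw [h7]
        linarith
    linarith

end Pool.Agent.Helper96.CM
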