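import Pool.Agent.Helper96.CM.Theta
import Pool.Agent.Helper96.CM.Gf

/-!
# Project CM (MP_a499ba_nt). CM8a: change of the tilt
-/

set_option autoImplicit false

namespace Pool.Agent.Helper96.CM

open Finset Pool.Agent.Helper5.RM Pool.Agent.Helper96.AF

/-- one factor -/
private lemma fac17 {g y : ℝ} (hg : 0 < g) (hg1 : g ≤ 1 / 2) (hy : |y| ≤ 1 / 2) :
    (1 + (1 - g) * y) * Real.exp (g * y - g * (1 - g) * y ^ 2 - (2 * g * |y| ^ 3 + 8 * g ^ 2 * y ^ 2)) ≤ 1 + y := by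
  obtain ⟨hy1, hy2⟩ := abs_le.1 hy
  have hy0 := abs_nonneg y
  obtain ⟨v, hv⟩ : ∃ v, v = (1 - g) * y := ⟨_, rfl⟩
  have hvy : |v| ≤ |y| := by
    rw [hv, abs_mul, abs_of_nonneg (by linarith)]
    nlinarith
  have hv1 : |v| ≤ 1 / 2 := hvy.trans hy
  obtain ⟨hv2, hv3⟩ := abs_le.1 hv1
  obtain ⟨d, hd⟩ : ∃ d, d = 1 + v := ⟨_, rfl⟩
  have hd0 : 1 / 2 ≤ d := by rw [hd]; linarith
  have hdp : 0 < d := by linarith
  have hdinv : 1 / d ≤ 2 := by
    rw [div_le_iff₀ hdp]
    linarith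
  obtain ⟨u, hu⟩ : ∃ u, u = g * y / d := ⟨_, rfl⟩
  have hu1 : |u| ≤ 2 * g * |y| := by
    rw [hu, abs_div, abs_mul, abs_of_pos hg, abs_of_pos hdp, div_le_iff₀ hdp]
    have : 0 ≤ g * |y| := by positivity
    nlinarith
  have hu2 : |u| ≤ 1 / 2 := by
    refine hu1.trans ?_
    nlinarith
  obtain ⟨hu3, hu4⟩ := abs_le.1 hu2
  have hup : 0 < 1 + u := by linarith
  have husq : u ^ 2 ≤ 4 * g ^ 2 * y ^ 2 := by
    have h1 := pow_le_pow_left₀ (abs_nonneg u) hu1 2
    rw [sq_abs] at h1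
    refine h1.trans (le_of_eq ?_)
    rw [mul_pow, mul_pow, sq_abs]
    ring
  have hlog : u - 2 * u ^ 2 ≤ Real.log (1 + u) := by
    have h1 := Real.one_sub_inv_le_log_of_pos hup
    refine le_trans ?_ h1
    have h2 : 1 - (1 + u)⁻¹ = u - u ^ 2 / (1 + u) := by
      field_simp
      ring
    rw [h2]
    have h3 : u ^ 2 / (1 + u) ≤ 2 * u ^ 2 := by
      rw [div_le_iff₀ hup]
      nlinarith [sq_nonneg u]
    linarith
  have he1 : u = g * y - g * (1 - g) * y ^ 2 + g * y * v ^ 2 / d := by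
    have h1 : g * (1 - g) * y ^ 2 = g * y * v := by rw [hv]; ring
    rw [h1, hu, hd]
    have h2 : (1 : ℝ) + v ≠ 0 := by linarith
    field_simp
    ring
  have he2 : -(2 * g * |y| ^ 3) ≤ g * y * v ^ 2 / d := by
    have h1 : |g * y * v ^ 2 / d| ≤ 2 * g * |y| ^ 3 := by
      rw [abs_div, abs_mul, abs_mul, abs_of_pos hg, abs_of_pos hdp, div_le_iff₀ hdp, abs_pow]
      have h2 : |v| ^ 2 ≤ |y| ^ 2 := pow_le_pow_left₀ (abs_nonneg v) hvy 2
      have h3 : g * |y| * |v| ^ 2 ≤ g * |y| * |y| ^ 2 := mul_le_mul_of_nonneg_left h2 (by positivity)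
      have h4 : g * |y| * |y| ^ 2 = g * |y| ^ 3 := by ring
      have h5 : 0 ≤ g * |y| ^ 3 := by positivity
      nlinarith
    exact (abs_le.1 h1).1
  have h1 : 1 + y = d * (1 + u) := by
    have h3 : d * u = g * y := by
      rw [hu]
      field_simp
    rw [mul_add, mul_one, h3, hd, hv]
    ring
  have h2 : 1 + (1 - g) * y = d := by rw [hd, hv]
  rw [h1, h2]
  apply mul_le_mul_of_nonneg_left _ hdp.le
  rw [← Real.le_log_iff_exp_le hup]
  refine le_trans ?_ hlog
  linarith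

theorem convert_det (a b : ℝ) (ha : 0 < a) (hab : a < b) (hb : b ≤ 1) : ∃ C : ℝ, 0 < C ∧ ∀ (c : ℕ → ℝ)
    (gam om om1 mu : ℝ) (s m : ℕ), Adm c → 0 < gam → gam ≤ 1 / 2 → 0 < om → om ≤ om1 → om1 ≤ 1 / 4 → 0 ≤ mu →
    2 ≤ s → s ≤ m → gam ^ 2 * ((m : ℝ) - s) ≤ 1 → ∀ T : Finset ℕ,
    om / om1 / C * (FF c (fun _ => 1 - gam) (1 - gam) om1 a b (fun _ => 1) (WB s m) T -
        Real.exp (-(mu / gam)) * ∫ t in a..b, RR c (1 - gam) (WB s m) T t *
          Real.exp (mu * XX c (fun _ => 1 - gam) (WB s m) T t)) ≤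
      FF c (fun _ => 1 - gam) 1 om a b (fun _ => 1) (WB s m) T := by
  obtain ⟨C2, hC2, h2⟩ := theta_up a ha
  obtain ⟨C3, hC3, h3⟩ := cube_sum
  have hlog2 : 0 < Real.log 2 := Real.log_pos (by norm_num)
  obtain ⟨D, hD⟩ : ∃ D, D = C3 + 16 * Real.log 2 + 2 * C2 := ⟨_, rfl⟩
  refine ⟨Real.exp 1 * Real.exp D, by positivity, ?_⟩
  intro c gam om om1 mu s m hc hg hg1 hom hom1 hom4 hmu hs hsm hgm T
  have hom10 : 0 < om1 := lt_of_lt_of_le hom hom1
  obtain ⟨S, hS⟩ : ∃ S, S = WB s m := ⟨_, rfl⟩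
  rw [← hS]
  have hS16 : ∀ p ∈ S, 16 ≤ p := by
    intro p hp
    rw [hS, mem_WB] at hp
    exact sixteen_le_of hs hp.2.1
  have hS2 : ∀ p ∈ S, 2 ≤ p := fun p hp => by have := hS16 p hp; omega
  -- the two densities
  have key : ∀ t ∈ Set.Icc a 1, RR c (1 - gam) S T t * Real.exp (-(gam * XX c (fun _ => 1 - gam) S T t)) * Real.exp (-D) ≤
      RR c 1 S T t := by
    intro t ht
    have h4 : ∏ p ∈ S, ((1 + (1 - gam) * (sg T p * tc c p t)) * Real.exp (gam * (sg T p * tc c p t) -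
        gam * (1 - gam) * (sg T p * tc c p t) ^ 2 - (2 * gam * |sg T p * tc c p t| ^ 3 + 8 * gam ^ 2 * (sg T p * tc c p t) ^ 2))) ≤
        ∏ p ∈ S, (1 + sg T p * tc c p t) := by
      apply Finset.prod_le_prod
      · intro p hp
        have h5 : |sg T p * tc c p t| ≤ 1 / 2 := by
          rw [abs_mul, abs_sg, one_mul]
          exact abs_tc_le_half hc (hS16 p hp) t
        have h6 := abs_le.1 h5
        apply mul_nonneg _ (Real.exp_pos _).le
        nlinarith [h6.1, h6.2]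
      · intro p hp
        apply fac17 hg hg1
        rw [abs_mul, abs_sg, one_mul]
        exact abs_tc_le_half hc (hS16 p hp) t
    rw [Finset.prod_mul_distrib, ← Real.exp_sum, Finset.sum_sub_distrib, Finset.sum_sub_distrib] at h4
    have hy2 : ∀ p, (sg T p * tc c p t) ^ 2 = tc c p t ^ 2 := by
      intro p
      rw [mul_pow, ← sq_abs (sg T p), abs_sg, one_pow, one_mul]
    have hy3 : ∀ p, |sg T p * tc c p t| ^ 3 = |tc c p t| ^ 3 := by
      intro p
      rw [abs_mul, abs_sg, one_mul]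
    have e1 : ∏ p ∈ S, (1 + (1 - gam) * (sg T p * tc c p t)) = RR c (1 - gam) S T t := by
      unfold RR
      exact Finset.prod_congr rfl fun p _ => by ring
    have e2 : ∏ p ∈ S, (1 + sg T p * tc c p t) = RR c 1 S T t := by
      unfold RR
      exact Finset.prod_congr rfl fun p _ => by ring
    have e3 : ∑ p ∈ S, gam * (sg T p * tc c p t) - ∑ p ∈ S, gam * (1 - gam) * (sg T p * tc c p t) ^ 2 =
        -(gam * XX c (fun _ => 1 - gam) S T t) := by
      unfold XX
      rw [← Finset.sum_sub_distrib, mul_neg, neg_neg, Finset.mul_sum]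
      refine Finset.sum_congr rfl fun p _ => ?_
      rw [hy2]
      ring
    have e4 : ∑ p ∈ S, (2 * gam * |sg T p * tc c p t| ^ 3 + 8 * gam ^ 2 * (sg T p * tc c p t) ^ 2) ≤ D := by
      rw [Finset.sum_add_distrib, ← Finset.mul_sum, ← Finset.mul_sum]
      simp only [hy2, hy3]
      have h5 := h3 c hc s m t
      have h6 := h2 c hc s m hsm t ht
      rw [← hS] at h5 h6
      have h7 : 2 * gam * ∑ p ∈ S, |tc c p t| ^ 3 ≤ 1 * C3 :=
        mul_le_mul (by linarith) h5 (Finset.sum_nonneg fun p _ => by positivity) zero_le_one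
      have h8 : 8 * gam ^ 2 * ∑ p ∈ S, tc c p t ^ 2 ≤ 8 * gam ^ 2 * (2 * Real.log 2 * ((m : ℝ) - s) + C2) :=
        mul_le_mul_of_nonneg_left h6 (by positivity)
      have h9 : 8 * gam ^ 2 * (2 * Real.log 2 * ((m : ℝ) - s) + C2) = 16 * Real.log 2 * (gam ^ 2 * ((m : ℝ) - s)) + 8 * gam ^ 2 * C2 := by
        ring
      have h10 : 16 * Real.log 2 * (gam ^ 2 * ((m : ℝ) - s)) ≤ 16 * Real.log 2 * 1 := mul_le_mul_of_nonneg_left hgm (by positivity)
      have h11 : 8 * gam ^ 2 * C2 ≤ 2 * C2 := by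
        apply mul_le_mul_of_nonneg_right _ hC2.le
        nlinarith
      linarith
    rw [e1, e2, e3] at h4
    refine le_trans ?_ h4
    rw [mul_assoc, ← Real.exp_add]
    apply mul_le_mul_of_nonneg_left _ (RR_pos hc (by linarith) (by linarith) hS2 T t).le
    apply Real.exp_le_exp.2
    linarith
  -- pointwise
  obtain ⟨A, hA⟩ : ∃ A : ℝ → ℝ, A = RR c (1 - gam) S T := ⟨_, rfl⟩
  obtain ⟨Z, hZ⟩ : ∃ Z : ℝ → ℝ, Z = XX c (fun _ => 1 - gam) S T := ⟨_, rfl⟩
  have hAc : Continuous A := by rw [hA]; exact continuous_RR _ _ _ _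
  have hZc : Continuous Z := by rw [hZ]; exact continuous_XX _ _ _ _
  have hpt : ∀ t ∈ Set.Icc a b, om / om1 / (Real.exp 1 * Real.exp D) * (1 * (A t * Gf om1 (Z t)) -
      Real.exp (-(mu / gam)) * (A t * Real.exp (mu * Z t))) ≤ 1 * (RR c 1 S T t * Gf om (Z t)) := by
    intro t ht
    have h4 := key t ⟨ht.1, ht.2.trans hb⟩
    have hA0 : 0 < A t := by rw [hA]; exact RR_pos hc (by linarith) (by linarith) hS2 T t
    have hAt : RR c (1 - gam) S T t = A t := by rw [hA]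
    have hZt : XX c (fun _ => 1 - gam) S T t = Z t := by rw [hZ]
    rw [hAt, hZt] at h4
    have hG0 : 0 < Gf om (Z t) := Gf_pos hom _
    have hG1 : 0 < Gf om1 (Z t) := Gf_pos hom10 _
    have hG2 : Gf om1 (Z t) ≤ 1 := Gf_le_one hom10.le _
    have hG3 : om / om1 * Gf om1 (Z t) ≤ Gf om (Z t) := Gf_scale hom hom1 _
    have h5 : Real.exp (-1) * (1 - Real.exp (mu * Z t - mu / gam)) ≤ Real.exp (-(gam * Z t)) := by
      rcases le_or_gt (gam * Z t) 1 with h6 | h6
      · have h7 : Real.exp (-1) ≤ Real.exp (-(gam * Z t)) := Real.exp_le_exp.2 (by linarith)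
        have h8 := Real.exp_pos (mu * Z t - mu / gam)
        have h9 := Real.exp_pos (-1)
        nlinarith [mul_pos h8 h9]
      · have h7 : 0 ≤ mu * Z t - mu / gam := by
          have h8 : 1 / gam ≤ Z t := by
            rw [div_le_iff₀ hg]
            linarith
          have h9 : mu / gam = mu * (1 / gam) := by ring
          rw [h9]
          nlinarith [mul_le_mul_of_nonneg_left h8 hmu]
        have h8 : 1 ≤ Real.exp (mu * Z t - mu / gam) := Real.one_le_exp h7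
        have h9 := Real.exp_pos (-1)
        have h10 := Real.exp_pos (-(gam * Z t))
        nlinarith [mul_nonneg h9.le (sub_nonneg.2 h8)]
    -- the chain
    have hr : 0 < om / om1 := div_pos hom hom10
    obtain ⟨ρ, hρ⟩ : ∃ ρ, ρ = om / om1 := ⟨_, rfl⟩
    rw [← hρ] at hG3 hr ⊢
    have hexp : Real.exp (mu * Z t - mu / gam) = Real.exp (-(mu / gam)) * Real.exp (mu * Z t) := by
      rw [← Real.exp_add]
      congr 1
      ring
    rw [hexp] at h5
    have hinv : (Real.exp 1 * Real.exp D)⁻¹ = Real.exp (-1) * Real.exp (-D) := by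
      rw [mul_inv, Real.exp_neg, Real.exp_neg]
    rw [div_eq_mul_inv ρ, hinv, one_mul, one_mul]
    obtain ⟨G, hG⟩ : ∃ G, G = Gf om1 (Z t) := ⟨_, rfl⟩
    obtain ⟨G', hG'⟩ : ∃ G', G' = Gf om (Z t) := ⟨_, rfl⟩
    obtain ⟨q, hq⟩ : ∃ q, q = Real.exp (-(mu / gam)) * Real.exp (mu * Z t) := ⟨_, rfl⟩
    have hq0 : 0 < q := by rw [hq]; positivity
    obtain ⟨x, hx⟩ : ∃ x, x = Real.exp (-(gam * Z t)) := ⟨_, rfl⟩
    obtain ⟨δ, hδ⟩ : ∃ δ, δ = Real.exp (-D) := ⟨_, rfl⟩
    have hδ0 : 0 < δ := by rw [hδ]; positivity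
    have hx0 : 0 < x := by rw [hx]; positivity
    rw [← hG] at hG1 hG2 hG3 ⊢
    rw [← hG'] at hG0 hG3 ⊢
    rw [← hq, ← hx] at h5
    rw [← hx, ← hδ] at h4
    rw [← hδ]
    have e1 : ρ * (Real.exp (-1) * δ) * (A t * G - Real.exp (-(mu / gam)) * (A t * Real.exp (mu * Z t))) =
        ρ * δ * A t * (Real.exp (-1) * (G - q)) := by
      rw [hq]
      ring
    rw [e1]
    have h6 : Real.exp (-1) * (G - q) ≤ x * G := by
      have h7 : Real.exp (-1) * (G - q) ≤ Real.exp (-1) * (G - q * G) := by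
        apply mul_le_mul_of_nonneg_left _ (Real.exp_pos _).le
        nlinarith
      have h8 : Real.exp (-1) * (G - q * G) = Real.exp (-1) * (1 - q) * G := by ring
      rw [h8] at h7
      exact h7.trans (mul_le_mul_of_nonneg_right h5 hG1.le)
    calc ρ * δ * A t * (Real.exp (-1) * (G - q)) ≤ ρ * δ * A t * (x * G) := mul_le_mul_of_nonneg_left h6 (by positivity)
      _ = A t * x * δ * (ρ * G) := by ring
      _ ≤ RR c 1 S T t * G' := mul_le_mul h4 hG3 (by positivity) (RR_pos hc zero_le_one le_rfl hS2 T t).le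
  -- integration
  unfold FF
  rw [← hA, ← hZ]
  have hGc1 : Continuous (Gf om1) := continuous_Gf hom10.le
  have hGc : Continuous (Gf om) := continuous_Gf hom.le
  have hc1 : Continuous fun t => (1 : ℝ) * (A t * Gf om1 (Z t)) := continuous_const.mul (hAc.mul (hGc1.comp hZc))
  have hc2 : Continuous fun t => A t * Real.exp (mu * Z t) := hAc.mul (Real.continuous_exp.comp (continuous_const.mul hZc))
  have hc3 : Continuous fun t => (1 : ℝ) * (RR c 1 S T t * Gf om (Z t)) :=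
    continuous_const.mul ((continuous_RR _ _ _ _).mul (hGc.comp hZc))
  have hc4 : Continuous fun t => Real.exp (-(mu / gam)) * (A t * Real.exp (mu * Z t)) := continuous_const.mul hc2
  have e1 : (∫ t in a..b, (fun _ => (1 : ℝ)) t * (A t * Gf om1 (Z t))) - Real.exp (-(mu / gam)) * ∫ t in a..b, A t * Real.exp (mu * Z t) =
      ∫ t in a..b, ((1 : ℝ) * (A t * Gf om1 (Z t)) - Real.exp (-(mu / gam)) * (A t * Real.exp (mu * Z t))) := by
    rw [intervalIntegral.integral_sub (hc1.intervalIntegrable _ _) (hc4.intervalIntegrable _ _),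
      intervalIntegral.integral_const_mul (Real.exp (-(mu / gam)))]
  rw [e1, ← intervalIntegral.integral_const_mul]
  apply intervalIntegral.integral_mono_on hab.le
  · exact (continuous_const.mul (hc1.sub (continuous_const.mul hc2))).intervalIntegrable _ _
  · exact hc3.intervalIntegrable _ _
  · exact hpt

end Pool.Agent.Helper96.CM
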