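import Pool.Agent.Helper96.CM.Defs

/-!
# Project CM (MP_a499ba_nt). The choice of the parameters
-/

set_option autoImplicit false

namespace Pool.Agent.Helper96.CM

open Filter

lemma ev_const (A : ℝ) {e : ℝ} (he : 0 < e) : ∀ᶠ x : ℝ in atTop, A ≤ x ^ e :=
  (tendsto_rpow_atTop he).eventually_ge_atTop A

lemma ev_logc (A : ℝ) : ∀ᶠ x : ℝ in atTop, A ≤ Real.log x := Real.tendsto_log_atTop.eventually_ge_atTop A

lemma ev_log (A : ℝ) {B e : ℝ} (hB : 0 < B) (he : 0 < e) : ∀ᶠ x : ℝ in atTop, A * Real.log x ≤ B * x ^ e := by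
  have h := (isLittleO_log_rpow_atTop he).def (c := B / (|A| + 1)) (by positivity)
  filter_upwards [h, eventually_ge_atTop 1] with x h1 hx
  have h2 : 0 ≤ Real.log x := Real.log_nonneg hx
  have h3 : 0 ≤ x ^ e := Real.rpow_nonneg (by linarith) _
  rw [Real.norm_of_nonneg h2, Real.norm_of_nonneg h3] at h1
  have h4 : (|A| + 1) * Real.log x ≤ B * x ^ e := by
    have := mul_le_mul_of_nonneg_left h1 (by positivity : 0 ≤ |A| + 1)
    refine this.trans (le_of_eq ?_)
    field_simp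
  have h5 : A * Real.log x ≤ (|A| + 1) * Real.log x :=
    mul_le_mul_of_nonneg_right (by linarith [le_abs_self A]) h2
  linarith

/-- `x ^ A ≤ exp y` if `A log x ≤ y` -/
lemma rpow_le_exp {x A y : ℝ} (hx : 0 < x) (h : A * Real.log x ≤ y) : x ^ A ≤ Real.exp y := by
  rw [Real.rpow_def_of_pos hx]
  exact Real.exp_le_exp.2 (by linarith)

/-- all the asymptotic inequalities -/
theorem params {al d c0 Cd Ca Cs C2 CL : ℝ} (hal : 0 < al) (hal1 : al ≤ 1) (hd : 0 < d) (hd1 : d ≤ 1 / 2)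
    (hc0 : 0 < c0) (hCd : 0 < Cd) (hCa : 0 < Ca) (hCs : 0 < Cs) (hC2 : 0 < C2) (hCL : 0 < CL) (hCLa : CL * al ≤ 1)
    (N0 q : ℕ) (hq : 16 ≤ d / 4 * q) :
    ∃ K0 : ℕ, ∀ K : ℕ, K0 ≤ K → ∃ (s n : ℕ) (gam om c1 : ℝ),
      2 ≤ s ∧ N0 ≤ n ∧ 4 ≤ n ∧ s + n ≤ K ∧ 1 ≤ K ∧ 0 < gam ∧ gam ≤ 1 / 2 ∧ gam ^ 2 * n ≤ 1 ∧ (n : ℝ) ^ 3 ≤ c0 * 2 ^ s ∧
      0 < om ∧ om ≤ 1 / n ∧ 0 < c1 ∧
      c1 + 2 ^ ((K : ℝ) / 32) / 2 ^ ((K : ℝ) / 16) ≤
        om / (1 / n) / Cd * (c0 / n - Real.exp (-(1 / Real.sqrt n / gam)) * (K : ℝ) ^ 4) ∧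
      C2 * (K * om ^ 2) ≤ 1 ∧
      C2 * ((K : ℝ) ^ 2 * Real.exp (-(2 * Real.log 2 * gam * n))) ≤ c1 ∧
      (K : ℝ) ^ (-(1 / 2) - d) ≤ (K : ℝ) ^ (-(d / 4)) * (c1 / 16 - 2 * ((K : ℝ) ^ (-(d / 4))) ^ q * (K : ℝ) ^ 4) ∧
      2 * n * Real.exp (-(c0 * Real.sqrt (2 ^ s / (n : ℝ) ^ 3))) ≤ 1 / (5 * (K : ℝ) ^ 2) ∧
      Real.exp (4 * (1 / Real.sqrt n) ^ 2 * (2 * Real.log 2 * n + Ca)) / (K : ℝ) ^ 4 ≤ 1 / (5 * (K : ℝ) ^ 2) ∧
      Cs * 16 ^ (s + n) / 2 ^ ((K : ℝ) / 32) ≤ 1 / (5 * (K : ℝ) ^ 2) ∧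
      4 ^ K * (2 * K * Real.exp (-(Real.sqrt (c1 / Real.exp (-(2 * Real.log 2 * gam * n))) / (C2 * K)))) ≤
        1 / (5 * (K : ℝ) ^ 2) ∧
      CL * Real.exp (CL * s) / (K : ℝ) ^ 4 ≤ 1 / (5 * (K : ℝ) ^ 2) := by
  have L0 : 0 < Real.log 2 := Real.log_pos (by norm_num)
  have L1 : Real.log 2 < 1 := by linarith [Real.log_two_lt_d9]
  have L2 : 1 / 2 < Real.log 2 := by linarith [Real.log_two_gt_d9]
  set L := Real.log 2 with hL
  set a1 := al * L / 4 with ha1
  have ha10 : 0 < a1 := by positivity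
  have ha11 : a1 ≤ 1 / 4 := by
    rw [ha1]
    nlinarith
  set c3 := c0 / (4 * Cd) with hc3
  have hc30 : 0 < c3 := by positivity
  have key : ∀ᶠ x : ℝ in atTop, 1 ≤ x ∧ 2 ≤ al * Real.log x ∧ (N0 : ℝ) + 4 ≤ x ^ a1 ∧
      8192 * Real.log x ≤ 1 * x ^ (1 : ℝ) ∧ (8192 : ℝ) ≤ x ^ (3 / 4 : ℝ) ∧
      10 * Real.log x ≤ L * x ^ a1 ∧ 5 * Real.log x ≤ L * x ^ (a1 / 2) ∧ 2 / c0 ≤ x ^ a1 ∧
      12 * Real.log x ≤ 1 * x ^ (a1 / 4) ∧ Real.log (2 / c0) ≤ Real.log x ∧
      3 * Real.log x ≤ (L / 64) * x ^ (1 : ℝ) ∧ C2 ≤ x ^ d ∧ C2 / c3 ≤ x ^ (2 : ℝ) ∧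
      64 / c3 ≤ x ^ (11 : ℝ) ∧ 32 / c3 ≤ x ^ (d / 4) ∧ 4 * Real.log x ≤ (c0 / 2) * x ^ (a1 / 2) ∧
      Real.log 10 ≤ Real.log x ∧ 5 * Real.exp (8 + 4 * Ca) ≤ x ^ (2 : ℝ) ∧
      Real.log (5 * Cs) ≤ Real.log x ∧ 10 * C2 / Real.sqrt c3 ≤ x ^ (1 / 8 : ℝ) ∧ 5 * CL ≤ x ^ (1 : ℝ) ∧
      Real.log (1 / c3) ≤ Real.log x ∧ 3 * Real.log x ≤ (L / 32) * x ^ (1 : ℝ) := by
    filter_upwards [eventually_ge_atTop 1, (ev_logc (2 / al)), ev_const ((N0 : ℝ) + 4) ha10,
      ev_log 8192 one_pos one_pos, ev_const 8192 (e := 3 / 4) (by norm_num), ev_log 10 L0 ha10,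
      ev_log 5 L0 (by positivity : 0 < a1 / 2), ev_const (2 / c0) ha10, ev_log 12 one_pos (by positivity : 0 < a1 / 4),
      ev_logc (Real.log (2 / c0)), ev_log 3 (by positivity : 0 < L / 64) one_pos, ev_const C2 hd,
      ev_const (C2 / c3) two_pos, ev_const (64 / c3) (e := 11) (by norm_num), ev_const (32 / c3) (by positivity : 0 < d / 4),
      ev_log 4 (by positivity : 0 < c0 / 2) (by positivity : 0 < a1 / 2), ev_logc (Real.log 10),
      ev_const (5 * Real.exp (8 + 4 * Ca)) two_pos, ev_logc (Real.log (5 * Cs)),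
      ev_const (10 * C2 / Real.sqrt c3) (e := 1 / 8) (by norm_num), ev_const (5 * CL) one_pos,
      ev_logc (Real.log (1 / c3)), ev_log 3 (by positivity : 0 < L / 32) one_pos]
      with x h1 h2 h3 h4 h5 h6 h7 h8 h9 h10 h11 h12 h13 h14 h15 h16 h17 h18 h19 h20 h21 h22 h23
    refine ⟨h1, ?_, h3, h4, h5, h6, h7, h8, h9, h10, h11, h12, h13, h14, h15, h16, h17, h18, h19, h20, h21, h22, h23⟩
    rw [div_le_iff₀ hal] at h2
    linarith
  obtain ⟨K0, hK0⟩ := eventually_atTop.1 (tendsto_natCast_atTop_atTop.eventually key)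
  refine ⟨K0, fun K hK => ?_⟩
  obtain ⟨h1, h2, h3, h4, h5, h6, h7, h8, h9, h10, h11, h12, h13, h14, h15, h16, h17, h18, h19, h20, h21, h22, h23⟩ := hK0 K hK
  rw [Real.rpow_one] at h4 h11 h21 h23
  rw [Real.rpow_two] at h13 h18
  rw [show (11 : ℝ) = ((11 : ℕ) : ℝ) by norm_num, Real.rpow_natCast] at h14
  have K1 : 1 ≤ K := by exact_mod_cast h1
  set x : ℝ := (K : ℝ) with hx
  have hx0 : 0 < x := lt_of_lt_of_le one_pos h1
  set l := Real.log x with hl
  have hl0 : 0 ≤ l := Real.log_nonneg h1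
  set s := ⌊al * l⌋₊ with hs
  set n := ⌊x ^ a1⌋₊ with hn
  have hxa : 0 < x ^ a1 := Real.rpow_pos_of_pos hx0 _
  have hN0 : (0 : ℝ) ≤ N0 := Nat.cast_nonneg _
  have n1 : (n : ℝ) ≤ x ^ a1 := Nat.floor_le hxa.le
  have n2 : x ^ a1 / 2 ≤ n := by
    have := Nat.lt_floor_add_one (x ^ a1)
    rw [← hn] at this
    linarith only [this, h3, hN0]
  have n4 : 4 ≤ n := Nat.le_floor (by push_cast; linarith only [h3, hN0])
  have n4' : (4 : ℝ) ≤ n := by exact_mod_cast n4
  have n0 : (0 : ℝ) < n := by linarith only [n4']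
  have nN : N0 ≤ n := Nat.le_floor (by linarith only [h3, hN0])
  have s2 : 2 ≤ s := Nat.le_floor (by push_cast; linarith only [h2])
  have s1 : (s : ℝ) ≤ al * l := Nat.floor_le (by positivity)
  have s3 : al * l ≤ s + 1 := (Nat.lt_floor_add_one _).le
  have sl : (s : ℝ) ≤ l := s1.trans (mul_le_of_le_one_left hl0 hal1)
  have xa : x ^ a1 ≤ x ^ (1 / 4 : ℝ) := Real.rpow_le_rpow_of_exponent_le h1 ha11
  have x34 : 8192 * x ^ (1 / 4 : ℝ) ≤ x := by
    have e1 : x = x ^ (3 / 4 : ℝ) * x ^ (1 / 4 : ℝ) := by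
      rw [← Real.rpow_add hx0]; norm_num
    have := mul_le_mul_of_nonneg_right h5 (Real.rpow_nonneg hx0.le (1 / 4))
    linarith only [this, e1]
  have hm : (s : ℝ) + n ≤ x / 4096 := by linarith only [h4, x34, xa, n1, sl]
  have hm' : s + n ≤ K := by
    have : ((s + n : ℕ) : ℝ) ≤ K := by push_cast; linarith only [hm, hx0, hx]
    exact_mod_cast this
  -- the power of two
  have p2 : x ^ (4 * a1) / 2 ≤ 2 ^ s := by
    have e1 : x ^ (4 * a1) = Real.exp (L * (al * l)) := by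
      rw [Real.rpow_def_of_pos hx0]
      congr 1
      rw [ha1]
      ring
    have e2 : (2 : ℝ) ^ s = Real.exp (L * s) := by
      rw [mul_comm, Real.exp_nat_mul, hL, Real.exp_log (by norm_num)]
    have e3 : Real.exp (L * (al * l)) ≤ Real.exp (L * s) * Real.exp L := by
      rw [← Real.exp_add]
      refine Real.exp_le_exp.2 ?_
      have := mul_le_mul_of_nonneg_left s3 L0.le
      linarith only [this]
    have e4 : Real.exp L = 2 := by rw [hL, Real.exp_log (by norm_num)]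
    rw [e1, e2]
    rw [e4] at e3
    linarith only [e3]
  have x4a : x ^ (4 * a1) = (x ^ a1) ^ 4 := by
    rw [← Real.rpow_natCast (x ^ a1) 4, ← Real.rpow_mul hx0.le]
    congr 1
    push_cast
    ring
  set gam := 5 * l / (2 * L * n) with hgam
  have l2 : 2 ≤ l := h2.trans (mul_le_of_le_one_left hl0 hal1)
  have l0 : 0 < l := by linarith only [l2]
  have g0 : 0 < gam := by positivity
  have g1 : gam ≤ 1 / 2 := by
    rw [hgam, div_le_div_iff₀ (by positivity) (by norm_num)]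
    have : L * (x ^ a1 / 2) ≤ L * n := mul_le_mul_of_nonneg_left n2 L0.le
    linarith only [this, h6]
  have hgn : 2 * L * gam * n = 5 * l := by
    rw [hgam]
    field_simp
  have xa2 : x ^ a1 = (x ^ (a1 / 2)) ^ 2 := by
    rw [← Real.rpow_natCast, ← Real.rpow_mul hx0.le]
    congr 1
    push_cast
    ring
  have xa4 : x ^ (a1 / 2) = (x ^ (a1 / 4)) ^ 2 := by
    rw [← Real.rpow_natCast, ← Real.rpow_mul hx0.le]
    congr 1
    push_cast
    ring
  have g2 : gam ^ 2 * n ≤ 1 := by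
    have e1 : gam ^ 2 * n = (5 * l) ^ 2 / (4 * L ^ 2 * n) := by
      rw [hgam]
      field_simp
      ring
    rw [e1, div_le_one (by positivity)]
    have e2 : (5 * l) ^ 2 ≤ (L * x ^ (a1 / 2)) ^ 2 := pow_le_pow_left₀ (by positivity) h7 2
    rw [mul_pow L, ← xa2] at e2
    have e3 := mul_le_mul_of_nonneg_left n2 (by positivity : 0 ≤ 4 * L ^ 2)
    have e4 : 0 ≤ L ^ 2 * x ^ a1 := by positivity
    linarith only [e2, e3, e4]
  have n3 : (n : ℝ) ^ 3 ≤ c0 * 2 ^ s := by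
    have e1 : (n : ℝ) ^ 3 ≤ (x ^ a1) ^ 3 := pow_le_pow_left₀ n0.le n1 3
    have e2 : c0 * ((x ^ a1) ^ 4 / 2) ≤ c0 * 2 ^ s := by
      rw [x4a] at p2
      exact mul_le_mul_of_nonneg_left p2 hc0.le
    have e3 : (x ^ a1) ^ 3 ≤ c0 * ((x ^ a1) ^ 4 / 2) := by
      rw [div_le_iff₀ hc0] at h8
      have : 0 < (x ^ a1) ^ 3 := by positivity
      nlinarith only [this, h8]
    linarith only [e1, e2, e3]
  set om := x ^ (-(1 / 2) - d / 2) with hom
  have om0 : 0 < om := Real.rpow_pos_of_pos hx0 _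
  have om1 : om ≤ 1 / n := by
    rw [le_div_iff₀ n0]
    have e1 : om * n ≤ x ^ (-(1 / 2) - d / 2) * x ^ a1 := mul_le_mul_of_nonneg_left n1 om0.le
    rw [← Real.rpow_add hx0] at e1
    refine e1.trans (Real.rpow_le_one_of_one_le_of_nonpos h1 ?_)
    linarith only [ha11, hd]
  have hsn : 0 < Real.sqrt n := Real.sqrt_pos.2 n0
  have hsn2 : Real.sqrt n ^ 2 = n := Real.sq_sqrt n0.le
  -- the exponential moment
  have hx4 : x ^ 4 = Real.exp (4 * l) := by
    rw [hl, show (4 : ℝ) * Real.log x = ((4 : ℕ) : ℝ) * Real.log x by norm_num, Real.exp_nat_mul, Real.exp_log hx0]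
  have hx1 : Real.exp l = x := Real.exp_log hx0
  have mg : 6 * l ≤ 1 / Real.sqrt n / gam := by
    have e1 : 1 / Real.sqrt n / gam = 2 * L * Real.sqrt n / (5 * l) := by
      rw [hgam]
      field_simp
      rw [hsn2]
    rw [e1, le_div_iff₀ (by positivity)]
    have e2 : (12 * l) ^ 2 ≤ x ^ (a1 / 2) := by
      rw [xa4]
      rw [one_mul] at h9
      exact pow_le_pow_left₀ (by positivity) h9 2
    have e3 : x ^ (a1 / 2) / 2 ≤ Real.sqrt n := by
      refine Real.le_sqrt_of_sq_le ?_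
      rw [div_pow, ← xa2]
      linarith only [n2, hxa]
    have e4 : (1 / 2) * Real.sqrt n ≤ L * Real.sqrt n := mul_le_mul_of_nonneg_right L2.le hsn.le
    nlinarith only [e2, e3, e4, hsn, sq_nonneg l]
  have a9 : Real.exp (-(1 / Real.sqrt n / gam)) * x ^ 4 ≤ c0 / (2 * n) := by
    have e1 : Real.exp (-(1 / Real.sqrt n / gam)) * x ^ 4 ≤ Real.exp (-(2 * l)) := by
      rw [hx4, ← Real.exp_add]
      exact Real.exp_le_exp.2 (by linarith only [mg])
    have e2 : Real.exp (-(2 * l)) ≤ c0 / 2 * Real.exp (-l) := by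
      have e3 : Real.exp (-(2 * l)) = Real.exp (-l) * Real.exp (-l) := by rw [← Real.exp_add]; ring_nf
      have e4 : Real.exp (-l) ≤ c0 / 2 := by
        rw [Real.exp_neg, hx1]
        have e5 : 2 / c0 ≤ x := by
          have := Real.exp_le_exp.2 h10
          rwa [Real.exp_log (by positivity), hx1] at this
        rw [inv_le_comm₀ hx0 (by positivity)]
        rwa [inv_div]
      rw [e3]
      exact mul_le_mul_of_nonneg_right e4 (Real.exp_pos _).le
    have e6 : c0 / 2 * Real.exp (-l) ≤ c0 / (2 * n) := by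
      rw [Real.exp_neg, hx1, ← div_eq_mul_inv, div_div]
      refine div_le_div_of_nonneg_left hc0.le (by positivity) ?_
      have : (n : ℝ) ≤ x := by
        have h9' := Real.rpow_nonneg hx0.le (1 / 4)
        linarith only [h9', x34, n1, xa]
      linarith only [this]
    linarith only [e1, e2, e6]
  set c1 := om * c3 with hc1
  have c10 : 0 < c1 := by positivity
  have hr2 : (2 : ℝ) ^ (x / 32) / 2 ^ (x / 16) = Real.exp (-(L / 32 * x)) := by
    rw [← Real.rpow_sub (by norm_num), Real.rpow_def_of_pos (by norm_num)]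
    congr 1
    rw [← hL]
    ring
  have a10 : (2 : ℝ) ^ (x / 32) / 2 ^ (x / 16) ≤ c1 := by
    rw [hr2]
    have e1 : Real.exp (-(L / 32 * x)) ≤ Real.exp (-(3 * l)) := Real.exp_le_exp.2 (by linarith only [h23])
    have e2 : Real.exp (-(3 * l)) = Real.exp (-l) * Real.exp (-(2 * l)) := by rw [← Real.exp_add]; ring_nf
    have e3 : Real.exp (-l) ≤ c3 := by
      rw [Real.exp_neg, hx1]
      have e5 : 1 / c3 ≤ x := by
        have := Real.exp_le_exp.2 h22
        rwa [Real.exp_log (by positivity), hx1] at this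
      rw [inv_le_comm₀ hx0 hc30]
      rwa [← one_div]
    have e4 : Real.exp (-(2 * l)) ≤ om := by
      rw [hom, Real.rpow_def_of_pos hx0]
      refine Real.exp_le_exp.2 ?_
      rw [← hl]
      have := mul_nonneg hl0 (by linarith only [hd1] : 0 ≤ 3 / 2 - d / 2)
      linarith only [this]
    rw [e2] at e1
    refine e1.trans ?_
    rw [hc1, mul_comm om]
    exact mul_le_mul e3 e4 (Real.exp_pos _).le hc30.le
  have hxE : Real.exp (-(5 * l)) = x ^ (-5 : ℝ) := by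
    rw [Real.rpow_def_of_pos hx0]
    congr 1
    rw [← hl]
    ring
  refine ⟨s, n, gam, om, c1, s2, nN, n4, hm', K1, g0, g1, g2, n3, om0, om1, c10, ?_, ?_, ?_, ?_, ?_, ?_, ?_, ?_, ?_⟩
  · -- the start of stage 2
    have e1 : om / (1 / (n : ℝ)) / Cd * (c0 / (2 * n)) = 2 * c1 := by
      rw [hc1, hc3]
      field_simp
      ring
    have e2 : om / (1 / (n : ℝ)) / Cd * (c0 / (2 * n)) ≤
        om / (1 / (n : ℝ)) / Cd * (c0 / n - Real.exp (-(1 / Real.sqrt n / gam)) * x ^ 4) := by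
      refine mul_le_mul_of_nonneg_left ?_ (by positivity)
      have e3 : c0 / (n : ℝ) = c0 / (2 * n) + c0 / (2 * n) := by
        field_simp
        ring
      linarith only [e3, a9]
    linarith only [e1, e2, a10]
  · -- C2 K om^2
    have e1 : x * om ^ 2 = x ^ (-d) := by
      rw [hom, ← Real.rpow_natCast, ← Real.rpow_mul hx0.le]
      nth_rewrite 1 [← Real.rpow_one x]
      rw [← Real.rpow_add hx0]
      congr 1
      push_cast
      ring
    rw [e1, Real.rpow_neg hx0.le, ← div_eq_mul_inv, div_le_one (Real.rpow_pos_of_pos hx0 _)]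
    exact h12
  · rw [hgn, hxE, hc1, hom]
    have e1 : x ^ 2 * x ^ (-5 : ℝ) = x ^ (-2 : ℝ) * x ^ (-1 : ℝ) := by
      rw [← Real.rpow_natCast, ← Real.rpow_add hx0, ← Real.rpow_add hx0]
      norm_num
    have e2 : C2 * x ^ (-2 : ℝ) ≤ c3 := by
      rw [Real.rpow_neg hx0.le, Real.rpow_two, ← div_eq_mul_inv, div_le_iff₀ (by positivity)]
      rw [div_le_iff₀ hc30] at h13
      rw [mul_comm]
      exact h13
    have e3 : x ^ (-1 : ℝ) ≤ x ^ (-(1 / 2) - d / 2) := Real.rpow_le_rpow_of_exponent_le h1 (by linarith only [hd1])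
    have e4 : 0 < x ^ (-1 : ℝ) := Real.rpow_pos_of_pos hx0 _
    calc C2 * (x ^ 2 * x ^ (-5 : ℝ)) = (C2 * x ^ (-2 : ℝ)) * x ^ (-1 : ℝ) := by rw [e1]; ring
      _ ≤ c3 * x ^ (-(1 / 2) - d / 2) := mul_le_mul e2 e3 e4.le hc30.le
      _ = x ^ (-(1 / 2) - d / 2) * c3 := mul_comm _ _
  · -- the final bound
    have e1 : (x ^ (-(d / 4))) ^ q ≤ x ^ (-16 : ℝ) := by
      rw [← Real.rpow_natCast, ← Real.rpow_mul hx0.le]
      exact Real.rpow_le_rpow_of_exponent_le h1 (by linarith only [hq])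
    have e2 : (x ^ (-(d / 4))) ^ q * x ^ 4 ≤ x ^ (-12 : ℝ) := by
      refine (mul_le_mul_of_nonneg_right e1 (by positivity)).trans (le_of_eq ?_)
      rw [← Real.rpow_natCast, ← Real.rpow_add hx0]
      norm_num
    have e3 : 2 * x ^ (-12 : ℝ) ≤ c1 / 32 := by
      have e4 : x ^ (-12 : ℝ) = x ^ (-11 : ℝ) * x ^ (-1 : ℝ) := by
        rw [← Real.rpow_add hx0]; norm_num
      have e5 : x ^ (-1 : ℝ) ≤ om := Real.rpow_le_rpow_of_exponent_le h1 (by linarith only [hd1])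
      have e6 : x ^ (-11 : ℝ) ≤ c3 / 64 := by
        rw [Real.rpow_neg hx0.le, inv_le_comm₀ (Real.rpow_pos_of_pos hx0 _) (by positivity), inv_div,
          show (11 : ℝ) = ((11 : ℕ) : ℝ) by norm_num, Real.rpow_natCast]
        exact h14
      have e7 : x ^ (-11 : ℝ) * x ^ (-1 : ℝ) ≤ c3 / 64 * om :=
        mul_le_mul e6 e5 (Real.rpow_pos_of_pos hx0 _).le (by positivity)
      rw [e4, hc1]
      linarith only [e7]
    have e8 : c1 / 32 ≤ c1 / 16 - 2 * (x ^ (-(d / 4))) ^ q * x ^ 4 := by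
      have : 2 * (x ^ (-(d / 4))) ^ q * x ^ 4 = 2 * ((x ^ (-(d / 4))) ^ q * x ^ 4) := by ring
      rw [this]
      linarith only [e2, e3]
    have e9 : x ^ (-(1 / 2) - d) ≤ x ^ (-(d / 4)) * (c1 / 32) := by
      have e10 : x ^ (-(d / 4)) * (c1 / 32) = c3 / 32 * (x ^ (d / 4) * x ^ (-(1 / 2) - d)) := by
        rw [hc1, hom, ← Real.rpow_add hx0]
        have : x ^ (d / 4 + (-(1 / 2) - d)) = x ^ (-(d / 4)) * x ^ (-(1 / 2) - d / 2) := by
          rw [← Real.rpow_add hx0]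
          congr 1
          ring
        rw [this]
        ring
      rw [e10]
      rw [div_le_iff₀ hc30] at h15
      have e11 : 0 < x ^ (-(1 / 2) - d) := Real.rpow_pos_of_pos hx0 _
      have e12 : 1 ≤ c3 / 32 * x ^ (d / 4) := by linarith only [h15]
      nlinarith only [e11, e12]
    exact e9.trans (mul_le_mul_of_nonneg_left e8 (Real.rpow_nonneg hx0.le _))
  · -- p1
    have e1 : x ^ (a1 / 2) / 2 ≤ Real.sqrt (2 ^ s / (n : ℝ) ^ 3) := by
      refine Real.le_sqrt_of_sq_le ?_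
      rw [div_pow, ← xa2, le_div_iff₀ (by positivity)]
      have e2 : (n : ℝ) ^ 3 ≤ (x ^ a1) ^ 3 := pow_le_pow_left₀ n0.le n1 3
      rw [x4a] at p2
      have e3 : x ^ a1 / 2 ^ 2 * (n : ℝ) ^ 3 ≤ x ^ a1 / 2 ^ 2 * (x ^ a1) ^ 3 :=
        mul_le_mul_of_nonneg_left e2 (by positivity)
      have e4 : x ^ a1 / 2 ^ 2 * (x ^ a1) ^ 3 = (x ^ a1) ^ 4 / 4 := by ring
      rw [e4] at e3
      linarith only [e3, p2, pow_pos hxa 4]
    have e4 : Real.exp (-(c0 * Real.sqrt (2 ^ s / (n : ℝ) ^ 3))) ≤ Real.exp (-(4 * l)) := by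
      refine Real.exp_le_exp.2 ?_
      have := mul_le_mul_of_nonneg_left e1 hc0.le
      linarith only [this, h16]
    have e5 : Real.exp (-(4 * l)) = 1 / x ^ 4 := by rw [Real.exp_neg, ← hx4, one_div]
    have hnx : (n : ℝ) ≤ x := by linarith only [x34, n1, xa, Real.rpow_nonneg hx0.le (1 / 4)]
    have e10 : (10 : ℝ) ≤ x := by
      have := Real.exp_le_exp.2 h17
      rwa [Real.exp_log (by positivity), hx1] at this
    rw [e5] at e4
    calc 2 * n * Real.exp (-(c0 * Real.sqrt (2 ^ s / (n : ℝ) ^ 3))) ≤ 2 * x * (1 / x ^ 4) := by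
          refine mul_le_mul (by linarith only [hnx]) e4 (Real.exp_pos _).le (by positivity)
      _ ≤ 1 / (5 * x ^ 2) := by
          rw [mul_one_div, div_le_div_iff₀ (by positivity) (by positivity)]
          have : 0 < x ^ 3 := by positivity
          nlinarith only [this, e10]
  · -- p2
    have e1 : 4 * (1 / Real.sqrt n) ^ 2 * (2 * L * n + Ca) ≤ 8 + 4 * Ca := by
      rw [div_pow, hsn2, one_pow]
      have e2 : 4 * (1 / (n : ℝ)) * (2 * L * n + Ca) = 8 * L + 4 * Ca / n := by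
        field_simp
        ring
      rw [e2]
      have e3 : 4 * Ca / n ≤ 4 * Ca := div_le_self (by positivity) (by linarith only [n4'])
      linarith only [e3, L1]
    have e4 := Real.exp_le_exp.2 e1
    rw [div_le_div_iff₀ (by positivity) (by positivity)]
    have e5 : 0 < x ^ 2 := by positivity
    have e6 := mul_le_mul_of_nonneg_right (h18.trans' (mul_le_mul_of_nonneg_left e4 (by norm_num))) e5.le
    linarith only [e6]
  · -- p3
    have e1 : (16 : ℝ) ^ (s + n) ≤ Real.exp (L / 64 * x) := by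
      have e2 : (16 : ℝ) ^ (s + n) = Real.exp (((s + n : ℕ) : ℝ) * (4 * L)) := by
        rw [Real.exp_nat_mul, show (4 : ℝ) * L = ((4 : ℕ) : ℝ) * L by norm_num, Real.exp_nat_mul, hL,
          Real.exp_log (by norm_num)]
        norm_num
      rw [e2]
      refine Real.exp_le_exp.2 ?_
      push_cast
      have := mul_le_mul_of_nonneg_right hm (by positivity : 0 ≤ 4 * L)
      have h5 : 0 ≤ L * x := by positivity
      linarith only [this, h5]
    have e3 : (2 : ℝ) ^ (x / 32) = Real.exp (L / 32 * x) := by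
      rw [Real.rpow_def_of_pos (by norm_num)]
      congr 1
      rw [← hL]
      ring
    rw [e3]
    have e4 : Cs * 16 ^ (s + n) / Real.exp (L / 32 * x) ≤ Cs * Real.exp (-(L / 64 * x)) := by
      rw [div_le_iff₀ (Real.exp_pos _), mul_assoc, ← Real.exp_add]
      refine mul_le_mul_of_nonneg_left (e1.trans (Real.exp_le_exp.2 ?_)) hCs.le
      linarith only
    refine e4.trans ?_
    have e5 : Real.exp (-(L / 64 * x)) ≤ Real.exp (-(3 * l)) := Real.exp_le_exp.2 (by linarith only [h11])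
    have e6 : Real.exp (-(3 * l)) = 1 / (x * x ^ 2) := by
      rw [Real.exp_neg, show (3 : ℝ) * l = ((3 : ℕ) : ℝ) * l by norm_num, Real.exp_nat_mul, hx1, one_div]
      congr 1
      ring
    have e7 : 5 * Cs ≤ x := by
      have := Real.exp_le_exp.2 h19
      rwa [Real.exp_log (by positivity), hx1] at this
    rw [e6] at e5
    refine (mul_le_mul_of_nonneg_left e5 hCs.le).trans ?_
    rw [mul_one_div, div_le_div_iff₀ (by positivity) (by positivity)]
    have : 0 < x ^ 2 := by positivity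
    nlinarith only [this, e7]
  · -- p4
    have hc3s : 0 < Real.sqrt c3 := Real.sqrt_pos.2 hc30
    have e1 : Real.sqrt c3 * x ^ (17 / 8 : ℝ) ≤ Real.sqrt (c1 / Real.exp (-(2 * L * gam * n))) := by
      refine Real.le_sqrt_of_sq_le ?_
      rw [hgn, mul_pow, Real.sq_sqrt hc30.le, le_div_iff₀ (Real.exp_pos _), hxE, hc1, hom]
      have e2 : c3 * (x ^ (17 / 8 : ℝ)) ^ 2 * x ^ (-5 : ℝ) = c3 * x ^ (-(3 / 4) : ℝ) := by
        rw [← Real.rpow_natCast, ← Real.rpow_mul hx0.le, mul_assoc, ← Real.rpow_add hx0]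
        norm_num
      rw [e2, mul_comm]
      exact mul_le_mul_of_nonneg_right (Real.rpow_le_rpow_of_exponent_le h1 (by linarith only [hd1])) hc30.le
    have e3 : 10 * x ≤ Real.sqrt (c1 / Real.exp (-(2 * L * gam * n))) / (C2 * x) := by
      rw [le_div_iff₀ (by positivity)]
      refine le_trans ?_ e1
      rw [div_le_iff₀ hc3s] at h20
      have e4 : x ^ (17 / 8 : ℝ) = x ^ (1 / 8 : ℝ) * x ^ 2 := by
        rw [← Real.rpow_natCast, ← Real.rpow_add hx0]; norm_num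
      rw [e4]
      have : 0 < x ^ 2 := by positivity
      nlinarith only [this, h20]
    have e5 : Real.exp (-(Real.sqrt (c1 / Real.exp (-(2 * L * gam * n))) / (C2 * x))) ≤ Real.exp (-(10 * x)) :=
      Real.exp_le_exp.2 (by linarith only [e3])
    have e6 : (4 : ℝ) ^ K = Real.exp (x * (2 * L)) := by
      rw [hx, Real.exp_nat_mul, show (2 : ℝ) * L = ((2 : ℕ) : ℝ) * L by norm_num, Real.exp_nat_mul, hL,
        Real.exp_log (by norm_num)]
      norm_num
    have lx : l ≤ x := by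
      have := Real.log_le_sub_one_of_pos hx0
      linarith only [this, hl]
    have e10 : (10 : ℝ) ≤ x := by
      have := Real.exp_le_exp.2 h17
      rwa [Real.exp_log (by positivity), hx1] at this
    calc (4 : ℝ) ^ K * (2 * x * Real.exp (-(Real.sqrt (c1 / Real.exp (-(2 * L * gam * n))) / (C2 * x)))) ≤
          Real.exp (x * (2 * L)) * (2 * x * Real.exp (-(10 * x))) := by
          rw [e6]
          exact mul_le_mul_of_nonneg_left (mul_le_mul_of_nonneg_left e5 (by positivity)) (Real.exp_pos _).le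
      _ = 2 * x * Real.exp (x * (2 * L) - 10 * x) := by
          rw [sub_eq_add_neg, Real.exp_add]
          ring
      _ ≤ 2 * x * Real.exp (-(4 * l)) := by
          refine mul_le_mul_of_nonneg_left (Real.exp_le_exp.2 ?_) (by positivity)
          have := mul_le_mul_of_nonneg_left L1.le hx0.le
          linarith only [this, lx, hx0]
      _ = 2 * x * (1 / x ^ 4) := by rw [Real.exp_neg, ← hx4, one_div]
      _ ≤ 1 / (5 * x ^ 2) := by
          rw [mul_one_div, div_le_div_iff₀ (by positivity) (by positivity)]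
          have : 0 < x ^ 3 := by positivity
          nlinarith only [this, e10]
  · -- p5
    have e1 : Real.exp (CL * s) ≤ x := by
      rw [← hx1]
      refine Real.exp_le_exp.2 ?_
      have e3 : CL * s ≤ CL * (al * l) := mul_le_mul_of_nonneg_left s1 hCL.le
      have e4 : CL * al * l ≤ 1 * l := mul_le_mul_of_nonneg_right hCLa hl0
      linarith only [e3, e4]
    have e2 : CL * Real.exp (CL * s) ≤ CL * x := mul_le_mul_of_nonneg_left e1 hCL.le
    rw [div_le_div_iff₀ (by positivity) (by positivity)]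
    have e3 := mul_le_mul_of_nonneg_right e2 (by positivity : 0 ≤ 5 * x ^ 2)
    have e4 := mul_le_mul_of_nonneg_right h21 (by positivity : 0 ≤ x ^ 3)
    have e5 : x * x ^ 3 = x ^ 4 := by ring
    nlinarith only [e3, e4, e5]

end Pool.Agent.Helper96.CM
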