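import Pool.Agent.Helper96.CM.Theta
import Pool.Agent.Helper96.CM.Gf

/-!
# Project CM (MP_a499ba_nt). CM6b: deterministic bounds
-/

set_option autoImplicit false

namespace Pool.Agent.Helper96.CM

open Finset Pool.Agent.Helper5.RM Pool.Agent.Helper96.AF

/-- `1 + y ≤ exp (y - y ^ 2 / 2 + 2 |y| ^ 3)` for `|y| ≤ 1 / 2` -/
private lemma one_add_le33 {y : ℝ} (h : |y| ≤ 1 / 2) : 1 + y ≤ Real.exp (y - y ^ 2 / 2 + 2 * |y| ^ 3) := by
  have h1 := Real.abs_log_sub_add_sum_range_le (x := -y) (by rw [abs_neg]; linarith) 2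
  rw [abs_neg] at h1
  simp only [Finset.sum_range_succ, Finset.sum_range_zero] at h1
  have h2 : |y| ^ (2 + 1) / (1 - |y|) ≤ 2 * |y| ^ 3 := by
    rw [div_le_iff₀ (by linarith)]
    have h5 := mul_nonneg (pow_nonneg (abs_nonneg y) 3) (show (0 : ℝ) ≤ 1 / 2 - |y| by linarith)
    have h6 : |y| ^ (2 + 1) = |y| ^ 3 := rfl
    rw [h6]
    linarith
  have h3 := (abs_le.1 (h1.trans h2)).2
  norm_num at h3
  have h4 : 0 < 1 + y := by
    have := (abs_le.1 h).1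
    linarith
  rw [← Real.log_le_iff_le_exp h4]
  nlinarith

private lemma sg_sq33 (T : Finset ℕ) (p : ℕ) : sg T p ^ 2 = 1 := by
  rw [← sq_abs, abs_sg, one_pow]

theorem sup_RG : ∃ C : ℝ, 0 < C ∧ ∀ (c tau : ℕ → ℝ) (lam om : ℝ) (s l : ℕ), Adm c → 0 ≤ lam → lam ≤ 1 → 0 < om →
    om ≤ 1 / 4 → 2 ≤ s → ∀ (T : Finset ℕ) (t : ℝ),
    RR c lam (WB s l) T t * Gf om (XX c tau (WB s l) T t) ≤
      C * Real.exp (∑ p ∈ WB s l, (lam * tau p - lam ^ 2 / 2) * tc c p t ^ 2) := by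
  obtain ⟨C0, hC0, hcube⟩ := cube_sum
  refine ⟨Real.exp (2 * C0), Real.exp_pos _, ?_⟩
  intro c tau lam om s l hc hl0 hl1 hom hom1 hs T t
  have hRR : RR c lam (WB s l) T t ≤ Real.exp (∑ p ∈ WB s l,
      (sg T p * (lam * tc c p t) - lam ^ 2 * tc c p t ^ 2 / 2 + 2 * |tc c p t| ^ 3)) := by
    rw [Real.exp_sum, RR]
    refine Finset.prod_le_prod ?_ ?_
    · intro p hp
      have h1 := abs_tc_lt_one hc (two_le_WB hp) t
      have h3 : |sg T p * (lam * tc c p t)| < 1 := by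
        rw [abs_mul, abs_sg, one_mul, abs_mul, abs_of_nonneg hl0]
        have := abs_nonneg (tc c p t)
        nlinarith
      linarith [(abs_lt.1 h3).1]
    · intro p hp
      have h0 := abs_nonneg (tc c p t)
      have h1 := abs_tc_le_half hc (sixteen_le_of hs (mem_WB.1 hp).2.1) t
      have h2 : |sg T p * (lam * tc c p t)| ≤ |tc c p t| := by
        rw [abs_mul, abs_sg, one_mul, abs_mul, abs_of_nonneg hl0]
        nlinarith
      refine (one_add_le33 (h2.trans h1)).trans (Real.exp_le_exp.2 ?_)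
      have h3 : (sg T p * (lam * tc c p t)) ^ 2 = lam ^ 2 * tc c p t ^ 2 := by
        rw [mul_pow, sg_sq33, one_mul, mul_pow]
      have h4 : |sg T p * (lam * tc c p t)| ^ 3 ≤ |tc c p t| ^ 3 := pow_le_pow_left₀ (abs_nonneg _) h2 3
      rw [h3]
      linarith
  have hG := Gf_le_exp hom (by linarith) hl0 hl1 (XX c tau (WB s l) T t)
  have hG0 := (Gf_pos hom (XX c tau (WB s l) T t)).le
  calc RR c lam (WB s l) T t * Gf om (XX c tau (WB s l) T t)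
      ≤ Real.exp (∑ p ∈ WB s l, (sg T p * (lam * tc c p t) - lam ^ 2 * tc c p t ^ 2 / 2 + 2 * |tc c p t| ^ 3)) *
        Real.exp (lam * XX c tau (WB s l) T t) := mul_le_mul hRR hG hG0 (Real.exp_pos _).le
    _ = Real.exp (2 * ∑ p ∈ WB s l, |tc c p t| ^ 3 + ∑ p ∈ WB s l, (lam * tau p - lam ^ 2 / 2) * tc c p t ^ 2) := by
        rw [← Real.exp_add]
        congr 1
        unfold XX
        rw [mul_neg, Finset.mul_sum, Finset.mul_sum, ← Finset.sum_add_distrib, ← sub_eq_add_neg, ← Finset.sum_sub_distrib]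
        refine Finset.sum_congr rfl fun p _ => ?_
        ring
    _ ≤ Real.exp (2 * C0) * Real.exp (∑ p ∈ WB s l, (lam * tau p - lam ^ 2 / 2) * tc c p t ^ 2) := by
        rw [← Real.exp_add]
        refine Real.exp_le_exp.2 ?_
        have := hcube c hc s l t
        linarith

private lemma two_pow33 (l s : ℕ) : Real.exp (Real.log 2 * ((l : ℝ) - s)) = 2 ^ l / 2 ^ s := by
  rw [mul_sub, Real.exp_sub, mul_comm, Real.exp_nat_mul, Real.exp_log (by norm_num), mul_comm (Real.log 2), Real.exp_nat_mul,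
    Real.exp_log (by norm_num)]

theorem sup_one (a : ℝ) (ha : 0 < a) : ∃ C : ℝ, 0 < C ∧ ∀ (c : ℕ → ℝ) (lam om : ℝ) (s l : ℕ), Adm c → 0 ≤ lam →
    lam ≤ 1 → 0 < om → om ≤ 1 / 4 → 2 ≤ s → s ≤ l → ∀ T : Finset ℕ, ∀ t ∈ Set.Icc a 1,
    RR c lam (WB s l) T t * Gf om (XX c (fun _ => lam) (WB s l) T t) ≤ C * 2 ^ l / 2 ^ s := by
  obtain ⟨C0, hC0, hRG⟩ := sup_RG
  obtain ⟨C1, hC1, hth⟩ := theta_up a ha
  refine ⟨C0 * Real.exp (C1 / 2), mul_pos hC0 (Real.exp_pos _), ?_⟩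
  intro c lam om s l hc hl0 hl1 hom hom1 hs hsl T t ht
  refine (hRG c (fun _ => lam) lam om s l hc hl0 hl1 hom hom1 hs T t).trans ?_
  have h1 := hth c hc s l hsl t ht
  have h0 : 0 ≤ ∑ p ∈ WB s l, tc c p t ^ 2 := Finset.sum_nonneg fun p _ => sq_nonneg _
  have h2 : ∑ p ∈ WB s l, (lam * lam - lam ^ 2 / 2) * tc c p t ^ 2 ≤ C1 / 2 + Real.log 2 * ((l : ℝ) - s) := by
    rw [← Finset.mul_sum]
    have h3 : lam * lam - lam ^ 2 / 2 ≤ 1 / 2 := by nlinarith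
    have h4 := mul_le_mul_of_nonneg_right h3 h0
    linarith
  calc C0 * Real.exp (∑ p ∈ WB s l, (lam * lam - lam ^ 2 / 2) * tc c p t ^ 2)
      ≤ C0 * Real.exp (C1 / 2 + Real.log 2 * ((l : ℝ) - s)) :=
        mul_le_mul_of_nonneg_left (Real.exp_le_exp.2 h2) hC0.le
    _ = C0 * Real.exp (C1 / 2) * 2 ^ l / 2 ^ s := by
        rw [Real.exp_add, two_pow33]
        ring

theorem sup_two (a : ℝ) (ha : 0 < a) : ∃ C : ℝ, 0 < C ∧ ∀ (c tau : ℕ → ℝ) (gam om : ℝ) (s m l : ℕ), Adm c →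
    0 ≤ gam → gam ≤ 1 / 2 → 0 < om → om ≤ 1 / 4 → 2 ≤ s → s ≤ m → m ≤ l → (∀ p : ℕ, p ≤ Y m → tau p = 1 - gam) →
    (∀ p : ℕ, Y m < p → tau p = 1) → ∀ T : Finset ℕ, ∀ t ∈ Set.Icc a 1,
    RR c 1 (WB s l) T t * Gf om (XX c tau (WB s l) T t) ≤
      C * 2 ^ l / 2 ^ s * Real.exp (-(2 * Real.log 2 * gam * ((m : ℝ) - s))) := by
  obtain ⟨C0, hC0, hRG⟩ := sup_RG
  obtain ⟨C1, hC1, hth⟩ := theta_up a ha
  refine ⟨C0 * Real.exp C1, mul_pos hC0 (Real.exp_pos _), ?_⟩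
  intro c tau gam om s m l hc hg0 hg1 hom hom1 hs hsm hml hle hgt T t ht
  refine (hRG c tau 1 om s l hc zero_le_one le_rfl hom hom1 hs T t).trans ?_
  have hU : WB s l = WB s m ∪ WB m l := by
    ext p
    rw [Finset.mem_union, mem_WB, mem_WB, mem_WB]
    have h1 := Y_mono hsm
    have h2 := Y_mono hml
    constructor
    · rintro ⟨x, y, z⟩
      by_cases h3 : p ≤ Y m
      · exact Or.inl ⟨x, y, h3⟩
      · exact Or.inr ⟨x, by omega, z⟩
    · rintro (⟨x, y, z⟩ | ⟨x, y, z⟩)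
      · exact ⟨x, y, z.trans h2⟩
      · exact ⟨x, by omega, z⟩
  have hD : Disjoint (WB s m) (WB m l) := by
    rw [Finset.disjoint_left]
    intro p hp hq
    rw [mem_WB] at hp hq
    omega
  have h1 := hth c hc s m hsm t ht
  have h2 := hth c hc m l hml t ht
  have h3 : ∑ p ∈ WB s m, (1 * tau p - 1 ^ 2 / 2) * tc c p t ^ 2 = (1 / 2 - gam) * ∑ p ∈ WB s m, tc c p t ^ 2 := by
    rw [Finset.mul_sum]
    refine Finset.sum_congr rfl fun p hp => ?_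
    rw [hle p (mem_WB.1 hp).2.2]
    ring
  have h4 : ∑ p ∈ WB m l, (1 * tau p - 1 ^ 2 / 2) * tc c p t ^ 2 = 1 / 2 * ∑ p ∈ WB m l, tc c p t ^ 2 := by
    rw [Finset.mul_sum]
    refine Finset.sum_congr rfl fun p hp => ?_
    rw [hgt p (mem_WB.1 hp).2.1]
    ring
  have h5 : ∑ p ∈ WB s l, (1 * tau p - 1 ^ 2 / 2) * tc c p t ^ 2 ≤
      C1 + (Real.log 2 * ((l : ℝ) - s) + -(2 * Real.log 2 * gam * ((m : ℝ) - s))) := by
    rw [hU, Finset.sum_union hD, h3, h4]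
    have h6 := mul_le_mul_of_nonneg_left h1 (show (0 : ℝ) ≤ 1 / 2 - gam by linarith)
    have h7 : 0 ≤ gam * C1 := by positivity
    linarith
  calc C0 * Real.exp (∑ p ∈ WB s l, (1 * tau p - 1 ^ 2 / 2) * tc c p t ^ 2)
      ≤ C0 * Real.exp (C1 + (Real.log 2 * ((l : ℝ) - s) + -(2 * Real.log 2 * gam * ((m : ℝ) - s)))) :=
        mul_le_mul_of_nonneg_left (Real.exp_le_exp.2 h5) hC0.le
    _ = C0 * Real.exp C1 * 2 ^ l / 2 ^ s * Real.exp (-(2 * Real.log 2 * gam * ((m : ℝ) - s))) := by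
        rw [Real.exp_add, Real.exp_add, two_pow33]
        ring

end Pool.Agent.Helper96.CM
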