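import Pool.Agent.Helper96.CM.Chain
import Pool.Agent.Helper96.CM.Sup

/-!
# Project CM (MP_a499ba_nt). CM7b: second stage
-/

set_option autoImplicit false

namespace Pool.Agent.Helper96.CM

open Finset Pool.Agent.Helper5.RM Pool.Agent.Helper96.AF

theorem stage2 (a b : ℝ) (ha : 0 < a) (hab : a < b) (hb : b ≤ 1) : ∃ C : ℝ, 0 < C ∧ ∀ (c tau : ℕ → ℝ)
    (gam om c1 : ℝ) (w : ℝ → ℝ) (s m K : ℕ), Adm c → 0 ≤ gam → gam ≤ 1 / 2 → 0 < om → om ≤ 1 / 4 → Continuous w →
    (∀ t, 0 ≤ w t ∧ w t ≤ 2) → 2 ≤ s → s ≤ m → m ≤ K → (∀ p : ℕ, p ≤ Y m → tau p = 1 - gam) →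
    (∀ p : ℕ, Y m < p → tau p = 1) → C * (K * om ^ 2) ≤ 1 → 0 < c1 →
    C * ((K : ℝ) ^ 2 * Real.exp (-(2 * Real.log 2 * gam * ((m : ℝ) - s)))) ≤ c1 →
    pr (WB s K) (fun T => c1 ≤ FF c tau 1 om a b w (WB s m) T ∧ FF c tau 1 om a b w (WB s K) T < c1 / 16) ≤
      2 * K * Real.exp (-(Real.sqrt (c1 / Real.exp (-(2 * Real.log 2 * gam * ((m : ℝ) - s)))) / (C * K))) := by
  obtain ⟨Cc, hCc, hchain⟩ := chain
  obtain ⟨Cs, hCs, hsup⟩ := sup_two a ha
  have hCC : 0 < Cc * Cs := mul_pos hCc hCs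
  refine ⟨2 * Cc + 144 * (Cc * Cs) + 9, by positivity, ?_⟩
  intro c tau gam om c1 w s m K hc hg0 hg1 hom hom1 hw hw2 hs hsm hmK htau1 htau2 hK1 hc1 hK2
  set C : ℝ := 2 * Cc + 144 * (Cc * Cs) + 9 with hC
  set E : ℝ := Real.exp (-(2 * Real.log 2 * gam * ((m : ℝ) - s))) with hE
  have hE0 : 0 < E := Real.exp_pos _
  have hK0 : (0 : ℝ) < K := by exact_mod_cast (by omega : 0 < K)
  have hmR : (m : ℝ) ≤ K := by exact_mod_cast hmK
  have hm0 : (0 : ℝ) ≤ m := Nat.cast_nonneg m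
  set kap : ℝ := 2 * (Cc * Cs) * E with hkap
  have hkap0 : 0 < kap := by positivity
  set A : ℝ := Real.sqrt c1 with hA
  have hAsq : A ^ 2 = c1 := Real.sq_sqrt hc1.le
  have hA0 : 0 < A := Real.sqrt_pos.2 hc1
  set r : ℝ := A / (8 * K) with hr
  have hr0 : 0 ≤ r := by positivity
  have h := hchain c tau 1 om a b kap r A w s m K hc zero_le_one le_rfl hom hom1 ha.le hab.le hb hw hw2 hs hsm hmK
    (fun p hp _ => htau2 p hp) hkap0 hr0 hA0.le
    (fun j hj _ T _ t ht => by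
      have h1 := hsup c tau gam om s m (j + 1) hc hg0 hg1 hom hom1 hs hsm (by omega) htau1 htau2 T t
        ⟨ht.1, ht.2.trans hb⟩
      have h2 : (0 : ℝ) ≤ Cc / 2 ^ j := by positivity
      refine (mul_le_mul_of_nonneg_left h1 h2).trans ?_
      have h3 : Cc / 2 ^ j * (Cs * 2 ^ (j + 1) / 2 ^ s * E) = 2 * (Cc * Cs) * E / 2 ^ s := by
        rw [pow_succ]
        field_simp
      rw [h3, hkap]
      exact div_le_self (by positivity) (one_le_pow₀ (by norm_num)))
    (by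
      have h3 : ((K : ℝ) - m) * (Cc * om ^ 2) ≤ K * (Cc * om ^ 2) :=
        mul_le_mul_of_nonneg_right (by linarith) (by positivity)
      have h4 : 2 * Cc * (K * om ^ 2) ≤ C * (K * om ^ 2) := by
        refine mul_le_mul_of_nonneg_right ?_ (by positivity)
        rw [hC]
        linarith
      linarith)
  have hk1 : (K : ℝ) * Real.sqrt kap ≤ A / 8 := by
    have h1 : kap ≤ (A / (8 * K)) ^ 2 := by
      rw [div_pow, hAsq, hkap, le_div_iff₀ (by positivity)]
      have h5 : 128 * (Cc * Cs) * ((K : ℝ) ^ 2 * E) ≤ C * ((K : ℝ) ^ 2 * E) := by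
        refine mul_le_mul_of_nonneg_right ?_ (by positivity)
        rw [hC]
        linarith
      nlinarith
    have h3 : Real.sqrt kap ≤ A / (8 * K) := by
      rw [← Real.sqrt_sq (by positivity : 0 ≤ A / (8 * K))]
      exact Real.sqrt_le_sqrt h1
    have h4 := mul_le_mul_of_nonneg_left h3 hK0.le
    refine h4.trans (le_of_eq ?_)
    field_simp
  have hk2 : (K : ℝ) * r = A / 8 := by
    rw [hr]
    field_simp
  have hk3 : ((K : ℝ) - m) * (Real.sqrt kap + r) ≤ K * (Real.sqrt kap + r) :=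
    mul_le_mul_of_nonneg_right (by linarith) (add_nonneg (Real.sqrt_nonneg _) hr0)
  have hexp : Real.sqrt (c1 / E) / (C * K) ≤ r / Real.sqrt kap := by
    have hsk : 0 < Real.sqrt kap := Real.sqrt_pos.2 hkap0
    have h5 : Real.sqrt kap = Real.sqrt (2 * (Cc * Cs)) * Real.sqrt E := by
      rw [hkap, Real.sqrt_mul (by positivity)]
    have h6 : Real.sqrt (c1 / E) = A / Real.sqrt E := Real.sqrt_div' _ hE0.le
    have hsE : 0 < Real.sqrt E := Real.sqrt_pos.2 hE0
    have hs2 : 0 < Real.sqrt (2 * (Cc * Cs)) := Real.sqrt_pos.2 (by positivity)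
    have h7 : 8 * Real.sqrt (2 * (Cc * Cs)) ≤ C := by
      have h8 := Real.sq_sqrt (by positivity : 0 ≤ 2 * (Cc * Cs))
      have h9 : Real.sqrt (2 * (Cc * Cs)) ≤ 1 + 2 * (Cc * Cs) := by
        nlinarith [sq_nonneg (Real.sqrt (2 * (Cc * Cs)) - 1)]
      rw [hC]
      linarith
    rw [h5, h6, hr, div_div, div_div]
    refine div_le_div_of_nonneg_left hA0.le (by positivity) ?_
    have h10 : 8 * (K : ℝ) * (Real.sqrt (2 * (Cc * Cs)) * Real.sqrt E) =
        8 * Real.sqrt (2 * (Cc * Cs)) * (Real.sqrt E * K) := by ring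
    have h11 : Real.sqrt E * (C * K) = C * (Real.sqrt E * K) := by ring
    rw [h10, h11]
    exact mul_le_mul_of_nonneg_right h7 (by positivity)
  refine (pr_mono fun T _ hT => ?_).trans (h.trans ?_)
  · refine ⟨?_, ?_⟩
    · rw [hAsq]
      exact hT.1
    · have h9 : Real.sqrt (FF c tau 1 om a b w (WB s K) T) < A / 4 := by
        rw [Real.sqrt_lt' (by positivity)]
        refine hT.2.trans_le (le_of_eq ?_)
        rw [div_pow, hAsq]
        norm_num
      refine h9.trans_le ?_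
      linarith
  · have h12 : 2 * ((K : ℝ) - m) ≤ 2 * K := by linarith
    exact mul_le_mul h12 (Real.exp_le_exp.2 (neg_le_neg hexp)) (Real.exp_pos _).le (by positivity)

end Pool.Agent.Helper96.CM
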