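import Pool.Agent.Helper96.CM.Defs

/-!
# Project CM (MP_a499ba_nt). CM3a: sums over the primes of one level
-/

set_option autoImplicit false

namespace Pool.Agent.Helper96.CM

open Finset Pool.Agent.Helper5.RM Pool.Agent.Helper96.AF

/-- Chebyshev: the number of the primes `≤ n` of the level `l`. -/
private theorem cnt85 (l n : ℕ) : (((BL l).filter (· ≤ n)).card : ℝ) ≤ 2 / 2 ^ l * n := by
  have hl2 : 0 < Real.log 2 := Real.log_pos (by norm_num)
  have h1 : (((BL l).filter (· ≤ n)).card : ℝ) * (2 ^ l * Real.log 2) ≤ Real.log 4 * n := by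
    refine le_trans ?_ (Chebyshev.theta_le_log4_mul_x (Nat.cast_nonneg n))
    rw [Chebyshev.theta_eq_sum_Icc, Nat.floor_natCast, ← nsmul_eq_mul]
    refine (Finset.card_nsmul_le_sum _ (fun p : ℕ => Real.log p) _ ?_).trans ?_
    · intro p hp
      obtain ⟨h2, -, -⟩ := mem_BL.1 (Finset.mem_filter.1 hp).1
      obtain ⟨-, h3, -⟩ := mem_BL.1 (Finset.mem_filter.1 hp).1
      have h4 : ((2 : ℝ) ^ (2 ^ l : ℕ)) ≤ p := by
        have : 2 ^ (2 ^ l) ≤ p := by
          unfold Y at h3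
          exact h3.le
        exact_mod_cast this
      have h5 := Real.log_le_log (by positivity) h4
      rw [Real.log_pow] at h5
      push_cast at h5
      exact h5
    · refine Finset.sum_le_sum_of_subset_of_nonneg ?_ fun p _ _ => Real.log_natCast_nonneg p
      intro p hp
      obtain ⟨h2, h3⟩ := Finset.mem_filter.1 hp
      exact Finset.mem_filter.2 ⟨Finset.mem_Icc.2 ⟨Nat.zero_le _, h3⟩, (mem_BL.1 h2).1⟩
  have h4 : Real.log 4 = 2 * Real.log 2 := by
    rw [show (4 : ℝ) = 2 ^ 2 by norm_num, Real.log_pow]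
    norm_num
  rw [h4] at h1
  rw [div_mul_eq_mul_div, le_div_iff₀ (by positivity)]
  have h5 : (((BL l).filter (· ≤ n)).card : ℝ) * 2 ^ l * Real.log 2 ≤ 2 * n * Real.log 2 := by linarith
  exact le_of_mul_le_mul_right h5 hl2

/-- Abel summation. -/
private theorem abel85 (S : Finset ℕ) {K : ℝ} (hK : 0 ≤ K) (hS : ∀ n : ℕ, ((S.filter (· ≤ n)).card : ℝ) ≤ K * n)
    (f : ℕ → ℝ) {x : ℕ} (hf0 : ∀ n, x ≤ n → 0 ≤ f n) (hf : ∀ n, x ≤ n → f (n + 1) ≤ f n) {N : ℕ} (hN : x ≤ N) :
    ∑ q ∈ S.filter (fun q => x ≤ q ∧ q ≤ N), f q + (K * N - ((S.filter (· ≤ N)).card : ℝ)) * f N ≤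
      K * (x * f x + ∑ n ∈ Ioc x N, f n) := by
  induction N, hN using Nat.le_induction with
  | base =>
    rw [Ioc_self, sum_empty, add_zero]
    have h1 : ∑ q ∈ S.filter (fun q => x ≤ q ∧ q ≤ x), f q ≤ ((S.filter (· ≤ x)).card : ℝ) * f x := by
      rw [← nsmul_eq_mul]
      have h2 : ∑ q ∈ S.filter (fun q => x ≤ q ∧ q ≤ x), f q = ∑ q ∈ S.filter (fun q => x ≤ q ∧ q ≤ x), f x := by
        refine sum_congr rfl fun q hq => ?_
        obtain ⟨-, h3, h4⟩ := mem_filter.1 hq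
        rw [le_antisymm h4 h3]
      rw [h2, sum_const]
      refine nsmul_le_nsmul_left (hf0 x le_rfl) (card_le_card ?_)
      intro q hq
      obtain ⟨h3, -, h4⟩ := mem_filter.1 hq
      exact mem_filter.2 ⟨h3, h4⟩
    linarith
  | succ N hN ih =>
    have e1 : Ioc x (N + 1) = insert (N + 1) (Ioc x N) := by
      ext n
      simp only [mem_insert, mem_Ioc]
      omega
    rw [e1, sum_insert (by simp)]
    have h0 := hf0 (N + 1) (by omega)
    have h1 := hf N hN
    have h2 := hS N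
    have h3 : (K * N - ((S.filter (· ≤ N)).card : ℝ)) * f (N + 1) ≤ (K * N - ((S.filter (· ≤ N)).card : ℝ)) * f N :=
      mul_le_mul_of_nonneg_left h1 (by linarith)
    by_cases hmem : N + 1 ∈ S
    · have e2 : S.filter (fun q => x ≤ q ∧ q ≤ N + 1) = insert (N + 1) (S.filter (fun q => x ≤ q ∧ q ≤ N)) := by
        ext q
        simp only [mem_insert, mem_filter]
        constructor
        · rintro ⟨a, b, c⟩
          rcases Nat.lt_or_ge N q with h | h
          · exact Or.inl (by omega)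
          · exact Or.inr ⟨a, b, h⟩
        · rintro (rfl | ⟨a, b, c⟩)
          · exact ⟨hmem, by omega, le_rfl⟩
          · exact ⟨a, b, by omega⟩
      have e3 : S.filter (· ≤ N + 1) = insert (N + 1) (S.filter (· ≤ N)) := by
        ext q
        simp only [mem_insert, mem_filter]
        constructor
        · rintro ⟨a, c⟩
          rcases Nat.lt_or_ge N q with h | h
          · exact Or.inl (by omega)
          · exact Or.inr ⟨a, h⟩
        · rintro (rfl | ⟨a, c⟩)
          · exact ⟨hmem, le_rfl⟩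
          · exact ⟨a, by omega⟩
      rw [e2, e3, sum_insert (by simp), card_insert_of_notMem (by simp)]
      push_cast
      linarith
    · have e2 : S.filter (fun q => x ≤ q ∧ q ≤ N + 1) = S.filter (fun q => x ≤ q ∧ q ≤ N) := by
        refine filter_congr fun q hq => ?_
        have : q ≠ N + 1 := fun h => hmem (h ▸ hq)
        omega
      have e3 : S.filter (· ≤ N + 1) = S.filter (· ≤ N) := by
        refine filter_congr fun q hq => ?_
        have : q ≠ N + 1 := fun h => hmem (h ▸ hq)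
        omega
      rw [e2, e3]
      push_cast
      linarith

private theorem half85 (N : ℕ) : ∑ n ∈ Ioc 1 (N + 1), 1 / Real.sqrt n ≤ 2 * Real.sqrt (N + 1 : ℕ) - 2 := by
  induction N with
  | zero => simp
  | succ N ih =>
    have e1 : Ioc 1 (N + 1 + 1) = insert (N + 1 + 1) (Ioc 1 (N + 1)) := by
      ext n
      simp only [mem_insert, mem_Ioc]
      omega
    rw [e1, sum_insert (by simp)]
    obtain ⟨a, ha⟩ : ∃ a : ℝ, a = Real.sqrt (N + 1 : ℕ) := ⟨_, rfl⟩
    obtain ⟨b, hb⟩ : ∃ b : ℝ, b = Real.sqrt (N + 1 + 1 : ℕ) := ⟨_, rfl⟩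
    rw [← ha] at ih
    rw [← hb]
    have ha0 : 0 < a := by rw [ha]; exact Real.sqrt_pos.2 (by positivity)
    have hb0 : 0 < b := by rw [hb]; exact Real.sqrt_pos.2 (by positivity)
    have ha2 : a ^ 2 = ((N + 1 : ℕ) : ℝ) := by rw [ha]; exact Real.sq_sqrt (by positivity)
    have hb2 : b ^ 2 = ((N + 1 + 1 : ℕ) : ℝ) := by rw [hb]; exact Real.sq_sqrt (by positivity)
    have hab : b ^ 2 = a ^ 2 + 1 := by rw [ha2, hb2]; push_cast; ring
    have h1 : 1 / b ≤ 2 * (b - a) := by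
      rw [div_le_iff₀ hb0]
      nlinarith [sq_nonneg (b - a)]
    linarith

private theorem three85 {x : ℕ} (hx : 1 ≤ x) {N : ℕ} (hN : x ≤ N) :
    ∑ n ∈ Ioc x N, 1 / ((n : ℝ) * Real.sqrt n) ≤ 2 / Real.sqrt x - 2 / Real.sqrt N := by
  induction N, hN using Nat.le_induction with
  | base => simp
  | succ N hN ih =>
    have e1 : Ioc x (N + 1) = insert (N + 1) (Ioc x N) := by
      ext n
      simp only [mem_insert, mem_Ioc]
      omega
    rw [e1, sum_insert (by simp)]
    obtain ⟨a, ha⟩ : ∃ a : ℝ, a = Real.sqrt N := ⟨_, rfl⟩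
    obtain ⟨b, hb⟩ : ∃ b : ℝ, b = Real.sqrt (N + 1 : ℕ) := ⟨_, rfl⟩
    rw [← ha] at ih
    rw [← hb]
    have hN1 : (1 : ℝ) ≤ N := by exact_mod_cast hx.trans hN
    have ha0 : 0 < a := by rw [ha]; exact Real.sqrt_pos.2 (by linarith)
    have hb0 : 0 < b := by rw [hb]; exact Real.sqrt_pos.2 (by positivity)
    have ha2 : a ^ 2 = (N : ℝ) := by rw [ha]; exact Real.sq_sqrt (by positivity)
    have hb2 : b ^ 2 = ((N + 1 : ℕ) : ℝ) := by rw [hb]; exact Real.sq_sqrt (by positivity)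
    have hab : b ^ 2 = a ^ 2 + 1 := by rw [ha2, hb2]; push_cast; ring
    have hlt : a < b := by nlinarith
    have h1 : 1 / (((N + 1 : ℕ) : ℝ) * b) ≤ 2 / a - 2 / b := by
      rw [← hb2, div_sub_div _ _ ha0.ne' hb0.ne', div_le_div_iff₀ (by positivity) (by positivity)]
      have h2 : 1 ≤ (b - a) * (2 * b) := by nlinarith [sq_nonneg (b - a)]
      have h3 : 0 < a * b := by positivity
      nlinarith [mul_le_mul_of_nonneg_right h2 (show 0 ≤ b ^ 2 by positivity),
        mul_le_mul_of_nonneg_right hlt.le (show 0 ≤ b by positivity)]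
    linarith

theorem bl_half : ∃ C : ℝ, 0 < C ∧ ∀ l x : ℕ,
    ∑ q ∈ (BL l).filter (· ≤ x), 1 / Real.sqrt q ≤ C / 2 ^ l * Real.sqrt x := by
  refine ⟨4, by norm_num, fun l x => ?_⟩
  rcases Nat.eq_zero_or_pos x with h0 | h0
  · subst h0
    rw [sum_eq_zero]
    · simp
    · intro q hq
      obtain ⟨h1, h2⟩ := mem_filter.1 hq
      have := (mem_BL.1 h1).1.pos
      omega
  · obtain ⟨N, rfl⟩ : ∃ N, x = N + 1 := ⟨x - 1, by omega⟩
    have h1 := abel85 (BL l) (K := 2 / 2 ^ l) (by positivity) (cnt85 l) (fun n => 1 / Real.sqrt n) (x := 1)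
      (fun n _ => by positivity) (fun n hn => by
        have : (1 : ℝ) ≤ n := by exact_mod_cast hn
        refine one_div_le_one_div_of_le (Real.sqrt_pos.2 (by linarith)) (Real.sqrt_le_sqrt ?_)
        push_cast
        linarith) (N := N + 1) (by omega)
    have h2 : (BL l).filter (fun q => 1 ≤ q ∧ q ≤ N + 1) = (BL l).filter (· ≤ N + 1) := by
      refine filter_congr fun q hq => ?_
      have := (mem_BL.1 hq).1.pos
      omega
    rw [h2] at h1
    have h3 := cnt85 l (N + 1)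
    have h4 : 0 ≤ (2 / 2 ^ l * ((N + 1 : ℕ) : ℝ) - (((BL l).filter (· ≤ N + 1)).card : ℝ)) * (1 / Real.sqrt (N + 1 : ℕ)) :=
      mul_nonneg (by linarith) (by positivity)
    have h5 := half85 N
    have h6 : (2 : ℝ) / 2 ^ l * (((1 : ℕ) : ℝ) * (1 / Real.sqrt (1 : ℕ)) + ∑ n ∈ Ioc 1 (N + 1), 1 / Real.sqrt n) ≤
        2 / 2 ^ l * (2 * Real.sqrt (N + 1 : ℕ)) := by
      refine mul_le_mul_of_nonneg_left ?_ (by positivity)
      simp only [Nat.cast_one, Real.sqrt_one, div_one, mul_one]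
      linarith
    have h7 : (2 : ℝ) / 2 ^ l * (2 * Real.sqrt (N + 1 : ℕ)) = 4 / 2 ^ l * Real.sqrt (N + 1 : ℕ) := by ring
    linarith

theorem bl_three : ∃ C : ℝ, 0 < C ∧ ∀ l x : ℕ, 1 ≤ x →
    ∑ q ∈ (BL l).filter (x ≤ ·), 1 / (q * Real.sqrt q) ≤ C / 2 ^ l / Real.sqrt x := by
  refine ⟨6, by norm_num, fun l x hx => ?_⟩
  obtain ⟨N, hN⟩ : ∃ N : ℕ, N = max x (Y (l + 1)) := ⟨_, rfl⟩
  have hxN : x ≤ N := by rw [hN]; exact le_max_left _ _
  have hx1 : (1 : ℝ) ≤ x := by exact_mod_cast hx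
  have hsx : 0 < Real.sqrt x := Real.sqrt_pos.2 (by linarith)
  have h1 := abel85 (BL l) (K := 2 / 2 ^ l) (by positivity) (cnt85 l) (fun n => 1 / (n * Real.sqrt n)) (x := x)
      (fun n _ => by positivity) (fun n hn => by
        have : (1 : ℝ) ≤ n := by exact_mod_cast hx.trans hn
        refine one_div_le_one_div_of_le (mul_pos (by linarith) (Real.sqrt_pos.2 (by linarith))) ?_
        refine mul_le_mul ?_ (Real.sqrt_le_sqrt ?_) (Real.sqrt_nonneg _) (by positivity)
        · push_cast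
          linarith
        · push_cast
          linarith) (N := N) hxN
  have h2 : (BL l).filter (fun q => x ≤ q ∧ q ≤ N) = (BL l).filter (x ≤ ·) := by
    refine filter_congr fun q hq => ?_
    have h3 := (mem_BL.1 hq).2.2
    have h4 : Y (l + 1) ≤ N := by rw [hN]; exact le_max_right _ _
    constructor
    · exact fun h => h.1
    · exact fun h => ⟨h, h3.trans h4⟩
  rw [h2] at h1
  have h3 := cnt85 l N
  have h4 : 0 ≤ (2 / 2 ^ l * (N : ℝ) - (((BL l).filter (· ≤ N)).card : ℝ)) * (1 / ((N : ℝ) * Real.sqrt N)) :=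
    mul_nonneg (by linarith) (by positivity)
  have h5 := three85 hx hxN
  have h6 : 0 ≤ 2 / Real.sqrt N := by positivity
  have h7 : (x : ℝ) * (1 / ((x : ℝ) * Real.sqrt x)) = 1 / Real.sqrt x := by
    field_simp
  have h8 : (2 : ℝ) / 2 ^ l * ((x : ℝ) * (1 / ((x : ℝ) * Real.sqrt x)) + ∑ n ∈ Ioc x N, 1 / ((n : ℝ) * Real.sqrt n)) ≤
      2 / 2 ^ l * (3 / Real.sqrt x) := by
    refine mul_le_mul_of_nonneg_left ?_ (by positivity)
    rw [h7]
    have h9 : (3 : ℝ) / Real.sqrt x = 1 / Real.sqrt x + 2 / Real.sqrt x := by ring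
    rw [h9]
    linarith
  have h9 : (2 : ℝ) / 2 ^ l * (3 / Real.sqrt x) = 6 / 2 ^ l / Real.sqrt x := by ring
  linarith

end Pool.Agent.Helper96.CM
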