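import Pool.Agent.Helper96.CM.Defs

/-!
# Project CM (MP_a499ba_nt). CM4: concentration on the cube
-/

set_option autoImplicit false

namespace Pool.Agent.Helper96.CM

open Finset Pool.Agent.Helper5.RM Pool.Agent.Helper96.AF

private lemma fl_insert_self {p : ℕ} {T : Finset ℕ} (h : p ∉ T) : fl p (insert p T) = T := by
  ext x
  unfold fl
  rw [Finset.mem_symmDiff, Finset.mem_insert, Finset.mem_singleton]
  by_cases hx : x = p
  · subst hx
    tauto
  · tauto

private lemma fl_not_mem {p : ℕ} {T : Finset ℕ} (h : p ∉ T) : fl p T = insert p T := by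
  ext x
  unfold fl
  rw [Finset.mem_symmDiff, Finset.mem_insert, Finset.mem_singleton]
  by_cases hx : x = p
  · subst hx
    tauto
  · tauto

private lemma fl_insert_ne {p q : ℕ} (T : Finset ℕ) (h : p ≠ q) :
    fl p (insert q T) = insert q (fl p T) := by
  ext x
  unfold fl
  rw [Finset.mem_symmDiff, Finset.mem_insert, Finset.mem_singleton, Finset.mem_insert,
    Finset.mem_symmDiff, Finset.mem_singleton]
  by_cases hx : x = q
  · subst hx
    tauto
  · tauto

private lemma fl_subset {p : ℕ} {Q T : Finset ℕ} (hp : p ∈ Q) (hT : T ⊆ Q) : fl p T ⊆ Q := by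
  intro x hx
  unfold fl at hx
  rw [Finset.mem_symmDiff, Finset.mem_singleton] at hx
  rcases hx with ⟨h, _⟩ | ⟨rfl, _⟩
  · exact hT h
  · exact hp

private lemma fl_fl (p : ℕ) (T : Finset ℕ) : fl p (fl p T) = T := by
  unfold fl
  rw [symmDiff_assoc, symmDiff_self]
  exact symmDiff_bot T

/-- the average is invariant under flips -/
private lemma av_fl {Q : Finset ℕ} {p : ℕ} (hp : p ∈ Q) (F : Finset ℕ → ℝ) :
    av Q (fun T => F (fl p T)) = av Q F := by
  have h0 : p ∉ Q.erase p := Finset.notMem_erase p Q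
  have h1 : insert p (Q.erase p) = Q := Finset.insert_erase hp
  rw [← h1, av_insert h0, av_insert h0]
  have e1 : av (Q.erase p) (fun T => F (fl p T)) = av (Q.erase p) (fun T => F (insert p T)) :=
    av_congr fun T hT => by rw [fl_not_mem fun h => h0 (hT h)]
  have e2 : av (Q.erase p) (fun T => F (fl p (insert p T))) = av (Q.erase p) F :=
    av_congr fun T hT => by rw [fl_insert_self fun h => h0 (hT h)]
  rw [e1, e2]
  ring

private lemma av_sq (S : Finset ℕ) (h : Finset ℕ → ℝ) : av S h ^ 2 ≤ av S (fun T => h T ^ 2) := by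
  have h1 : 0 ≤ av S (fun T => (h T - av S h) ^ 2) := av_nonneg fun T _ => sq_nonneg _
  have h2 : av S (fun T => (h T - av S h) ^ 2) = av S (fun T => h T ^ 2) - av S h ^ 2 := by
    have e : av S (fun T => (h T - av S h) ^ 2) =
        av S (fun T => h T ^ 2 + ((-2 * av S h) * h T + av S h ^ 2)) :=
      av_congr fun T _ => by ring
    rw [e, av_add, av_add, av_mul_left, av_const]
    ring
  linarith

theorem poincare (Q : Finset ℕ) (g : Finset ℕ → ℝ) :
    av Q (fun T => g T ^ 2) - av Q g ^ 2 ≤ 1 / 4 * av Q (fun T => ∑ p ∈ Q, (g T - g (fl p T)) ^ 2) := by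
  induction Q using Finset.induction_on generalizing g with
  | empty => simp [av_empty]
  | insert q S hq ih =>
    rw [av_insert hq, av_insert hq, av_insert hq]
    set g1 : Finset ℕ → ℝ := fun T => g (insert q T) with hg1
    have h0 := ih g
    have h1 := ih g1
    have hne : ∀ p ∈ S, p ≠ q := fun p hp h => hq (h ▸ hp)
    have e0 : av S (fun T => ∑ p ∈ insert q S, (g T - g (fl p T)) ^ 2) =
        av S (fun T => (g T - g1 T) ^ 2) + av S (fun T => ∑ p ∈ S, (g T - g (fl p T)) ^ 2) := by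
      rw [← av_add]
      refine av_congr fun T hT => ?_
      rw [Finset.sum_insert hq, fl_not_mem fun h => hq (hT h)]
    have e1 : av S (fun T => ∑ p ∈ insert q S, (g (insert q T) - g (fl p (insert q T))) ^ 2) =
        av S (fun T => (g T - g1 T) ^ 2) + av S (fun T => ∑ p ∈ S, (g1 T - g1 (fl p T)) ^ 2) := by
      rw [← av_add]
      refine av_congr fun T hT => ?_
      rw [Finset.sum_insert hq, fl_insert_self fun h => hq (hT h)]
      congr 1
      · rw [hg1]
        ring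
      · refine Finset.sum_congr rfl fun p hp => ?_
        rw [fl_insert_ne T (hne p hp)]
    rw [e0, e1]
    have h2 := av_sq S (fun T => g T - g1 T)
    have h3 : av S (fun T => g T - g1 T) = av S g - av S g1 := by
      have : av S (fun T => g T - g1 T) = av S (fun T => g T + (-1) * g1 T) :=
        av_congr fun T _ => by ring
      rw [this, av_add, av_mul_left]
      ring
    rw [h3] at h2
    have h4 : av S (fun T => g (insert q T) ^ 2) = av S (fun T => g1 T ^ 2) := rfl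
    have h5 : av S (fun T => g (insert q T)) = av S g1 := rfl
    rw [h4, h5]
    nlinarith [h0, h1, h2]

private lemma exp_diff (a b : ℝ) :
    (Real.exp (-a) - Real.exp (-b)) ^ 2 ≤
      (a - b) ^ 2 * (Real.exp (-a) ^ 2 + Real.exp (-b) ^ 2) := by
  have key : ∀ x y : ℝ, x ≤ y →
      (Real.exp (-x) - Real.exp (-y)) ^ 2 ≤ (x - y) ^ 2 * Real.exp (-x) ^ 2 := by
    intro x y h
    have h1 : Real.exp (-x) - Real.exp (-y) ≤ (y - x) * Real.exp (-x) := by
      have h2 := Real.add_one_le_exp (x - y)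
      have h3 : Real.exp (-y) = Real.exp (x - y) * Real.exp (-x) := by
        rw [← Real.exp_add]
        congr 1
        ring
      rw [h3]
      nlinarith [Real.exp_pos (-x)]
    have h2 : 0 ≤ Real.exp (-x) - Real.exp (-y) := by
      have := Real.exp_le_exp.2 (neg_le_neg h)
      linarith
    calc (Real.exp (-x) - Real.exp (-y)) ^ 2 ≤ ((y - x) * Real.exp (-x)) ^ 2 :=
          pow_le_pow_left₀ h2 h1 2
      _ = _ := by ring
  rcases le_total a b with h | h
  · have h1 := key a b h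
    have h2 : 0 ≤ (a - b) ^ 2 * Real.exp (-b) ^ 2 := by positivity
    linarith
  · have h1 := key b a h
    have h2 : 0 ≤ (a - b) ^ 2 * Real.exp (-a) ^ 2 := by positivity
    have h3 : (Real.exp (-a) - Real.exp (-b)) ^ 2 = (Real.exp (-b) - Real.exp (-a)) ^ 2 := by ring
    have h4 : (b - a) ^ 2 = (a - b) ^ 2 := by ring
    rw [h3]
    rw [h4] at h1
    linarith

/-- the Laplace transform -/
private noncomputable def lap (Q : Finset ℕ) (f : Finset ℕ → ℝ) (x : ℝ) : ℝ :=
  av Q (fun T => Real.exp (-(x * f T)))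

private lemma lap_nonneg (Q : Finset ℕ) (f : Finset ℕ → ℝ) (x : ℝ) : 0 ≤ lap Q f x :=
  av_nonneg fun _ _ => (Real.exp_pos _).le

private lemma lap_half {Q : Finset ℕ} {f : Finset ℕ → ℝ} {v : ℝ}
    (h : ∀ T ⊆ Q, ∑ p ∈ Q, (f T - f (fl p T)) ^ 2 ≤ v) (x : ℝ) :
    lap Q f x * (1 - x ^ 2 * v / 8) ≤ lap Q f (x / 2) ^ 2 := by
  have h1 := poincare Q (fun T => Real.exp (-(x / 2 * f T)))
  have e1 : av Q (fun T => Real.exp (-(x / 2 * f T)) ^ 2) = lap Q f x := by
    refine av_congr fun T _ => ?_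
    rw [← Real.exp_nat_mul]
    congr 1
    push_cast
    ring
  have e2 : av Q (fun T => ∑ p ∈ Q, (Real.exp (-(x / 2 * f T)) - Real.exp (-(x / 2 * f (fl p T)))) ^ 2)
      ≤ x ^ 2 / 2 * v * lap Q f x := by
    have a1 : av Q (fun T => ∑ p ∈ Q, (Real.exp (-(x / 2 * f T)) - Real.exp (-(x / 2 * f (fl p T)))) ^ 2)
        ≤ av Q (fun T => ∑ p ∈ Q, (x ^ 2 / 4 * ((f T - f (fl p T)) ^ 2 * Real.exp (-(x * f T))) +
          x ^ 2 / 4 * ((f (fl p T) - f (fl p (fl p T))) ^ 2 * Real.exp (-(x * f (fl p T)))))) := by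
      refine av_mono fun T _ => Finset.sum_le_sum fun p _ => ?_
      refine (exp_diff _ _).trans (le_of_eq ?_)
      rw [fl_fl, ← Real.exp_nat_mul, ← Real.exp_nat_mul]
      have b1 : ((2 : ℕ) : ℝ) * -(x / 2 * f T) = -(x * f T) := by push_cast; ring
      have b2 : ((2 : ℕ) : ℝ) * -(x / 2 * f (fl p T)) = -(x * f (fl p T)) := by push_cast; ring
      rw [b1, b2]
      ring
    have a2 : av Q (fun T => ∑ p ∈ Q, (x ^ 2 / 4 * ((f T - f (fl p T)) ^ 2 * Real.exp (-(x * f T))) +
          x ^ 2 / 4 * ((f (fl p T) - f (fl p (fl p T))) ^ 2 * Real.exp (-(x * f (fl p T)))))) =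
        av Q (fun T => x ^ 2 / 2 * ((∑ p ∈ Q, (f T - f (fl p T)) ^ 2) * Real.exp (-(x * f T)))) := by
      rw [av_sum]
      have a3 : ∀ p ∈ Q, av Q (fun T => x ^ 2 / 4 * ((f T - f (fl p T)) ^ 2 * Real.exp (-(x * f T))) +
          x ^ 2 / 4 * ((f (fl p T) - f (fl p (fl p T))) ^ 2 * Real.exp (-(x * f (fl p T))))) =
          x ^ 2 / 2 * av Q (fun T => (f T - f (fl p T)) ^ 2 * Real.exp (-(x * f T))) := by
        intro p hp
        rw [av_add, av_mul_left, av_mul_left,
          av_fl hp (fun T => (f T - f (fl p T)) ^ 2 * Real.exp (-(x * f T)))]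
        ring
      rw [Finset.sum_congr rfl a3, ← Finset.mul_sum, ← av_sum, ← av_mul_left]
      refine av_congr fun T _ => ?_
      rw [Finset.sum_mul]
    refine a1.trans (a2.le.trans ?_)
    unfold lap
    rw [← av_mul_left]
    refine av_mono fun T hT => ?_
    have b1 := mul_le_mul_of_nonneg_right (h T hT) (Real.exp_pos (-(x * f T))).le
    have b2 : 0 ≤ x ^ 2 / 2 := by positivity
    have b3 := mul_le_mul_of_nonneg_left b1 b2
    linarith
  rw [e1] at h1
  have e3 : av Q (fun T => Real.exp (-(x / 2 * f T))) = lap Q f (x / 2) := rfl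
  rw [e3] at h1
  nlinarith [h1, e2]

private lemma lap_iter {Q : Finset ℕ} {f : Finset ℕ → ℝ} {v : ℝ} (hv : 0 < v)
    (h : ∀ T ⊆ Q, ∑ p ∈ Q, (f T - f (fl p T)) ^ 2 ≤ v) (n : ℕ) :
    lap Q f (1 / Real.sqrt v) ≤ Real.exp (2 / 7 * (1 - (1 / 2) ^ n)) *
      lap Q f (1 / Real.sqrt v / 2 ^ n) ^ (2 ^ n) := by
  induction n with
  | zero => simp
  | succ n ih =>
    have hs : Real.sqrt v ^ 2 = v := Real.sq_sqrt hv.le
    have hs0 : 0 < Real.sqrt v := Real.sqrt_pos.2 hv
    set y := 1 / Real.sqrt v / 2 ^ n with hy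
    have h1 := lap_half h y
    have e1 : y ^ 2 * v = (1 / 4) ^ n := by
      rw [hy, div_pow, div_pow, hs, one_pow, ← pow_mul, Nat.mul_comm, pow_mul, one_div_pow]
      norm_num
      field_simp
    set u : ℝ := (1 / 4) ^ n with hu
    have hu0 : 0 < u := by positivity
    have hu1 : u ≤ 1 := pow_le_one₀ (by norm_num) (by norm_num)
    rw [e1] at h1
    have h2 : 1 ≤ Real.exp (u / 7) * (1 - u / 8) := by
      have h3 := Real.add_one_le_exp (u / 7)
      nlinarith
    have h4 : lap Q f y ≤ Real.exp (u / 7) * lap Q f (y / 2) ^ 2 := by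
      have h5 := lap_nonneg Q f y
      have h6 := mul_le_mul_of_nonneg_left h1 (Real.exp_pos (u / 7)).le
      have h7 := mul_le_mul_of_nonneg_left h2 h5
      nlinarith
    have h5 : lap Q f y ^ (2 ^ n) ≤ (Real.exp (u / 7) * lap Q f (y / 2) ^ 2) ^ (2 ^ n) :=
      pow_le_pow_left₀ (lap_nonneg Q f y) h4 _
    have e2 : y / 2 = 1 / Real.sqrt v / 2 ^ (n + 1) := by
      rw [hy, pow_succ, div_div]
    have e3 : (Real.exp (u / 7) * lap Q f (y / 2) ^ 2) ^ (2 ^ n) =
        Real.exp ((1 / 2) ^ n / 7) * lap Q f (y / 2) ^ (2 ^ (n + 1)) := by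
      rw [mul_pow, ← Real.exp_nat_mul, ← pow_mul, pow_succ 2 n, Nat.mul_comm 2 (2 ^ n)]
      congr 2
      rw [hu]
      push_cast
      have e4 : (1 / 4 : ℝ) ^ n = (1 / 2) ^ n * (1 / 2) ^ n := by
        rw [← mul_pow]
        norm_num
      have e5 : (2 : ℝ) ^ n * (1 / 2) ^ n = 1 := by
        rw [← mul_pow]
        norm_num
      rw [e4]
      calc (2 : ℝ) ^ n * ((1 / 2) ^ n * (1 / 2) ^ n / 7) =
            ((2 : ℝ) ^ n * (1 / 2) ^ n) * ((1 / 2) ^ n / 7) := by ring
        _ = _ := by rw [e5, one_mul]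
    rw [e3, e2] at h5
    refine ih.trans ((mul_le_mul_of_nonneg_left h5 (Real.exp_pos _).le).trans (le_of_eq ?_))
    rw [← mul_assoc, ← Real.exp_add]
    congr 2
    rw [pow_succ]
    ring

private lemma exp_neg_le {y : ℝ} (h : |y| ≤ 1) : Real.exp (-y) ≤ 1 - y + y ^ 2 := by
  have h1 := Real.abs_exp_sub_one_sub_id_le (x := -y) (by rwa [abs_neg])
  have h2 := (abs_le.1 h1).2
  nlinarith

/-- the Laplace transform at the top -/
private lemma lap_top {Q : Finset ℕ} {f : Finset ℕ → ℝ} {v : ℝ} (hv : 0 < v)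
    (h : ∀ T ⊆ Q, ∑ p ∈ Q, (f T - f (fl p T)) ^ 2 ≤ v) :
    lap Q f (1 / Real.sqrt v) ≤ 2 * Real.exp (-(1 / Real.sqrt v * av Q f)) := by
  set x := 1 / Real.sqrt v with hx
  have hs0 : 0 < Real.sqrt v := Real.sqrt_pos.2 hv
  have hx0 : 0 < x := by positivity
  -- a bound for `f`
  obtain ⟨B, hB0, hB⟩ : ∃ B : ℝ, 0 ≤ B ∧ ∀ T ⊆ Q, |f T| ≤ B := by
    refine ⟨∑ T ∈ Q.powerset, |f T|, Finset.sum_nonneg fun _ _ => abs_nonneg _, fun T hT => ?_⟩
    exact Finset.single_le_sum (f := fun T => |f T|) (fun _ _ => abs_nonneg _)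
      (Finset.mem_powerset.2 hT)
  -- a large exponent
  obtain ⟨n, hn⟩ : ∃ n : ℕ, x * B + 3 * (x * B) ^ 2 < 2 ^ n :=
    pow_unbounded_of_one_lt _ (by norm_num)
  have hp : (0 : ℝ) < 2 ^ n := by positivity
  set y := x / 2 ^ n with hy
  have hy0 : 0 < y := by positivity
  have hxB : 0 ≤ x * B := by positivity
  have hyB : y * B ≤ 1 := by
    rw [hy, div_mul_eq_mul_div, div_le_one hp]
    nlinarith
  have h1 : lap Q f y ≤ Real.exp (-(y * av Q f) + (y * B) ^ 2) := by
    have h2 : lap Q f y ≤ av Q (fun T => (1 + (y * B) ^ 2) + -y * f T) := by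
      refine av_mono fun T hT => ?_
      have h3 : |y * f T| ≤ y * B := by
        rw [abs_mul, abs_of_pos hy0]
        exact mul_le_mul_of_nonneg_left (hB T hT) hy0.le
      have h4 := exp_neg_le (h3.trans hyB)
      have h5 : (y * f T) ^ 2 ≤ (y * B) ^ 2 := by
        rw [← sq_abs]
        exact pow_le_pow_left₀ (abs_nonneg _) h3 2
      linarith
    rw [av_add, av_const, av_mul_left] at h2
    refine h2.trans ?_
    have h6 := Real.add_one_le_exp (-(y * av Q f) + (y * B) ^ 2)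
    linarith
  have h2 := lap_iter hv h n
  rw [← hx, ← hy] at h2
  have h3 : lap Q f y ^ (2 ^ n) ≤ Real.exp (-(x * av Q f) + 1 / 3) := by
    refine (pow_le_pow_left₀ (lap_nonneg Q f y) h1 _).trans ?_
    rw [← Real.exp_nat_mul]
    apply Real.exp_le_exp.2
    push_cast
    have e1 : (2 : ℝ) ^ n * y = x := by
      rw [hy]
      field_simp
    have e2 : (2 : ℝ) ^ n * (-(y * av Q f) + (y * B) ^ 2) =
        -((2 : ℝ) ^ n * y * av Q f) + (2 : ℝ) ^ n * y * y * B ^ 2 := by ring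
    rw [e2, e1]
    have e3 : x * y * B ^ 2 = (x * B) ^ 2 / 2 ^ n := by
      rw [hy]
      ring
    rw [e3]
    have e4 : (x * B) ^ 2 / 2 ^ n ≤ 1 / 3 := by
      rw [div_le_div_iff₀ hp (by norm_num)]
      linarith
    linarith
  refine h2.trans ((mul_le_mul_of_nonneg_left h3 (Real.exp_pos _).le).trans ?_)
  rw [← Real.exp_add]
  have e5 : (2 : ℝ) = Real.exp (Real.log 2) := (Real.exp_log (by norm_num)).symm
  rw [e5, ← Real.exp_add]
  apply Real.exp_le_exp.2
  have e6 := Real.log_two_gt_d9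
  have e7 : (0 : ℝ) ≤ (1 / 2) ^ n := by positivity
  have e8 : Real.exp (Real.log 2) = 2 := Real.exp_log (by norm_num)
  simp only [e8]
  nlinarith

theorem conc {Q : Finset ℕ} {f : Finset ℕ → ℝ} {v s : ℝ} (hv : 0 < v) (hs : 0 ≤ s)
    (h : ∀ T ⊆ Q, ∑ p ∈ Q, (f T - f (fl p T)) ^ 2 ≤ v) :
    pr Q (fun T => f T ≤ av Q f - s) ≤ 2 * Real.exp (-(s / Real.sqrt v)) := by
  have hs0 : 0 < Real.sqrt v := Real.sqrt_pos.2 hv
  set x := 1 / Real.sqrt v with hx
  have hx0 : 0 < x := by positivity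
  have h1 := lap_top hv h
  rw [← hx] at h1
  have h2 := markov (S := Q) (F := fun T => Real.exp (-(x * f T)))
    (c := Real.exp (-(x * (av Q f - s)))) (fun T _ => (Real.exp_pos _).le) (Real.exp_pos _) h1
  refine (pr_mono fun T _ hT => ?_).trans (h2.trans (le_of_eq ?_))
  · apply Real.exp_le_exp.2
    have := mul_le_mul_of_nonneg_left hT hx0.le
    linarith
  · rw [mul_div_assoc, ← Real.exp_sub]
    congr 2
    rw [hx]
    ring

theorem conc_sqrt {Q : Finset ℕ} {F : Finset ℕ → ℝ} {kap s : ℝ} (hk : 0 < kap) (hs : 0 ≤ s) (hF : ∀ T ⊆ Q, 0 ≤ F T)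
    (h : ∀ T ⊆ Q, ∑ p ∈ Q, (F T - F (fl p T)) ^ 2 ≤ kap * F T) :
    pr Q (fun T => Real.sqrt (F T) ≤ Real.sqrt (av Q F) - Real.sqrt kap - s) ≤ 2 * Real.exp (-(s / Real.sqrt kap)) := by
  have key : ∀ a b : ℝ, 0 ≤ a → 0 ≤ b →
      (Real.sqrt a - Real.sqrt b) ^ 2 * a ≤ (a - b) ^ 2 := by
    intro a b ha hb
    have h1 := Real.sq_sqrt ha
    have h2 := Real.sq_sqrt hb
    have h3 := Real.sqrt_nonneg a
    have h4 := Real.sqrt_nonneg b
    have e : (a - b) ^ 2 = (Real.sqrt a - Real.sqrt b) ^ 2 * (Real.sqrt a + Real.sqrt b) ^ 2 := by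
      nth_rewrite 1 [← h1]
      nth_rewrite 1 [← h2]
      ring
    rw [e]
    refine mul_le_mul_of_nonneg_left ?_ (sq_nonneg _)
    nlinarith [mul_nonneg h3 h4]
  have h1 : ∀ T ⊆ Q, ∑ p ∈ Q, (Real.sqrt (F T) - Real.sqrt (F (fl p T))) ^ 2 ≤ kap := by
    intro T hT
    rcases (hF T hT).eq_or_lt with h0 | h0
    · have h2 := h T hT
      rw [← h0, mul_zero] at h2
      have h3 : ∀ p ∈ Q, F (fl p T) = 0 := by
        intro p hp
        have h4 := Finset.single_le_sum (f := fun p => (0 - F (fl p T)) ^ 2)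
          (fun _ _ => sq_nonneg _) hp
        have h5 : (0 - F (fl p T)) ^ 2 ≤ 0 := h4.trans h2
        have h6 : 0 - F (fl p T) = 0 := by
          have := le_antisymm h5 (sq_nonneg _)
          exact pow_eq_zero_iff (two_ne_zero) |>.1 this
        linarith
      rw [Finset.sum_congr rfl fun p hp => by rw [h3 p hp, ← h0, sub_self]]
      simp [hk.le]
    · have h2 : (∑ p ∈ Q, (Real.sqrt (F T) - Real.sqrt (F (fl p T))) ^ 2) * F T ≤ kap * F T := by
        rw [Finset.sum_mul]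
        refine (Finset.sum_le_sum fun p hp => ?_).trans (h T hT)
        exact key _ _ h0.le (hF _ (fl_subset hp hT))
      exact le_of_mul_le_mul_right h2 h0
  have h2 := conc (f := fun T => Real.sqrt (F T)) hk hs h1
  refine (pr_mono fun T _ hT => ?_).trans h2
  have h3 := poincare Q (fun T => Real.sqrt (F T))
  have h4 : av Q (fun T => ∑ p ∈ Q, (Real.sqrt (F T) - Real.sqrt (F (fl p T))) ^ 2) ≤ kap := by
    rw [← av_const Q kap]
    exact av_mono h1
  have h5 : av Q (fun T => Real.sqrt (F T) ^ 2) = av Q F :=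
    av_congr fun T hT => Real.sq_sqrt (hF T hT)
  rw [h5] at h3
  have h6 : 0 ≤ av Q (fun T => Real.sqrt (F T)) := av_nonneg fun _ _ => Real.sqrt_nonneg _
  have h7 : Real.sqrt (av Q F) ≤ av Q (fun T => Real.sqrt (F T)) + Real.sqrt kap := by
    rw [Real.sqrt_le_left (by positivity)]
    have h8 := Real.sq_sqrt hk.le
    nlinarith [mul_nonneg h6 (Real.sqrt_nonneg kap)]
  linarith

end Pool.Agent.Helper96.CM
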