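import Pool.Agent.Helper96.CM.Samp
import Pool.Agent.Helper96.CM.Gf

/-!
# Project CM (MP_a499ba_nt). CM3d: gradient of the truncated mass
-/

set_option autoImplicit false

namespace Pool.Agent.Helper96.CM

open Finset Pool.Agent.Helper5.RM Pool.Agent.Helper96.AF

private lemma sg_fl_self (T : Finset ℕ) (p : ℕ) : sg (fl p T) p = - sg T p := by
  unfold sg fl
  by_cases h : p ∈ T
  · have h1 : p ∉ symmDiff T {p} := by simp [Finset.mem_symmDiff, h]
    rw [if_neg h1, if_pos h]
    ring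
  · have h1 : p ∈ symmDiff T {p} := by simp [Finset.mem_symmDiff, h]
    rw [if_pos h1, if_neg h]

private lemma sg_fl_ne (T : Finset ℕ) {p q : ℕ} (h : q ≠ p) : sg (fl p T) q = sg T q := by
  refine sg_congr ?_
  unfold fl
  simp [Finset.mem_symmDiff, h]

private lemma RR_fl {Q : Finset ℕ} {p : ℕ} (hp : p ∈ Q) (c : ℕ → ℝ) (lam : ℝ) (T : Finset ℕ) (t : ℝ) :
    RR c lam Q (fl p T) t * (1 + sg T p * (lam * tc c p t)) =
      RR c lam Q T t * (1 - sg T p * (lam * tc c p t)) := by
  unfold RR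
  rw [← Finset.mul_prod_erase Q _ hp, ← Finset.mul_prod_erase Q (fun p => 1 + sg T p * (lam * tc c p t)) hp]
  have h : ∏ x ∈ Q.erase p, (1 + sg (fl p T) x * (lam * tc c x t)) =
      ∏ x ∈ Q.erase p, (1 + sg T x * (lam * tc c x t)) :=
    Finset.prod_congr rfl fun x hx => by rw [sg_fl_ne T (Finset.ne_of_mem_erase hx)]
  rw [h, sg_fl_self]
  ring

private lemma XX_fl {Q : Finset ℕ} {p : ℕ} (hp : p ∈ Q) (c tau : ℕ → ℝ) (T : Finset ℕ) (t : ℝ) :
    XX c tau Q (fl p T) t = XX c tau Q T t + 2 * (sg T p * tc c p t) := by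
  unfold XX
  rw [← Finset.add_sum_erase Q _ hp, ← Finset.add_sum_erase Q (fun p => tc c p t * (sg T p - tau p * tc c p t)) hp]
  have h : ∑ x ∈ Q.erase p, tc c x t * (sg (fl p T) x - tau x * tc c x t) =
      ∑ x ∈ Q.erase p, tc c x t * (sg T x - tau x * tc c x t) :=
    Finset.sum_congr rfl fun x hx => by rw [sg_fl_ne T (Finset.ne_of_mem_erase hx)]
  rw [h, sg_fl_self]
  ring

/-- the pointwise expansion -/
private lemma point {G g E rho u lam : ℝ} (hl : 0 ≤ lam) (hl1 : lam ≤ 1) (hu : |u| ≤ 1 / 2)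
    (hg : 0 ≤ g) (hgG : g ≤ G) (hrho : rho * (1 + lam * u) = 1 - lam * u)
    (hE : |E| ≤ 11 * u ^ 2 * G) :
    |G - rho * (G + g * (2 * u) + E) - 2 * u * (lam * G - g)| ≤ 45 * u ^ 2 * G := by
  have hu' := abs_le.1 hu
  have hG : 0 ≤ G := hg.trans hgG
  have h0 : 1 / 2 ≤ 1 + lam * u := by nlinarith
  have h1 : |rho| ≤ 3 := by
    have : rho = (1 - lam * u) / (1 + lam * u) := by
      rw [eq_div_iff (by linarith)]
      exact hrho
    rw [this, abs_div, abs_of_pos (by linarith : 0 < 1 + lam * u), div_le_iff₀ (by linarith)]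
    have h2 : |lam * u| ≤ 1 / 2 := by
      rw [abs_mul, abs_of_nonneg hl]
      have := abs_nonneg u
      nlinarith
    have h3 := abs_le.1 h2
    rw [abs_of_nonneg (by linarith)]
    linarith
  have h2 : |1 - rho| ≤ 4 * |u| := by
    have : 1 - rho = 2 * (lam * u) / (1 + lam * u) := by
      rw [eq_div_iff (by linarith)]
      linear_combination -hrho
    rw [this, abs_div, abs_of_pos (by linarith : 0 < 1 + lam * u), div_le_iff₀ (by linarith), abs_mul, abs_mul,
      abs_of_nonneg hl, abs_of_nonneg (by norm_num : (0 : ℝ) ≤ 2)]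
    have := abs_nonneg u
    nlinarith
  have h3 : |rho - 1 + 2 * lam * u| ≤ 4 * u ^ 2 := by
    have : rho - 1 + 2 * lam * u = 2 * (lam * u) ^ 2 / (1 + lam * u) := by
      rw [eq_div_iff (by linarith)]
      linear_combination hrho
    rw [this, abs_div, abs_of_pos (by linarith : 0 < 1 + lam * u), div_le_iff₀ (by linarith),
      abs_of_nonneg (by positivity)]
    have h5 : (lam * u) ^ 2 ≤ u ^ 2 := by
      rw [mul_pow]
      have : lam ^ 2 ≤ 1 := by nlinarith
      nlinarith [sq_nonneg u]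
    nlinarith [sq_nonneg u]
  have h4 : G - rho * (G + g * (2 * u) + E) - 2 * u * (lam * G - g) =
      -(rho - 1 + 2 * lam * u) * G + (1 - rho) * (2 * u * g) - rho * E := by ring
  rw [h4]
  have h5 : |-(rho - 1 + 2 * lam * u) * G| ≤ 4 * u ^ 2 * G := by
    rw [abs_mul, abs_neg, abs_of_nonneg hG]
    exact mul_le_mul_of_nonneg_right h3 hG
  have h6 : |(1 - rho) * (2 * u * g)| ≤ 8 * u ^ 2 * G := by
    rw [abs_mul, abs_mul, abs_mul, abs_of_nonneg hg, abs_of_nonneg (by norm_num : (0 : ℝ) ≤ 2)]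
    have h7 : 0 ≤ 2 * |u| * g := by positivity
    calc |1 - rho| * (2 * |u| * g) ≤ 4 * |u| * (2 * |u| * g) := mul_le_mul_of_nonneg_right h2 h7
      _ = 8 * u ^ 2 * g := by rw [← sq_abs u]; ring
      _ ≤ 8 * u ^ 2 * G := mul_le_mul_of_nonneg_left hgG (by positivity)
  have h7 : |rho * E| ≤ 33 * u ^ 2 * G := by
    rw [abs_mul]
    calc |rho| * |E| ≤ 3 * (11 * u ^ 2 * G) := mul_le_mul h1 hE (abs_nonneg _) (by norm_num)
      _ = 33 * u ^ 2 * G := by ring
  calc |-(rho - 1 + 2 * lam * u) * G + (1 - rho) * (2 * u * g) - rho * E|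
      ≤ |-(rho - 1 + 2 * lam * u) * G| + |(1 - rho) * (2 * u * g)| + |rho * E| := by
        refine (abs_sub _ _).trans ?_
        exact add_le_add (abs_add_le _ _) le_rfl
    _ ≤ 45 * u ^ 2 * G := by linarith

private lemma BL_sum_sq (l : ℕ) : ∑ p ∈ BL l, ((p : ℝ) ^ 2)⁻¹ ≤ 1 / 2 ^ l := by
  have h1 : BL l ⊆ Finset.Ioc (Y l) (Y (l + 1)) := by
    intro p hp
    rw [mem_BL] at hp
    rw [Finset.mem_Ioc]
    exact ⟨hp.2.1, hp.2.2⟩
  have h2 := two_le_Y l
  have h3 : ∑ p ∈ BL l, ((p : ℝ) ^ 2)⁻¹ ≤ ∑ p ∈ Finset.Ioc (Y l) (Y (l + 1)), ((p : ℝ) ^ 2)⁻¹ :=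
    Finset.sum_le_sum_of_subset_of_nonneg h1 fun _ _ _ => by positivity
  have h4 : ∑ p ∈ Finset.Ioc (Y l) (Y (l + 1)), ((p : ℝ) ^ 2)⁻¹ ≤ ((Y l : ℕ) : ℝ)⁻¹ - ((Y (l + 1) : ℕ) : ℝ)⁻¹ :=
    sum_Ioc_inv_sq_le_sub (by omega) (Y_mono (Nat.le_succ l))
  have h5 : (2 : ℝ) ^ l ≤ (Y l : ℝ) := by
    have : 2 ^ l ≤ Y l := by
      unfold Y
      exact Nat.pow_le_pow_right (by norm_num) (Nat.lt_pow_self (by norm_num)).le
    exact_mod_cast this
  have h6 : ((Y l : ℕ) : ℝ)⁻¹ ≤ 1 / 2 ^ l := by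
    rw [one_div]
    exact inv_anti₀ (by positivity) h5
  have h7 : 0 ≤ ((Y (l + 1) : ℕ) : ℝ)⁻¹ := by positivity
  linarith

theorem gradient : ∃ C : ℝ, 0 < C ∧ ∀ (c tau : ℕ → ℝ) (lam om a b M : ℝ) (w : ℝ → ℝ) (S : Finset ℕ) (l : ℕ),
    Adm c → 0 ≤ lam → lam ≤ 1 → 0 < om → om ≤ 1 / 4 → 0 ≤ a → a ≤ b → b ≤ 1 → Continuous w →
    (∀ t, 0 ≤ w t ∧ w t ≤ 2) → 2 ≤ l → Disjoint S (BL l) → (∀ p ∈ S, 2 ≤ p) →
    (∀ T ⊆ S ∪ BL l, ∀ t ∈ Set.Icc a b, RR c lam (S ∪ BL l) T t * Gf om (XX c tau (S ∪ BL l) T t) ≤ M) →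
    ∀ T ⊆ S ∪ BL l, ∑ p ∈ BL l, (FF c tau lam om a b w (S ∪ BL l) T - FF c tau lam om a b w (S ∪ BL l) (fl p T)) ^ 2 ≤
      C / 2 ^ l * M * FF c tau lam om a b w (S ∪ BL l) T := by
  obtain ⟨C1, hC1, hsamp⟩ := sampling
  refine ⟨16 * C1 + 129600, by positivity, ?_⟩
  intro c tau lam om a b M w S l hc hl hl1 hom hom1 ha hab hb hw hw2 hl2 hdis hS hM T hT
  set Q := S ∪ BL l with hQ
  have hQ2 : ∀ p ∈ Q, 2 ≤ p := by
    intro p hp
    rcases Finset.mem_union.1 hp with h | h
    · exact hS p h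
    · exact ((mem_BL.1 h).1).two_le
  have hcR : ∀ T, Continuous (RR c lam Q T) := continuous_RR c lam Q
  have hcX : ∀ T, Continuous (XX c tau Q T) := continuous_XX c tau Q
  have hcG := continuous_Gf hom.le
  have hcg := continuous_Gd hom.le
  have hRp : ∀ T t, 0 < RR c lam Q T t := fun T t => RR_pos hc hl hl1 hQ2 T t
  have hcRG : ∀ T, Continuous fun t => w t * (RR c lam Q T t * Gf om (XX c tau Q T t)) := fun T =>
    hw.mul ((hcR T).mul (hcG.comp (hcX T)))
  set k : ℝ → ℝ := fun t => w t * (RR c lam Q T t * (lam * Gf om (XX c tau Q T t) - Gd om (XX c tau Q T t))) with hk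
  have hck : Continuous k :=
    hw.mul ((hcR T).mul ((continuous_const.mul (hcG.comp (hcX T))).sub (hcg.comp (hcX T))))
  set F := FF c tau lam om a b w Q T with hF
  have hFdef : F = ∫ t in a..b, w t * (RR c lam Q T t * Gf om (XX c tau Q T t)) := rfl
  have hRG0 : ∀ t, 0 ≤ w t * (RR c lam Q T t * Gf om (XX c tau Q T t)) := fun t =>
    mul_nonneg (hw2 t).1 (mul_nonneg (hRp T t).le (Gf_pos hom _).le)
  have hF0 : 0 ≤ F := by
    rw [hFdef]
    exact intervalIntegral.integral_nonneg hab fun t _ => hRG0 t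
  have hM0 : 0 ≤ M := (mul_nonneg (hRp T a).le (Gf_pos hom _).le).trans (hM T hT a ⟨le_rfl, hab⟩)
  have hF1 : F ≤ 2 * M := by
    rw [hFdef]
    have h1 : ∫ t in a..b, w t * (RR c lam Q T t * Gf om (XX c tau Q T t)) ≤ ∫ _ in a..b, 2 * M := by
      refine intervalIntegral.integral_mono_on hab ((hcRG T).intervalIntegrable _ _)
        (continuous_const.intervalIntegrable _ _) fun t ht => ?_
      exact mul_le_mul (hw2 t).2 (hM T hT t ht) (mul_nonneg (hRp T t).le (Gf_pos hom _).le) (by norm_num)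
    refine h1.trans ?_
    rw [intervalIntegral.integral_const, smul_eq_mul]
    nlinarith
  have hkk : ∫ t in a..b, k t ^ 2 ≤ 2 * M * F := by
    rw [hFdef, ← intervalIntegral.integral_const_mul]
    refine intervalIntegral.integral_mono_on hab ((hck.pow 2).intervalIntegrable _ _)
      ((continuous_const.mul (hcRG T)).intervalIntegrable _ _) fun t ht => ?_
    have h1 := Gf_pos hom (XX c tau Q T t)
    have h2 := Gd_nonneg hom (XX c tau Q T t)
    have h3 := Gd_le hom (XX c tau Q T t)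
    have h4 := hM T hT t ht
    have h5 := hRp T t
    have h6 : |lam * Gf om (XX c tau Q T t) - Gd om (XX c tau Q T t)| ≤ Gf om (XX c tau Q T t) := by
      rw [abs_le]
      constructor
      · nlinarith
      · nlinarith
    have h7 : |k t| ≤ w t * (RR c lam Q T t * Gf om (XX c tau Q T t)) := by
      rw [hk]
      simp only
      rw [abs_mul, abs_mul, abs_of_nonneg (hw2 t).1, abs_of_pos h5]
      exact mul_le_mul_of_nonneg_left (mul_le_mul_of_nonneg_left h6 h5.le) (hw2 t).1
    have h8 : w t * (RR c lam Q T t * Gf om (XX c tau Q T t)) ≤ 2 * M :=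
      mul_le_mul (hw2 t).2 h4 (mul_nonneg h5.le h1.le) (by norm_num)
    calc k t ^ 2 = |k t| ^ 2 := (sq_abs _).symm
      _ ≤ (w t * (RR c lam Q T t * Gf om (XX c tau Q T t))) ^ 2 := pow_le_pow_left₀ (abs_nonneg _) h7 2
      _ = (w t * (RR c lam Q T t * Gf om (XX c tau Q T t))) * (w t * (RR c lam Q T t * Gf om (XX c tau Q T t))) := sq _
      _ ≤ 2 * M * (w t * (RR c lam Q T t * Gf om (XX c tau Q T t))) :=
        mul_le_mul_of_nonneg_right h8 (hRG0 t)
  have hstep : ∀ p ∈ BL l, (F - FF c tau lam om a b w Q (fl p T)) ^ 2 ≤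
      8 * (∫ t in a..b, tc c p t * k t) ^ 2 + 64800 * F ^ 2 * ((p : ℝ) ^ 2)⁻¹ := by
    intro p hp
    have hpQ : p ∈ Q := Finset.mem_union_right _ hp
    have hp16 : 16 ≤ p := sixteen_le_of hl2 (mem_BL.1 hp).2.1
    have hp1 : 1 ≤ p := by omega
    have hpp : (0 : ℝ) < p := by exact_mod_cast hp1
    have hE1 : |F - FF c tau lam om a b w Q (fl p T) - 2 * (sg T p * ∫ t in a..b, tc c p t * k t)| ≤ 180 / p * F := by
      have h1 : F - FF c tau lam om a b w Q (fl p T) - 2 * (sg T p * ∫ t in a..b, tc c p t * k t) =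
          ∫ t in a..b, (w t * (RR c lam Q T t * Gf om (XX c tau Q T t)) -
            w t * (RR c lam Q (fl p T) t * Gf om (XX c tau Q (fl p T) t)) -
            2 * (sg T p * (tc c p t * k t))) := by
        rw [intervalIntegral.integral_sub, intervalIntegral.integral_sub, intervalIntegral.integral_const_mul,
          intervalIntegral.integral_const_mul]
        · rfl
        · exact (hcRG T).intervalIntegrable _ _
        · exact (hcRG _).intervalIntegrable _ _
        · exact ((hcRG T).sub (hcRG _)).intervalIntegrable _ _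
        · exact (continuous_const.mul (continuous_const.mul ((continuous_tc c p).mul hck))).intervalIntegrable _ _
      rw [h1]
      have h2 : ∀ t ∈ Set.Icc a b, |w t * (RR c lam Q T t * Gf om (XX c tau Q T t)) -
            w t * (RR c lam Q (fl p T) t * Gf om (XX c tau Q (fl p T) t)) -
            2 * (sg T p * (tc c p t * k t))| ≤ 180 / p * (w t * (RR c lam Q T t * Gf om (XX c tau Q T t))) := by
        intro t _
        set u := sg T p * tc c p t with hu
        have hu2 : u ^ 2 = tc c p t ^ 2 := by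
          rw [hu, mul_pow, sg_sq, one_mul]
        have hu3 : |u| ≤ 1 / 2 := by
          rw [hu, abs_mul, abs_sg, one_mul]
          exact abs_tc_le_half hc hp16 t
        have hu4 : u ^ 2 ≤ 4 / p := by
          rw [hu2]
          exact tc_sq_le hc hp1 t
        set X := XX c tau Q T t with hX
        set R := RR c lam Q T t with hR
        have hR0 : 0 < R := hRp T t
        set rho := RR c lam Q (fl p T) t / R with hrho
        have hR' : RR c lam Q (fl p T) t = R * rho := by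
          rw [hrho, mul_div_cancel₀ _ hR0.ne']
        have hrho1 : rho * (1 + lam * u) = 1 - lam * u := by
          have := RR_fl hpQ c lam T t
          rw [hR', ← hR] at this
          have h4 : R * (rho * (1 + lam * u)) = R * (1 - lam * u) := by
            rw [hu]
            linear_combination this
          exact mul_left_cancel₀ hR0.ne' h4
        have hX' : XX c tau Q (fl p T) t = X + 2 * u := XX_fl hpQ c tau T t
        have hG0 := Gf_pos hom X
        have htay := Gf_taylor hom hom1 X (X + 2 * u)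
        have he : Real.exp |X + 2 * u - X| * (X + 2 * u - X) ^ 2 * Gf om X ≤ 11 * u ^ 2 * Gf om X := by
          refine mul_le_mul_of_nonneg_right ?_ hG0.le
          have h5 : X + 2 * u - X = 2 * u := by ring
          rw [h5]
          have h6 : Real.exp |2 * u| ≤ 2.75 := by
            have h7 : |2 * u| ≤ 1 := by
              rw [abs_mul, abs_of_nonneg (by norm_num : (0 : ℝ) ≤ 2)]
              linarith
            exact (Real.exp_le_exp.2 h7).trans (by linarith [Real.exp_one_lt_d9])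
          nlinarith [sq_nonneg u]
        have hpt := point hl hl1 hu3 (Gd_nonneg hom X) (Gd_le hom X) hrho1 (htay.trans he)
        have h8 : Gf om X + Gd om X * (2 * u) + (Gf om (X + 2 * u) - Gf om X - Gd om X * (X + 2 * u - X)) =
            Gf om (X + 2 * u) := by ring
        rw [h8] at hpt
        rw [hX', hR']
        have h9 : w t * (R * Gf om X) - w t * (R * rho * Gf om (X + 2 * u)) - 2 * (sg T p * (tc c p t * k t)) =
            w t * (R * (Gf om X - rho * Gf om (X + 2 * u) - 2 * u * (lam * Gf om X - Gd om X))) := by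
          rw [hk, hu]
          simp only
          ring
        rw [h9, abs_mul, abs_mul, abs_of_nonneg (hw2 t).1, abs_of_pos hR0]
        have h10 : 45 * u ^ 2 * Gf om X ≤ 180 / p * Gf om X := by
          refine mul_le_mul_of_nonneg_right ?_ hG0.le
          calc 45 * u ^ 2 ≤ 45 * (4 / p) := mul_le_mul_of_nonneg_left hu4 (by norm_num)
            _ = 180 / p := by ring
        calc w t * (R * |Gf om X - rho * Gf om (X + 2 * u) - 2 * u * (lam * Gf om X - Gd om X)|)
            ≤ w t * (R * (180 / p * Gf om X)) :=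
              mul_le_mul_of_nonneg_left (mul_le_mul_of_nonneg_left (hpt.trans h10) hR0.le) (hw2 t).1
          _ = 180 / p * (w t * (R * Gf om X)) := by ring
      refine (intervalIntegral.abs_integral_le_integral_abs hab).trans ?_
      rw [hFdef, ← intervalIntegral.integral_const_mul]
      refine intervalIntegral.integral_mono_on hab ?_ ((continuous_const.mul (hcRG T)).intervalIntegrable _ _) h2
      exact (((hcRG T).sub (hcRG _)).sub
        (continuous_const.mul (continuous_const.mul ((continuous_tc c p).mul hck)))).abs.intervalIntegrable _ _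
    set D := F - FF c tau lam om a b w Q (fl p T) with hD
    set A := ∫ t in a..b, tc c p t * k t with hA
    have h2 : D ^ 2 ≤ 2 * (2 * (sg T p * A)) ^ 2 + 2 * (D - 2 * (sg T p * A)) ^ 2 := by
      nlinarith [sq_nonneg (2 * (sg T p * A) - (D - 2 * (sg T p * A)))]
    have h3 : (D - 2 * (sg T p * A)) ^ 2 ≤ (180 / p * F) ^ 2 := by
      rw [← sq_abs]
      exact pow_le_pow_left₀ (abs_nonneg _) hE1 2
    have h4 : (2 * (sg T p * A)) ^ 2 = 4 * A ^ 2 := by
      rw [mul_pow, mul_pow, sg_sq]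
      ring
    have h5 : (180 / p * F) ^ 2 = 32400 * F ^ 2 * ((p : ℝ) ^ 2)⁻¹ := by
      rw [mul_pow, div_pow, div_eq_mul_inv]
      ring
    rw [h4] at h2
    rw [h5] at h3
    linarith
  calc ∑ p ∈ BL l, (F - FF c tau lam om a b w Q (fl p T)) ^ 2
      ≤ ∑ p ∈ BL l, (8 * (∫ t in a..b, tc c p t * k t) ^ 2 + 64800 * F ^ 2 * ((p : ℝ) ^ 2)⁻¹) :=
        Finset.sum_le_sum hstep
    _ = 8 * ∑ p ∈ BL l, (∫ t in a..b, tc c p t * k t) ^ 2 + 64800 * F ^ 2 * ∑ p ∈ BL l, ((p : ℝ) ^ 2)⁻¹ := by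
        rw [Finset.sum_add_distrib, ← Finset.mul_sum, ← Finset.mul_sum]
    _ ≤ 8 * (C1 / 2 ^ l * (2 * M * F)) + 64800 * (2 * M * F) * (1 / 2 ^ l) := by
        have h1 := hsamp c hc a b (by linarith) hab hb k hck l
        have h2 : C1 / 2 ^ l * ∫ t in a..b, k t ^ 2 ≤ C1 / 2 ^ l * (2 * M * F) :=
          mul_le_mul_of_nonneg_left hkk (by positivity)
        have h3 : F ^ 2 ≤ 2 * M * F := by nlinarith
        have h4 := BL_sum_sq l
        have h5 : 64800 * F ^ 2 * ∑ p ∈ BL l, ((p : ℝ) ^ 2)⁻¹ ≤ 64800 * (2 * M * F) * (1 / 2 ^ l) := by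
          refine mul_le_mul (by linarith) h4 (Finset.sum_nonneg fun _ _ => by positivity) (by positivity)
        linarith
    _ = (16 * C1 + 129600) / 2 ^ l * M * F := by ring

end Pool.Agent.Helper96.CM
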