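import Pool.Agent.Helper96.AF.ZI
import Pool.Agent.Helper96.AF.E2
import Pool.Agent.Helper96.AF.E3
import Pool.Agent.Helper96.AF.E5
import Pool.Agent.Helper66.AF.TW

/-!
# Project CM (MP_a499ba_nt): lower bound for the critical chaos of the random Euler product. Definitions
-/

set_option autoImplicit false

namespace Pool.Agent.Helper96.CM

open Finset Pool.Agent.Helper5.RM Pool.Agent.Helper96.AF

/-- admissible coefficients -/
def Adm (c : ℕ → ℝ) : Prop := ∀ p : ℕ, 0 ≤ c p ∧ c p ≤ 2 * Real.sqrt p / (p + 1)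

noncomputable def tc (c : ℕ → ℝ) (p : ℕ) (t : ℝ) : ℝ := c p * Real.cos (t * Real.log p)

/-- the normalised Euler product -/
noncomputable def dc (c : ℕ → ℝ) (S T : Finset ℕ) (t : ℝ) : ℝ := ∏ p ∈ S, (1 + sg T p * tc c p t)

/-- the primes in `(Y s, Y l]` -/
noncomputable def WB (s l : ℕ) : Finset ℕ := PP (Y l) \ PP (Y s)

noncomputable def Lf (x : ℝ) : ℝ := Real.log (1 + Real.exp x)

/-- the truncation function: comparable with `min 1 (om * (1 + x))` for `x ≥ 0` and `om * exp x` for `x ≤ 0` -/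
noncomputable def Gf (om x : ℝ) : ℝ := 1 - 1 / (1 + om * Lf x + (om * Lf x) ^ 2)

/-- the derivative of `Gf om` -/
noncomputable def Gd (om x : ℝ) : ℝ :=
  om * (Real.exp x / (1 + Real.exp x)) * (1 + 2 * (om * Lf x)) / (1 + om * Lf x + (om * Lf x) ^ 2) ^ 2

/-- the density of the tilt -/
noncomputable def RR (c : ℕ → ℝ) (lam : ℝ) (S T : Finset ℕ) (t : ℝ) : ℝ :=
  ∏ p ∈ S, (1 + sg T p * (lam * tc c p t))

/-- the distance to the barrier -/
noncomputable def XX (c tau : ℕ → ℝ) (S T : Finset ℕ) (t : ℝ) : ℝ :=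
  - ∑ p ∈ S, tc c p t * (sg T p - tau p * tc c p t)

/-- the truncated mass -/
noncomputable def FF (c tau : ℕ → ℝ) (lam om a b : ℝ) (w : ℝ → ℝ) (S T : Finset ℕ) : ℝ :=
  ∫ t in a..b, w t * (RR c lam S T t * Gf om (XX c tau S T t))

/-- flip the sign of `p` -/
def fl (p : ℕ) (T : Finset ℕ) : Finset ℕ := symmDiff T {p}

/-! ### basic facts -/

lemma abs_tc_le {c : ℕ → ℝ} (hc : Adm c) (p : ℕ) (t : ℝ) : |tc c p t| ≤ 2 * Real.sqrt p / (p + 1) := by
  unfold tc
  rw [abs_mul, abs_of_nonneg (hc p).1]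
  exact (mul_le_of_le_one_right (hc p).1 (Real.abs_cos_le_one _)).trans (hc p).2

lemma tc_sq_le {c : ℕ → ℝ} (hc : Adm c) {p : ℕ} (hp : 1 ≤ p) (t : ℝ) : tc c p t ^ 2 ≤ 4 / p := by
  have h0 : (1 : ℝ) ≤ p := by exact_mod_cast hp
  have h1 : tc c p t ^ 2 ≤ (2 * Real.sqrt p / (p + 1)) ^ 2 := by
    rw [← sq_abs]
    exact pow_le_pow_left₀ (abs_nonneg _) (abs_tc_le hc p t) 2
  refine h1.trans ?_
  rw [div_pow, mul_pow, Real.sq_sqrt (by positivity), div_le_div_iff₀ (by positivity) (by positivity)]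
  nlinarith

lemma abs_tc_le' {c : ℕ → ℝ} (hc : Adm c) {p : ℕ} (hp : 1 ≤ p) (t : ℝ) : |tc c p t| ≤ 2 / Real.sqrt p := by
  have h0 : (1 : ℝ) ≤ p := by exact_mod_cast hp
  have h1 := tc_sq_le hc hp t
  have h2 : 0 < Real.sqrt p := Real.sqrt_pos.2 (by linarith)
  refine abs_le_of_sq_le_sq ?_ (by positivity)
  rw [div_pow, Real.sq_sqrt (by positivity)]
  norm_num
  exact h1

lemma abs_tc_lt_one {c : ℕ → ℝ} (hc : Adm c) {p : ℕ} (hp : 2 ≤ p) (t : ℝ) : |tc c p t| < 1 := by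
  have h0 : (2 : ℝ) ≤ p := by exact_mod_cast hp
  refine (abs_tc_le hc p t).trans_lt ?_
  rw [div_lt_one (by positivity)]
  have h1 : Real.sqrt p ^ 2 = p := Real.sq_sqrt (by positivity)
  have h2 : 1 < Real.sqrt p := by
    rw [Real.lt_sqrt (by norm_num)]
    linarith
  nlinarith

/-- for `p ≥ 16` -/
lemma abs_tc_le_half {c : ℕ → ℝ} (hc : Adm c) {p : ℕ} (hp : 16 ≤ p) (t : ℝ) : |tc c p t| ≤ 1 / 2 := by
  refine (abs_tc_le' hc (by omega) t).trans ?_
  have h0 : (16 : ℝ) ≤ p := by exact_mod_cast hp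
  have h2 : 4 ≤ Real.sqrt p := by
    rw [Real.le_sqrt' (by norm_num)]
    linarith
  rw [div_le_div_iff₀ (by linarith) (by norm_num)]
  linarith

lemma continuous_tc (c : ℕ → ℝ) (p : ℕ) : Continuous (tc c p) := by
  unfold tc
  fun_prop

lemma continuous_RR (c : ℕ → ℝ) (lam : ℝ) (S T : Finset ℕ) : Continuous (RR c lam S T) := by
  unfold RR
  refine continuous_finsetProd _ fun p _ => ?_
  exact continuous_const.add (continuous_const.mul (continuous_const.mul (continuous_tc c p)))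

lemma continuous_dc (c : ℕ → ℝ) (S T : Finset ℕ) : Continuous (dc c S T) := by
  unfold dc
  refine continuous_finsetProd _ fun p _ => ?_
  exact continuous_const.add (continuous_const.mul (continuous_tc c p))

lemma continuous_XX (c tau : ℕ → ℝ) (S T : Finset ℕ) : Continuous (XX c tau S T) := by
  unfold XX
  refine (continuous_finsetSum _ fun p _ => ?_).neg
  exact (continuous_tc c p).mul (continuous_const.sub (continuous_const.mul (continuous_tc c p)))

lemma continuous_Lf : Continuous Lf := by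
  unfold Lf
  refine Continuous.log (by fun_prop) fun x => ?_
  positivity

lemma Lf_pos (x : ℝ) : 0 < Lf x := Real.log_pos (by linarith [Real.exp_pos x])

lemma den_pos {om : ℝ} (hom : 0 ≤ om) (x : ℝ) : 1 ≤ 1 + om * Lf x + (om * Lf x) ^ 2 := by
  have h1 := Lf_pos x
  have h2 : 0 ≤ om * Lf x := by positivity
  nlinarith [sq_nonneg (om * Lf x)]

lemma continuous_Gf {om : ℝ} (hom : 0 ≤ om) : Continuous (Gf om) := by
  unfold Gf
  refine continuous_const.sub (Continuous.div continuous_const ?_ fun x => ?_)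
  · exact (continuous_const.add (continuous_const.mul continuous_Lf)).add ((continuous_const.mul continuous_Lf).pow 2)
  · have := den_pos hom x
    linarith

lemma continuous_Gd {om : ℝ} (hom : 0 ≤ om) : Continuous (Gd om) := by
  unfold Gd
  refine Continuous.div ?_ ?_ fun x => ?_
  · refine (continuous_const.mul (Continuous.div Real.continuous_exp (by fun_prop) fun x => ?_)).mul ?_
    · positivity
    · exact continuous_const.add (continuous_const.mul (continuous_const.mul continuous_Lf))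
  · exact ((continuous_const.add (continuous_const.mul continuous_Lf)).add
      ((continuous_const.mul continuous_Lf).pow 2)).pow 2
  · have := den_pos hom x
    positivity

lemma RR_pos {c : ℕ → ℝ} (hc : Adm c) {lam : ℝ} (h0 : 0 ≤ lam) (h1 : lam ≤ 1) {S : Finset ℕ} (hS : ∀ p ∈ S, 2 ≤ p)
    (T : Finset ℕ) (t : ℝ) : 0 < RR c lam S T t := by
  unfold RR
  refine Finset.prod_pos fun p hp => ?_
  have h2 := abs_tc_lt_one hc (hS p hp) t
  have h3 : |sg T p * (lam * tc c p t)| < 1 := by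
    rw [abs_mul, abs_sg, one_mul, abs_mul, abs_of_nonneg h0]
    have := abs_nonneg (tc c p t)
    nlinarith
  linarith [(abs_lt.1 h3).1]

lemma dc_pos {c : ℕ → ℝ} (hc : Adm c) {S : Finset ℕ} (hS : ∀ p ∈ S, 2 ≤ p)
    (T : Finset ℕ) (t : ℝ) : 0 < dc c S T t := by
  have h := RR_pos hc (lam := 1) zero_le_one le_rfl hS T t
  unfold RR at h
  simpa [dc] using h

lemma dc_eq_RR (c : ℕ → ℝ) (S T : Finset ℕ) (t : ℝ) : dc c S T t = RR c 1 S T t := by
  unfold dc RR
  simp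

lemma RR_union {S S' : Finset ℕ} (h : Disjoint S S') (c : ℕ → ℝ) (lam : ℝ) (T : Finset ℕ) (t : ℝ) :
    RR c lam (S ∪ S') T t = RR c lam S T t * RR c lam S' T t := by
  unfold RR
  rw [Finset.prod_union h]

lemma dc_union {S S' : Finset ℕ} (h : Disjoint S S') (c : ℕ → ℝ) (T : Finset ℕ) (t : ℝ) :
    dc c (S ∪ S') T t = dc c S T t * dc c S' T t := by
  unfold dc
  rw [Finset.prod_union h]

lemma XX_union {S S' : Finset ℕ} (h : Disjoint S S') (c tau : ℕ → ℝ) (T : Finset ℕ) (t : ℝ) :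
    XX c tau (S ∪ S') T t = XX c tau S T t + XX c tau S' T t := by
  unfold XX
  rw [Finset.sum_union h]
  ring

lemma RR_congr {S T T' : Finset ℕ} (h : ∀ p ∈ S, (p ∈ T ↔ p ∈ T')) (c : ℕ → ℝ) (lam t : ℝ) :
    RR c lam S T t = RR c lam S T' t := by
  unfold RR
  exact Finset.prod_congr rfl fun p hp => by rw [sg_congr (h p hp)]

lemma dc_congr {S T T' : Finset ℕ} (h : ∀ p ∈ S, (p ∈ T ↔ p ∈ T')) (c : ℕ → ℝ) (t : ℝ) :
    dc c S T t = dc c S T' t := by
  unfold dc
  exact Finset.prod_congr rfl fun p hp => by rw [sg_congr (h p hp)]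

lemma XX_congr {S T T' : Finset ℕ} (h : ∀ p ∈ S, (p ∈ T ↔ p ∈ T')) (c tau : ℕ → ℝ) (t : ℝ) :
    XX c tau S T t = XX c tau S T' t := by
  unfold XX
  congr 1
  exact Finset.sum_congr rfl fun p hp => by rw [sg_congr (h p hp)]

lemma FF_congr {S T T' : Finset ℕ} (h : ∀ p ∈ S, (p ∈ T ↔ p ∈ T')) (c tau : ℕ → ℝ) (lam om a b : ℝ) (w : ℝ → ℝ) :
    FF c tau lam om a b w S T = FF c tau lam om a b w S T' := by
  unfold FF
  refine intervalIntegral.integral_congr fun t _ => ?_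
  simp only [RR_congr h, XX_congr h]

lemma mem_WB {s l p : ℕ} : p ∈ WB s l ↔ p.Prime ∧ Y s < p ∧ p ≤ Y l := by
  unfold WB
  rw [Finset.mem_sdiff, mem_PP, mem_PP]
  constructor
  · rintro ⟨⟨h1, h2⟩, h3⟩
    refine ⟨h1, ?_, h2⟩
    by_contra h4
    exact h3 ⟨h1, by omega⟩
  · rintro ⟨h1, h2, h3⟩
    exact ⟨⟨h1, h3⟩, fun h => by omega⟩

lemma WB_self (s : ℕ) : WB s s = ∅ := by
  unfold WB
  simp

lemma WB_succ {s l : ℕ} (h : s ≤ l) : WB s (l + 1) = WB s l ∪ BL l := by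
  ext p
  rw [Finset.mem_union, mem_WB, mem_WB, mem_BL]
  have h1 := Y_mono h
  have h2 := Y_mono (Nat.le_succ l)
  constructor
  · rintro ⟨a, b, c⟩
    by_cases h3 : p ≤ Y l
    · exact Or.inl ⟨a, b, h3⟩
    · exact Or.inr ⟨a, by omega, c⟩
  · rintro (⟨a, b, c⟩ | ⟨a, b, c⟩)
    · exact ⟨a, b, c.trans h2⟩
    · exact ⟨a, by omega, c⟩

lemma WB_disj (s l : ℕ) : Disjoint (WB s l) (BL l) := by
  rw [Finset.disjoint_left]
  intro p hp hq
  rw [mem_WB] at hp
  rw [mem_BL] at hq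
  omega

lemma WB_mono {s l l' : ℕ} (h : l ≤ l') : WB s l ⊆ WB s l' := by
  intro p hp
  rw [mem_WB] at hp ⊢
  exact ⟨hp.1, hp.2.1, hp.2.2.trans (Y_mono h)⟩

lemma WB_sub_PP (s l : ℕ) : WB s l ⊆ PP (Y l) := Finset.sdiff_subset

lemma PP_eq_union {s l : ℕ} (h : s ≤ l) : PP (Y l) = PP (Y s) ∪ WB s l := by
  unfold WB
  rw [Finset.union_sdiff_of_subset (PP_Y_mono h)]

lemma PP_WB_disj (s l : ℕ) : Disjoint (PP (Y s)) (WB s l) := by
  unfold WB
  exact Finset.disjoint_sdiff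

lemma two_le_WB {s l p : ℕ} (h : p ∈ WB s l) : 2 ≤ p := (mem_WB.1 h).1.two_le

lemma sixteen_le_of {s p : ℕ} (hs : 2 ≤ s) (h : Y s < p) : 16 ≤ p := by
  have h1 := Y_mono hs
  have h2 : Y 2 = 16 := by unfold Y; norm_num
  omega

end Pool.Agent.Helper96.CM
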