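import Pool.Agent.Helper96.CM.Step

/-!
# Project CM (MP_a499ba_nt). CM2b: mean of one level
-/

set_option autoImplicit false

namespace Pool.Agent.Helper96.CM

open Finset Pool.Agent.Helper5.RM Pool.Agent.Helper96.AF

private lemma av_interval67 (S : Finset ℕ) (a b : ℝ) (G : Finset ℕ → ℝ → ℝ) (hG : ∀ T, Continuous (G T)) :
    av S (fun T => ∫ t in a..b, G T t) = ∫ t in a..b, av S (fun T => G T t) := by
  unfold av
  rw [intervalIntegral.integral_div, intervalIntegral.integral_finsetSum]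
  intro T _
  exact (hG T).intervalIntegrable a b

private lemma continuous_av67 (S : Finset ℕ) (G : Finset ℕ → ℝ → ℝ) (hG : ∀ T, Continuous (G T)) :
    Continuous (fun t => av S (fun T => G T t)) := by
  unfold av
  exact (continuous_finsetSum _ fun T _ => hG T).div_const _

private lemma sum_tc_sq67 {c : ℕ → ℝ} (hc : Adm c) {C1 : ℝ} {l : ℕ} (h1 : ∑ p ∈ BL l, (1 : ℝ) / p ≤ C1) (t : ℝ) :
    ∑ p ∈ BL l, tc c p t ^ 2 ≤ 4 * C1 := by
  calc ∑ p ∈ BL l, tc c p t ^ 2 ≤ ∑ p ∈ BL l, 4 * ((1 : ℝ) / p) := by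
        refine Finset.sum_le_sum fun p hp => ?_
        have h2 := tc_sq_le hc (p := p) (mem_BL.1 hp).1.one_lt.le t
        refine h2.trans (le_of_eq ?_)
        ring
    _ = 4 * ∑ p ∈ BL l, (1 : ℝ) / p := by rw [Finset.mul_sum]
    _ ≤ 4 * C1 := by linarith

theorem mean_step : ∃ C : ℝ, 0 < C ∧ ∀ (c tau : ℕ → ℝ) (lam om a b : ℝ) (w : ℝ → ℝ) (S : Finset ℕ) (l : ℕ),
    Adm c → 0 ≤ lam → lam ≤ 1 → 0 < om → om ≤ 1 / 4 → a ≤ b → Continuous w → (∀ t, 0 ≤ w t) →
    Disjoint S (BL l) → (∀ p ∈ S, 2 ≤ p) → (∀ p ∈ BL l, tau p = lam) → ∀ T0 ⊆ S,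
    (1 - C * om ^ 2) * FF c tau lam om a b w S T0 ≤
      av (BL l) (fun T => FF c tau lam om a b w (S ∪ BL l) (T0 ∪ T)) := by
  obtain ⟨C1, hC1, hb⟩ := block_sum
  refine ⟨12 * Real.exp (16 * (4 * C1)), by positivity, ?_⟩
  intro c tau lam om a b w S l hc hl0 hl1 hom hom4 hab hw hw0 hdis hS htau T0 hT0
  set C := 12 * Real.exp (16 * (4 * C1)) with hC
  have hcont : ∀ (S' T' : Finset ℕ), Continuous fun t => w t * (RR c lam S' T' t * Gf om (XX c tau S' T' t)) :=
    fun S' T' => hw.mul ((continuous_RR c lam S' T').mul ((continuous_Gf hom.le).comp (continuous_XX c tau S' T')))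
  unfold FF
  rw [av_interval67 _ _ _ _ fun T => hcont _ _, ← intervalIntegral.integral_const_mul]
  refine intervalIntegral.integral_mono hab ((continuous_const.mul (hcont S T0)).intervalIntegrable a b)
    ((continuous_av67 _ _ fun T => hcont _ _).intervalIntegrable a b) fun t => ?_
  -- fixed `t`
  have hmem : ∀ T ⊆ BL l, ∀ p ∈ S, (p ∈ T0 ∪ T ↔ p ∈ T0) := by
    intro T hT p hp
    rw [Finset.mem_union]
    exact ⟨fun h => h.elim id fun h => absurd (hT h) (Finset.disjoint_left.1 hdis hp), Or.inl⟩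
  have hmem' : ∀ T : Finset ℕ, ∀ p ∈ BL l, (p ∈ T0 ∪ T ↔ p ∈ T) := by
    intro T p hp
    rw [Finset.mem_union]
    exact ⟨fun h => h.elim (fun h => absurd hp (Finset.disjoint_left.1 hdis (hT0 h))) id, Or.inr⟩
  have e1 : av (BL l) (fun T => w t * (RR c lam (S ∪ BL l) (T0 ∪ T) t * Gf om (XX c tau (S ∪ BL l) (T0 ∪ T) t))) =
      (w t * RR c lam S T0 t) * av (BL l) (fun T => (∏ p ∈ BL l, (1 + sg T p * (lam * tc c p t))) *
        Gf om (XX c tau S T0 t - ∑ p ∈ BL l, tc c p t * (sg T p - lam * tc c p t))) := by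
    rw [← av_mul_left]
    refine av_congr fun T hT => ?_
    rw [RR_union hdis, XX_union hdis, RR_congr (hmem T hT), XX_congr (hmem T hT), RR_congr (hmem' T), XX_congr (hmem' T)]
    have e2 : XX c tau (BL l) T t = - ∑ p ∈ BL l, tc c p t * (sg T p - lam * tc c p t) := by
      unfold XX
      rw [Finset.sum_congr rfl fun p hp => by rw [htau p hp]]
    rw [e2]
    unfold RR
    rw [← sub_eq_add_neg]
    ring
  have h2 := step_mean (Q := BL l) (θ := fun p => tc c p t)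
    (fun p hp => (abs_tc_lt_one hc (mem_BL.1 hp).1.two_le t).le) hl0 hl1 hom hom4 (XX c tau S T0 t)
  have h3 : 0 ≤ w t * RR c lam S T0 t := mul_nonneg (hw0 t) (RR_pos hc hl0 hl1 hS T0 t).le
  have h4 : (1 - C * om ^ 2) * Gf om (XX c tau S T0 t) ≤
      (1 - 12 * om ^ 2 * Real.exp (16 * ∑ p ∈ BL l, tc c p t ^ 2)) * Gf om (XX c tau S T0 t) := by
    refine mul_le_mul_of_nonneg_right ?_ (Gf_pos hom _).le
    have h5 : Real.exp (16 * ∑ p ∈ BL l, tc c p t ^ 2) ≤ Real.exp (16 * (4 * C1)) :=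
      Real.exp_le_exp.2 (mul_le_mul_of_nonneg_left (sum_tc_sq67 hc (hb l) t) (by norm_num))
    have h6 : 0 ≤ om ^ 2 := by positivity
    rw [hC]
    nlinarith [mul_le_mul_of_nonneg_left h5 h6]
  calc (1 - C * om ^ 2) * (w t * (RR c lam S T0 t * Gf om (XX c tau S T0 t)))
      = (w t * RR c lam S T0 t) * ((1 - C * om ^ 2) * Gf om (XX c tau S T0 t)) := by ring
    _ ≤ (w t * RR c lam S T0 t) * _ := mul_le_mul_of_nonneg_left (h4.trans h2) h3
    _ = _ := e1.symm

end Pool.Agent.Helper96.CM
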