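import Pool.Agent.Helper96.CM.BlSum

/-!
# Project CM (MP_a499ba_nt). CM3b: Schur test
-/

set_option autoImplicit false

namespace Pool.Agent.Helper96.CM

open Finset Pool.Agent.Helper5.RM Pool.Agent.Helper96.AF

private noncomputable def h80_w (p q : ℕ) : ℝ :=
  (if q ≤ p then 1 / Real.sqrt p * (1 / Real.sqrt q) else 0) +
    if p ≤ q then Real.sqrt p * (1 / (q * Real.sqrt q)) else 0

private lemma h80_w_nonneg (p q : ℕ) : 0 ≤ h80_w p q := by
  unfold h80_w
  split_ifs <;> positivity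

private lemma h80_pt {p q : ℕ} (hp : 1 ≤ p) (hq : 1 ≤ q) (h : q ≤ p) (a b : ℝ) (ha : 0 ≤ a)
    (hb : 0 ≤ b) :
    a * b / max (p : ℝ) q ≤ (a ^ 2 * h80_w p q + b ^ 2 * h80_w q p) / 2 := by
  have hp' : (0 : ℝ) < p := by exact_mod_cast hp
  have hq' : (0 : ℝ) < q := by exact_mod_cast hq
  have h' : (q : ℝ) ≤ p := by exact_mod_cast h
  rw [max_eq_left h']
  have hsp : 0 < Real.sqrt p := Real.sqrt_pos.2 hp'
  have hsq : 0 < Real.sqrt q := Real.sqrt_pos.2 hq'
  have h1 : 1 / Real.sqrt p * (1 / Real.sqrt q) ≤ h80_w p q := by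
    unfold h80_w
    rw [if_pos h]
    have : 0 ≤ (if p ≤ q then Real.sqrt p * (1 / (q * Real.sqrt q)) else 0) := by
      split_ifs <;> positivity
    linarith
  have h2 : Real.sqrt q * (1 / (p * Real.sqrt p)) ≤ h80_w q p := by
    unfold h80_w
    rw [if_pos h]
    have : 0 ≤ (if p ≤ q then 1 / Real.sqrt q * (1 / Real.sqrt p) else 0) := by
      split_ifs <;> positivity
    linarith
  have h3 : a * b / p ≤
      (a ^ 2 * (1 / Real.sqrt p * (1 / Real.sqrt q)) +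
        b ^ 2 * (Real.sqrt q * (1 / (p * Real.sqrt p)))) / 2 := by
    have e1 : (p : ℝ) = Real.sqrt p * Real.sqrt p := (Real.mul_self_sqrt hp'.le).symm
    have e2 : a ^ 2 * (1 / Real.sqrt p * (1 / Real.sqrt q)) +
        b ^ 2 * (Real.sqrt q * (1 / (p * Real.sqrt p))) - 2 * (a * b / p) =
        (a * Real.sqrt p - b * Real.sqrt q) ^ 2 / (p * Real.sqrt p * Real.sqrt q) := by
      have hA : a ^ 2 * (1 / Real.sqrt p * (1 / Real.sqrt q)) =
          a ^ 2 * (Real.sqrt p * Real.sqrt p) / (p * Real.sqrt p * Real.sqrt q) := by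
        rw [← e1]
        field_simp
      have hB : b ^ 2 * (Real.sqrt q * (1 / (p * Real.sqrt p))) =
          b ^ 2 * (Real.sqrt q * Real.sqrt q) / (p * Real.sqrt p * Real.sqrt q) := by
        field_simp
      have hC : 2 * (a * b / p) =
          2 * (a * b * (Real.sqrt p * Real.sqrt q)) / (p * Real.sqrt p * Real.sqrt q) := by
        field_simp
      rw [hA, hB, hC]
      ring
    have e3 : 0 ≤ (a * Real.sqrt p - b * Real.sqrt q) ^ 2 / (p * Real.sqrt p * Real.sqrt q) := by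
      positivity
    linarith
  have h4 := mul_le_mul_of_nonneg_left h1 (sq_nonneg a)
  have h5 := mul_le_mul_of_nonneg_left h2 (sq_nonneg b)
  linarith

theorem schur : ∃ C : ℝ, 0 < C ∧ ∀ (l : ℕ) (u : ℕ → ℝ),
    ∑ p ∈ BL l, ∑ q ∈ BL l, |u p| * |u q| / max (p : ℝ) q ≤ C / 2 ^ l * ∑ p ∈ BL l, u p ^ 2 := by
  obtain ⟨C1, hC1, h1⟩ := bl_half
  obtain ⟨C2, hC2, h2⟩ := bl_three
  refine ⟨C1 + C2, by positivity, ?_⟩
  intro l u
  have hpos : ∀ p ∈ BL l, 1 ≤ p := by
    intro p hp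
    unfold BL PP at hp
    have := (Finset.mem_filter.1 (Finset.mem_sdiff.1 hp).1).1
    exact (Finset.mem_Icc.1 this).1
  have hpt : ∀ p ∈ BL l, ∀ q ∈ BL l, |u p| * |u q| / max (p : ℝ) q ≤
      (u p ^ 2 * h80_w p q + u q ^ 2 * h80_w q p) / 2 := by
    intro p hp q hq
    rcases le_total q p with h | h
    · have := h80_pt (hpos p hp) (hpos q hq) h |u p| |u q| (abs_nonneg _) (abs_nonneg _)
      rwa [sq_abs, sq_abs] at this
    · have := h80_pt (hpos q hq) (hpos p hp) h |u q| |u p| (abs_nonneg _) (abs_nonneg _)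
      rw [sq_abs, sq_abs] at this
      rw [max_comm, mul_comm, add_comm]
      exact this
  have hrow : ∀ p ∈ BL l, ∑ q ∈ BL l, h80_w p q ≤ (C1 + C2) / 2 ^ l := by
    intro p hp
    have hp1 := hpos p hp
    have hp' : (0 : ℝ) < p := by exact_mod_cast hp1
    have hsp : 0 < Real.sqrt p := Real.sqrt_pos.2 hp'
    unfold h80_w
    rw [Finset.sum_add_distrib, ← Finset.sum_filter, ← Finset.sum_filter, ← Finset.mul_sum,
      ← Finset.mul_sum]
    have e1 := mul_le_mul_of_nonneg_left (h1 l p) (by positivity : (0 : ℝ) ≤ 1 / Real.sqrt p)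
    have e2 := mul_le_mul_of_nonneg_left (h2 l p hp1) hsp.le
    have e3 : 1 / Real.sqrt p * (C1 / 2 ^ l * Real.sqrt p) = C1 / 2 ^ l := by
      field_simp
    have e4 : Real.sqrt p * (C2 / 2 ^ l / Real.sqrt p) = C2 / 2 ^ l := by
      field_simp
    rw [e3] at e1
    rw [e4] at e2
    rw [add_div]
    exact add_le_add e1 e2
  calc ∑ p ∈ BL l, ∑ q ∈ BL l, |u p| * |u q| / max (p : ℝ) q
      ≤ ∑ p ∈ BL l, ∑ q ∈ BL l, (u p ^ 2 * h80_w p q + u q ^ 2 * h80_w q p) / 2 :=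
        Finset.sum_le_sum fun p hp => Finset.sum_le_sum fun q hq => hpt p hp q hq
    _ = ∑ p ∈ BL l, u p ^ 2 * ∑ q ∈ BL l, h80_w p q := by
        have e1 : ∑ p ∈ BL l, ∑ q ∈ BL l, u q ^ 2 * h80_w q p =
            ∑ p ∈ BL l, ∑ q ∈ BL l, u p ^ 2 * h80_w p q := Finset.sum_comm
        simp_rw [← Finset.sum_div, Finset.sum_add_distrib]
        rw [e1]
        simp_rw [Finset.mul_sum]
        ring
    _ ≤ ∑ p ∈ BL l, u p ^ 2 * ((C1 + C2) / 2 ^ l) :=
        Finset.sum_le_sum fun p hp => mul_le_mul_of_nonneg_left (hrow p hp) (sq_nonneg _)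
    _ = (C1 + C2) / 2 ^ l * ∑ p ∈ BL l, u p ^ 2 := by
        rw [← Finset.sum_mul, mul_comm]

end Pool.Agent.Helper96.CM
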