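import Pool.Agent.Helper96.CM.Chain
import Pool.Agent.Helper96.CM.Sup

/-!
# Project CM (MP_a499ba_nt). CM7a: first stage
-/

set_option autoImplicit false

namespace Pool.Agent.Helper96.CM

open Finset Pool.Agent.Helper5.RM Pool.Agent.Helper96.AF

private lemma FF_empty (c tau : ℕ → ℝ) (lam om a b : ℝ) (T : Finset ℕ) :
    FF c tau lam om a b (fun _ => 1) ∅ T = (b - a) * Gf om 0 := by
  unfold FF RR XX
  simp

theorem stage1 (a b : ℝ) (ha : 0 < a) (hab : a < b) (hb : b ≤ 1) : ∃ c0 : ℝ, 0 < c0 ∧ ∃ N0 : ℕ, ∀ c : ℕ → ℝ, Adm c →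
    ∀ gam : ℝ, 0 ≤ gam → gam ≤ 1 / 2 → ∀ s n : ℕ, 2 ≤ s → N0 ≤ n → (n : ℝ) ^ 3 ≤ c0 * 2 ^ s →
    pr (WB s (s + n)) (fun T => FF c (fun _ => 1 - gam) (1 - gam) (1 / n) a b (fun _ => 1) (WB s (s + n)) T < c0 / n) ≤
      2 * n * Real.exp (-(c0 * Real.sqrt (2 ^ s / (n : ℝ) ^ 3))) := by
  obtain ⟨Cc, hCc, hchain⟩ := chain
  obtain ⟨Cs, hCs, hsup⟩ := sup_one a ha
  have hba : 0 < b - a := by linarith
  set q : ℝ := (b - a) / (256 * (Cc * Cs)) with hq
  have hCC : 0 < Cc * Cs := mul_pos hCc hCs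
  have hq0 : 0 < q := by positivity
  set c0 : ℝ := min (min 1 q) ((b - a) / 32) with hc0
  have hc00 : 0 < c0 := by
    rw [hc0]
    exact lt_min (lt_min one_pos hq0) (by positivity)
  have hc01 : c0 ≤ 1 := (min_le_left _ _).trans (min_le_left _ _)
  have hc0q : c0 ≤ q := (min_le_left _ _).trans (min_le_right _ _)
  have hc0b : c0 ≤ (b - a) / 32 := min_le_right _ _
  obtain ⟨N1, hN1⟩ := exists_nat_ge (2 * Cc)
  refine ⟨c0, hc00, max 4 N1, fun c hc gam hg0 hg1 s n hs hn hn3 => ?_⟩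
  have hn4 : (4 : ℝ) ≤ n := by exact_mod_cast (le_max_left 4 N1).trans hn
  have hnC : 2 * Cc ≤ n := hN1.trans (by exact_mod_cast (le_max_right 4 N1).trans hn)
  have hn0 : (0 : ℝ) < n := by linarith
  set kap : ℝ := 2 * (Cc * Cs) / 2 ^ s with hkap
  have h2s : (0 : ℝ) < 2 ^ s := by positivity
  have hkap0 : 0 < kap := by positivity
  set A : ℝ := Real.sqrt ((b - a) / (2 * n)) with hA
  have hAsq : A ^ 2 = (b - a) / (2 * n) := Real.sq_sqrt (by positivity)
  have hA0 : 0 < A := Real.sqrt_pos.2 (by positivity)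
  set r : ℝ := A / (8 * n) with hr
  have hr0 : 0 ≤ r := by positivity
  have hom : (0 : ℝ) < 1 / n := by positivity
  have hom1 : (1 : ℝ) / n ≤ 1 / 4 := one_div_le_one_div_of_le (by norm_num) hn4
  have h := hchain c (fun _ => 1 - gam) (1 - gam) (1 / n) a b kap r A (fun _ => 1) s s (s + n) hc
    (by linarith) (by linarith) hom hom1 ha.le hab.le hb continuous_const (fun t => by norm_num) hs le_rfl
    (Nat.le_add_right s n) (fun _ _ _ => rfl) hkap0 hr0 hA0.le
    (fun j hj _ T _ t ht => by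
      have h1 := hsup c (1 - gam) (1 / n) s (j + 1) hc (by linarith) (by linarith) hom hom1 hs (by omega) T t
        ⟨ht.1, ht.2.trans hb⟩
      have h2 : (0 : ℝ) ≤ Cc / 2 ^ j := by positivity
      refine (mul_le_mul_of_nonneg_left h1 h2).trans (le_of_eq ?_)
      rw [hkap, pow_succ]
      field_simp)
    (by
      have e : (((s + n : ℕ) : ℝ) - s) * (Cc * (1 / n) ^ 2) = Cc / n := by
        push_cast
        field_simp
        ring
      rw [e, div_le_div_iff₀ hn0 (by norm_num)]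
      linarith)
  have e1 : (((s + n : ℕ) : ℝ) - s) = n := by
    push_cast
    ring
  rw [e1] at h
  -- comparison of the parameters
  have hk1 : (n : ℝ) * Real.sqrt kap ≤ A / 8 := by
    have h1 : kap ≤ (A / (8 * n)) ^ 2 := by
      rw [div_pow, hAsq, hkap]
      have h2 : (n : ℝ) ^ 3 ≤ q * 2 ^ s := hn3.trans (mul_le_mul_of_nonneg_right hc0q h2s.le)
      rw [hq, div_mul_eq_mul_div, le_div_iff₀ (by positivity)] at h2
      rw [div_div, div_le_div_iff₀ h2s (by positivity)]
      nlinarith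
    have h3 : Real.sqrt kap ≤ A / (8 * n) := by
      rw [← Real.sqrt_sq (by positivity : 0 ≤ A / (8 * n))]
      exact Real.sqrt_le_sqrt h1
    have h4 := mul_le_mul_of_nonneg_left h3 hn0.le
    refine h4.trans (le_of_eq ?_)
    field_simp
  have hk2 : (n : ℝ) * r = A / 8 := by
    rw [hr]
    field_simp
  have hexp : c0 * Real.sqrt (2 ^ s / (n : ℝ) ^ 3) ≤ r / Real.sqrt kap := by
    have hsk : 0 < Real.sqrt kap := Real.sqrt_pos.2 hkap0
    have h5 : r / Real.sqrt kap = Real.sqrt q * Real.sqrt (2 ^ s / (n : ℝ) ^ 3) := by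
      rw [← Real.sqrt_mul hq0.le, hr]
      have h6 : A / (8 * n) = Real.sqrt ((b - a) / (2 * n) / (8 * n) ^ 2) := by
        rw [Real.sqrt_div' _ (by positivity), Real.sqrt_sq (by positivity)]
      rw [h6, ← Real.sqrt_div' _ hkap0.le]
      congr 1
      rw [hq, hkap]
      field_simp
      ring
    rw [h5]
    refine mul_le_mul_of_nonneg_right ?_ (Real.sqrt_nonneg _)
    rw [Real.le_sqrt' hc00]
    nlinarith
  refine (pr_mono fun T _ hT => ?_).trans (h.trans ?_)
  · refine ⟨?_, ?_⟩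
    · rw [WB_self, FF_empty, hAsq]
      have h7 := Gf_zero hom hom1
      have h8 := mul_le_mul_of_nonneg_left h7 hba.le
      refine le_trans (le_of_eq ?_) h8
      field_simp
    · have h9 : Real.sqrt (FF c (fun _ => 1 - gam) (1 - gam) (1 / n) a b (fun _ => 1) (WB s (s + n)) T) < A / 4 := by
        rw [Real.sqrt_lt' (by positivity)]
        refine hT.trans_le ?_
        rw [div_pow, hAsq]
        rw [div_div, div_le_div_iff₀ hn0 (by positivity)]
        nlinarith
      refine h9.trans_le ?_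
      rw [mul_add, hk2]
      linarith
  · refine mul_le_mul_of_nonneg_left (Real.exp_le_exp.2 (neg_le_neg hexp)) (by positivity)

end Pool.Agent.Helper96.CM
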