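import Pool.Agent.Helper96.CM.Gf

/-!
# Project CM (MP_a499ba_nt). CM2a: mean of one step
-/

set_option autoImplicit false

namespace Pool.Agent.Helper96.CM

open Finset Pool.Agent.Helper5.RM Pool.Agent.Helper96.AF

private lemma exp_abs_sq (z : ℝ) :
    Real.exp |z| * z ^ 2 ≤ 2 * Real.exp (2 * z) + 2 * Real.exp (-(2 * z)) := by
  have h0 := abs_nonneg z
  have h1 : z ^ 2 ≤ 2 * Real.exp |z| := by
    have := Real.quadratic_le_exp_of_nonneg h0
    rw [← sq_abs]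
    nlinarith
  have h2 : Real.exp |z| * z ^ 2 ≤ 2 * Real.exp (2 * |z|) := by
    calc Real.exp |z| * z ^ 2 ≤ Real.exp |z| * (2 * Real.exp |z|) :=
          mul_le_mul_of_nonneg_left h1 (Real.exp_pos _).le
      _ = 2 * Real.exp (2 * |z|) := by
          rw [two_mul |z|, Real.exp_add]
          ring
  refine h2.trans ?_
  rcases abs_cases z with ⟨e, _⟩ | ⟨e, _⟩
  · rw [e]
    linarith [Real.exp_pos (-(2 * z))]
  · rw [e, mul_neg]
    linarith [Real.exp_pos (2 * z)]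

theorem step_mean {Q : Finset ℕ} {θ : ℕ → ℝ} (hθ : ∀ p ∈ Q, |θ p| ≤ 1) {lam om : ℝ} (hl : 0 ≤ lam) (hl1 : lam ≤ 1)
    (h : 0 < om) (h1 : om ≤ 1 / 4) (x : ℝ) :
    (1 - 12 * om ^ 2 * Real.exp (16 * ∑ p ∈ Q, θ p ^ 2)) * Gf om x ≤
      av Q (fun T => (∏ p ∈ Q, (1 + sg T p * (lam * θ p))) * Gf om (x - ∑ p ∈ Q, θ p * (sg T p - lam * θ p))) := by
  have hφ : ∀ p ∈ Q, |lam * θ p| ≤ 1 := by
    intro p hp
    rw [abs_mul, abs_of_nonneg hl]
    have := hθ p hp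
    have h0 := abs_nonneg (θ p)
    nlinarith
  show _ ≤ aw Q (fun p => lam * θ p) (fun T => Gf om (x - ∑ p ∈ Q, θ p * (sg T p - lam * θ p)))
  have hG := Gf_pos h x
  have hlow : ∀ T ⊆ Q, Gf om x + (-(Gd om x)) * (∑ p ∈ Q, θ p * (sg T p - lam * θ p)) +
      (-(3 * om ^ 2 * Gf om x)) * (2 * Real.exp (∑ p ∈ Q, (2 * θ p) * (sg T p - lam * θ p)) +
        2 * Real.exp (∑ p ∈ Q, (-(2 * θ p)) * (sg T p - lam * θ p))) ≤
      Gf om (x - ∑ p ∈ Q, θ p * (sg T p - lam * θ p)) := by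
    intro T _
    set z := ∑ p ∈ Q, θ p * (sg T p - lam * θ p) with hz
    have e1 : ∑ p ∈ Q, (2 * θ p) * (sg T p - lam * θ p) = 2 * z := by
      rw [hz, Finset.mul_sum]
      exact Finset.sum_congr rfl fun p _ => by ring
    have e2 : ∑ p ∈ Q, (-(2 * θ p)) * (sg T p - lam * θ p) = -(2 * z) := by
      rw [hz, Finset.mul_sum, ← Finset.sum_neg_distrib]
      exact Finset.sum_congr rfl fun p _ => by ring
    rw [e1, e2]
    have h2 := Gf_lower h h1 x (x - z)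
    have e3 : x - z - x = -z := by ring
    rw [e3, abs_neg, neg_sq] at h2
    have h3 := exp_abs_sq z
    have h4 : 3 * om ^ 2 * (Real.exp |z| * z ^ 2) * Gf om x ≤
        3 * om ^ 2 * (2 * Real.exp (2 * z) + 2 * Real.exp (-(2 * z))) * Gf om x :=
      mul_le_mul_of_nonneg_right (mul_le_mul_of_nonneg_left h3 (by positivity)) hG.le
    linarith
  refine le_trans ?_ (Pool.Agent.Helper66.AF.aw_mono hφ hlow)
  rw [Pool.Agent.Helper66.AF.aw_add, Pool.Agent.Helper66.AF.aw_add, Pool.Agent.Helper66.AF.aw_const,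
    Pool.Agent.Helper66.AF.aw_mul_left, Pool.Agent.Helper66.AF.aw_mul_left, Pool.Agent.Helper66.AF.aw_add,
    Pool.Agent.Helper66.AF.aw_mul_left, Pool.Agent.Helper66.AF.aw_mul_left, Pool.Agent.Helper66.AF.aw_sum]
  have hc : ∑ p ∈ Q, aw Q (fun p => lam * θ p) (fun T => θ p * (sg T p - lam * θ p)) = 0 := by
    refine Finset.sum_eq_zero fun p hp => ?_
    exact Pool.Agent.Helper66.AF.aw_center hp (fun p => lam * θ p) (fun _ => θ p) fun T _ => rfl
  rw [hc]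
  have a1 := Pool.Agent.Helper66.AF.aw_exp_le hφ (fun p => 2 * θ p)
  have a2 := Pool.Agent.Helper66.AF.aw_exp_le hφ (fun p => -(2 * θ p))
  have s1 : 4 * ∑ p ∈ Q, (2 * θ p) ^ 2 = 16 * ∑ p ∈ Q, θ p ^ 2 := by
    rw [Finset.mul_sum, Finset.mul_sum]
    exact Finset.sum_congr rfl fun p _ => by ring
  have s2 : 4 * ∑ p ∈ Q, (-(2 * θ p)) ^ 2 = 16 * ∑ p ∈ Q, θ p ^ 2 := by
    rw [Finset.mul_sum, Finset.mul_sum]
    exact Finset.sum_congr rfl fun p _ => by ring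
  rw [s1] at a1
  rw [s2] at a2
  have a3 : 3 * om ^ 2 * Gf om x *
      (2 * aw Q (fun p => lam * θ p) (fun T => Real.exp (∑ p ∈ Q, (2 * θ p) * (sg T p - lam * θ p))) +
        2 * aw Q (fun p => lam * θ p) (fun T => Real.exp (∑ p ∈ Q, (-(2 * θ p)) * (sg T p - lam * θ p)))) ≤
      3 * om ^ 2 * Gf om x * (4 * Real.exp (16 * ∑ p ∈ Q, θ p ^ 2)) :=
    mul_le_mul_of_nonneg_left (by linarith) (by positivity)
  linarith

end Pool.Agent.Helper96.CM
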