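import Pool.Agent.Helper96.CM.Defs

/-!
# Project CM (MP_a499ba_nt). CM6a: sums of squares and cubes
-/

set_option autoImplicit false

namespace Pool.Agent.Helper96.CM

open Finset Pool.Agent.Helper5.RM Pool.Agent.Helper96.AF

/-- the twisted sum is bounded above away from the pole -/
private lemma cos_upper (a : ℝ) (ha : 0 < a) : ∃ C : ℝ, 0 ≤ C ∧ ∀ y : ℕ, 3 ≤ y → ∀ t ∈ Set.Icc a 1,
    ∑ p ∈ PP y, Real.cos ((2 * t) * Real.log p) / p ≤ C := by
  refine ⟨|Real.log (49 / a)| + Helper66.AF.CA, add_nonneg (abs_nonneg _) Helper66.AF.CA_nonneg, fun y hy t ht => ?_⟩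
  obtain ⟨ht1, ht2⟩ := ht
  have hL := Helper66.AF.one_le_log hy
  have hL0 : 0 < Real.log y := by linarith
  have h1 := (Helper66.AF.zeta_near hy (2 * t)).1
  have h2 := Helper66.AF.zeta_upper (σ := 1 + 1 / Real.log y) (t := 2 * t) (by
      have : 0 < 1 / Real.log y := by positivity
      linarith)
    (by have : 1 / Real.log y ≤ 1 := (div_le_one hL0).2 hL
        linarith)
  rw [norm_mul] at h2
  have habs : |2 * t| = 2 * t := abs_of_pos (by linarith)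
  rw [habs] at h2
  have n0 : 2 * a ≤ ‖(((1 + 1 / Real.log y : ℝ) : ℂ)) + ((2 * t : ℝ) : ℂ) * Complex.I - 1‖ := by
    refine le_trans ?_ (Complex.abs_im_le_norm _)
    have : ((((1 + 1 / Real.log y : ℝ) : ℂ)) + ((2 * t : ℝ) : ℂ) * Complex.I - 1).im = 2 * t := by
      rw [Complex.sub_im, Complex.add_im, Complex.ofReal_im, Complex.mul_im, Complex.ofReal_re, Complex.ofReal_im,
        Complex.I_re, Complex.I_im, Complex.one_im]
      ring
    rw [this, habs]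
    linarith
  set S := ∑ p ∈ PP y, Real.cos ((2 * t) * Real.log p) / p with hS
  have h3 : Real.exp (S - Helper66.AF.CA) * (2 * a) ≤ 98 := by
    have h4 : 2 * (3 + 2 * (2 * t)) ^ 2 ≤ 98 := by nlinarith
    refine le_trans ?_ (h2.trans h4)
    rw [mul_comm]
    exact mul_le_mul n0 h1 (Real.exp_pos _).le (norm_nonneg _)
  have h4 : Real.exp (S - Helper66.AF.CA) ≤ 49 / a := by
    rw [le_div_iff₀ ha]
    linarith
  have h5 := (Real.le_log_iff_exp_le (by positivity : (0 : ℝ) < 49 / a)).2 h4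
  linarith [le_abs_self (Real.log (49 / a))]

private lemma tc_sq_cos {c : ℕ → ℝ} (hc : Adm c) {p : ℕ} (hp : 1 ≤ p) (t : ℝ) :
    tc c p t ^ 2 ≤ 2 * ((1 : ℝ) / p) + 2 * (Real.cos ((2 * t) * Real.log p) / p) := by
  have hp0 : (1 : ℝ) ≤ p := by exact_mod_cast hp
  have hcos : Real.cos ((2 * t) * Real.log p) = 2 * Real.cos (t * Real.log p) ^ 2 - 1 := by
    rw [← Real.cos_two_mul]
    congr 1
    ring
  have h1 : c p ^ 2 ≤ 4 / p := by
    have h2 : c p ^ 2 ≤ (2 * Real.sqrt p / (p + 1)) ^ 2 := pow_le_pow_left₀ (hc p).1 (hc p).2 2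
    refine h2.trans ?_
    rw [div_pow, mul_pow, Real.sq_sqrt (by positivity), div_le_div_iff₀ (by positivity) (by positivity)]
    nlinarith
  unfold tc
  rw [mul_pow, hcos]
  calc c p ^ 2 * Real.cos (t * Real.log p) ^ 2 ≤ 4 / p * Real.cos (t * Real.log p) ^ 2 :=
        mul_le_mul_of_nonneg_right h1 (sq_nonneg _)
    _ = 2 * ((1 : ℝ) / p) + 2 * ((2 * Real.cos (t * Real.log p) ^ 2 - 1) / p) := by
        ring

private lemma one_add_cos_nonneg {p : ℕ} (t : ℝ) :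
    0 ≤ 2 * ((1 : ℝ) / p) + 2 * (Real.cos ((2 * t) * Real.log p) / p) := by
  have h1 : 2 * ((1 : ℝ) / p) + 2 * (Real.cos ((2 * t) * Real.log p) / p) = 2 * ((1 + Real.cos ((2 * t) * Real.log p)) / p) := by
    ring
  rw [h1]
  have h2 := Real.neg_one_le_cos ((2 * t) * Real.log p)
  have h3 : 0 ≤ (1 + Real.cos ((2 * t) * Real.log p)) / p := div_nonneg (by linarith) (Nat.cast_nonneg _)
  linarith

theorem theta_up (a : ℝ) (ha : 0 < a) : ∃ C : ℝ, 0 < C ∧ ∀ c : ℕ → ℝ, Adm c → ∀ s l : ℕ, s ≤ l → ∀ t ∈ Set.Icc a 1,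
    ∑ p ∈ WB s l, tc c p t ^ 2 ≤ 2 * Real.log 2 * ((l : ℝ) - s) + C := by
  obtain ⟨C1, hC1, h1⟩ := Helper66.AF.mertens_upper
  obtain ⟨C2, hC2, h2⟩ := Helper66.AF.mertens_lower
  obtain ⟨C3, hC3, h3⟩ := cos_upper a ha
  obtain ⟨C4, hC4, h4⟩ := Helper66.AF.cos_lower
  have hl2 : 0 ≤ Real.log 2 := Real.log_nonneg (by norm_num)
  have hl4 : 0 ≤ Real.log 4 := Real.log_nonneg (by norm_num)
  have hC4' : 0 ≤ C4 * (1 + Real.log 4) := by positivity
  have hll := abs_nonneg (Real.log (Real.log 2))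
  refine ⟨2 * (C1 + C2 + C3 + C4 * (1 + Real.log 4) + |Real.log (Real.log 2)|) + 1, by positivity,
    fun c hc s l hsl t ht => ?_⟩
  set f : ℕ → ℝ := fun p => 2 * ((1 : ℝ) / p) + 2 * (Real.cos ((2 * t) * Real.log p) / p) with hf
  have e1 : ∑ p ∈ WB s l, tc c p t ^ 2 ≤ ∑ p ∈ WB s l, f p :=
    Finset.sum_le_sum fun p hp => tc_sq_cos hc (by have := two_le_WB hp; omega) t
  refine e1.trans ?_
  have e2 : ∀ N : ℕ, ∑ p ∈ PP N, f p = 2 * ∑ p ∈ PP N, (1 : ℝ) / p + 2 * ∑ p ∈ PP N, Real.cos ((2 * t) * Real.log p) / p := by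
    intro N
    rw [hf, Finset.sum_add_distrib, Finset.mul_sum, Finset.mul_sum]
  have e3 : ∑ p ∈ WB s l, f p + ∑ p ∈ PP (Y s), f p = ∑ p ∈ PP (Y l), f p := by
    unfold WB
    exact Finset.sum_sdiff (PP_Y_mono hsl)
  rcases Nat.eq_zero_or_pos l with rfl | hl
  · have hs0 : s = 0 := by omega
    subst hs0
    rw [WB_self, Finset.sum_empty]
    push_cast
    have : 0 ≤ 2 * (C1 + C2 + C3 + C4 * (1 + Real.log 4) + |Real.log (Real.log 2)|) := by positivity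
    linarith
  have b1 := h1 (Y l) (three_le_Y hl)
  have b3 := h3 (Y l) (three_le_Y hl) t ht
  rw [loglog_Y] at b1
  have e6 := le_abs_self (Real.log (Real.log 2))
  rw [e2 (Y l)] at e3
  rcases Nat.eq_zero_or_pos s with rfl | hs
  · have e4 : 0 ≤ ∑ p ∈ PP (Y 0), f p := Finset.sum_nonneg fun p _ => one_add_cos_nonneg t
    push_cast
    linarith
  · have b2 := h2 (Y s) (three_le_Y hs)
    have b4 := h4 (Y s) (three_le_Y hs) (2 * t)
    rw [loglog_Y] at b2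
    rw [e2 (Y s)] at e3
    have e5 : Real.log (2 + |2 * t|) ≤ Real.log 4 := by
      rw [abs_of_pos (by linarith [ht.1] : (0 : ℝ) < 2 * t)]
      exact Real.log_le_log (by linarith [ht.1]) (by linarith [ht.2])
    have e7 : C4 * (1 + Real.log (2 + |2 * t|)) ≤ C4 * (1 + Real.log 4) := mul_le_mul_of_nonneg_left (by linarith) hC4
    linarith

theorem cube_sum : ∃ C : ℝ, 0 < C ∧ ∀ c : ℕ → ℝ, Adm c → ∀ s l : ℕ, ∀ t : ℝ,
    ∑ p ∈ WB s l, |tc c p t| ^ 3 ≤ C := by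
  have hs : Summable (fun n : ℕ => 1 / (n : ℝ) ^ (3 / 2 : ℝ)) := Real.summable_one_div_nat_rpow.2 (by norm_num)
  have h0 : 0 ≤ ∑' n : ℕ, 1 / (n : ℝ) ^ (3 / 2 : ℝ) := tsum_nonneg fun n => by positivity
  refine ⟨8 * (∑' n : ℕ, 1 / (n : ℝ) ^ (3 / 2 : ℝ)) + 1, by positivity, fun c hc s l t => ?_⟩
  have e1 : ∀ p ∈ WB s l, |tc c p t| ^ 3 ≤ 8 * (1 / (p : ℝ) ^ (3 / 2 : ℝ)) := by
    intro p hp
    have hp2 := two_le_WB hp
    have hp0 : (0 : ℝ) < p := by exact_mod_cast (by omega : 0 < p)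
    have h1 := pow_le_pow_left₀ (abs_nonneg _) (abs_tc_le' hc (by omega : 1 ≤ p) t) 3
    refine h1.trans (le_of_eq ?_)
    rw [div_pow, Real.sqrt_eq_rpow, ← Real.rpow_natCast ((p : ℝ) ^ (1 / 2 : ℝ)) 3, ← Real.rpow_mul hp0.le]
    norm_num
    ring
  refine (Finset.sum_le_sum e1).trans ?_
  rw [← Finset.mul_sum]
  have := hs.sum_le_tsum (WB s l) (fun n _ => by positivity)
  linarith

end Pool.Agent.Helper96.CM
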